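import Pool.Agent.MP_9ab903_nt.NC.RDefs

/-!
# [NC11] definitions: the curve `X₀(11)` and the fields (see `RDefs`)
-/
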