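import Pool.Agent.MP_9ab903_nt.NC.R1
import Pool.Agent.MP_9ab903_nt.NC.A1

set_option autoImplicit false

open Polynomial NumberField IsDedekindDomain
open scoped Classical

namespace X11

/-! ## [NC-A2] translation by a point of order `2` (port of SB/A2.lean) -/

theorem a2_order {K : Type} [Field K] [CharZero K] {t s : K}
    (h : (E K).toAffine.Nonsingular t s)
    (hT : 2 • (WeierstrassCurve.Affine.Point.some t s h) = 0) : 2 * s + 1 = 0 := by
  by_contra hs
  have hy : s ≠ (E K).toAffine.negY t s := by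
    rw [a1_negY]
    intro h1
    apply hs
    linear_combination h1
  rw [two_nsmul, WeierstrassCurve.Affine.Point.add_self_of_Y_ne hy] at hT
  exact WeierstrassCurve.Affine.Point.some_ne_zero _ hT

theorem a2_order_iff {K : Type} [Field K] [CharZero K] {t s : K}
    (h : (E K).toAffine.Nonsingular t s) (hs : 2 * s + 1 = 0) :
    s = -1 / 2 ∧ 4 * t ^ 3 - 4 * t ^ 2 - 40 * t - 79 = 0 ∧ 3 * t ^ 2 - 2 * t - 10 ≠ 0 := by
  have h1 := a1_equation h
  rw [hs] at h1
  refine ⟨by linear_combination hs / 2, by linear_combination -h1, a1_der_ne' h hs⟩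

theorem a2_rOf_tors {K : Type} [Field K] {x y : K} (h : (E K).toAffine.Nonsingular x y)
    (hy : 2 * y + 1 = 0) :
    rOf (.some x y h) = trip ((14 - x ^ 2) / (3 * x ^ 2 - 2 * x - 10))
      ((16 - x) / (3 * x ^ 2 - 2 * x - 10)) ((25 + 6 * x) / (2 * (3 * x ^ 2 - 2 * x - 10))) := by
  simp only [rOf, if_pos hy]

theorem a2_rOf_some {K : Type} [Field K] {x y : K} (h : (E K).toAffine.Nonsingular x y)
    (hy : 2 * y + 1 ≠ 0) :
    rOf (.some x y h) = trip ((-25 - 6 * x) / (2 * y + 1)) ((-x ^ 2 - 6 * x - 11) / (2 * y + 1))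
      ((-9 - 7 * x) / (2 * y + 1)) := by
  simp only [rOf, if_neg hy]

/-- the identities for two different points of order `2` -/
theorem a2_tors {K : Type} [Field K] [CharZero K] {x t : K} (hxt : x ≠ t)
    (hx : 4 * x ^ 3 - 4 * x ^ 2 - 40 * x - 79 = 0) (ht : 4 * t ^ 3 - 4 * t ^ 2 - 40 * t - 79 = 0)
    (hx0 : 3 * x ^ 2 - 2 * x - 10 ≠ 0) (ht0 : 3 * t ^ 2 - 2 * t - 10 ≠ 0)
    (h30 : 3 * (1 - x - t) ^ 2 - 2 * (1 - x - t) - 10 ≠ 0) :
    trip ((14 - (1 - x - t) ^ 2) / (3 * (1 - x - t) ^ 2 - 2 * (1 - x - t) - 10))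
      ((16 - (1 - x - t)) / (3 * (1 - x - t) ^ 2 - 2 * (1 - x - t) - 10))
      ((25 + 6 * (1 - x - t)) / (2 * (3 * (1 - x - t) ^ 2 - 2 * (1 - x - t) - 10))) =
    trip ((14 - x ^ 2) / (3 * x ^ 2 - 2 * x - 10))
      ((16 - x) / (3 * x ^ 2 - 2 * x - 10)) ((25 + 6 * x) / (2 * (3 * x ^ 2 - 2 * x - 10))) *
    trip ((14 - t ^ 2) / (3 * t ^ 2 - 2 * t - 10))
      ((16 - t) / (3 * t ^ 2 - 2 * t - 10)) ((25 + 6 * t) / (2 * (3 * t ^ 2 - 2 * t - 10))) := by
  have hq : x ^ 2 + x * t + t ^ 2 - x - t - 10 = 0 := by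
    apply mul_left_cancel₀ (sub_ne_zero.2 hxt)
    linear_combination (1 / 4 : K) * hx - (1 / 4 : K) * ht
  rw [r1_trip_mul]
  generalize hD : 3 * x ^ 2 - 2 * x - 10 = D at hx0
  generalize hD' : 3 * t ^ 2 - 2 * t - 10 = D' at ht0
  generalize hD3 : 3 * (1 - x - t) ^ 2 - 2 * (1 - x - t) - 10 = D3 at h30
  congr 1
  · field_simp
    rw [← hD, ← hD', ← hD3]
    linear_combination ((-48)*x^2*t^2 + (24)*x^2*t + (288)*x^2 + (-48)*x*t^3 + (88)*x*t^2 +
      (-328)*x*t + (-1204)*x + (48)*t^4 + (-48)*t^3 + (-528)*t^2 + (-1656)*t + (384)) * hq +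
      ((-4)*x*t + (84)*x + (-12)*t^3 + (12)*t^2 + (204)*t + (-124)) * ht
  · field_simp
    rw [← hD, ← hD', ← hD3]
    linear_combination ((-6)*x^2*t + (96)*x^2 + (6)*x*t^2 + (-94)*x*t + (-32)*x + (92)*t^2 +
      (52)*t + (-63)) * hq + ((-3)*x*t + (1)*x + (1)*t + (-21)) * ht
  · field_simp
    rw [← hD, ← hD', ← hD3]
    linear_combination ((18)*x^2*t + (75)*x^2 + (-18)*x*t^2 + (-81)*x*t + (-25)*x + (87)*t^2 +
      (-277)*t + (-1021)) * hq + ((9)*x*t + (-3)*x + (-3)*t + (63)) * ht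

/-- the identities for a point which is not of order `2` -/
theorem a2_gen {K : Type} [Field K] [CharZero K] {x t Y : K} (hxt : x - t ≠ 0)
    (ht : 4 * t ^ 3 - 4 * t ^ 2 - 40 * t - 79 = 0) (hY : Y ≠ 0)
    (ht0 : 3 * t ^ 2 - 2 * t - 10 ≠ 0) :
    trip ((-25 - 6 * ((x * t + 2 * t ^ 2 - 2 * t - 10) / (x - t))) /
        (-(3 * t ^ 2 - 2 * t - 10) * Y / (x - t) ^ 2))
      ((-((x * t + 2 * t ^ 2 - 2 * t - 10) / (x - t)) ^ 2 -
        6 * ((x * t + 2 * t ^ 2 - 2 * t - 10) / (x - t)) - 11) /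
        (-(3 * t ^ 2 - 2 * t - 10) * Y / (x - t) ^ 2))
      ((-9 - 7 * ((x * t + 2 * t ^ 2 - 2 * t - 10) / (x - t))) /
        (-(3 * t ^ 2 - 2 * t - 10) * Y / (x - t) ^ 2)) =
    trip ((-25 - 6 * x) / Y) ((-x ^ 2 - 6 * x - 11) / Y) ((-9 - 7 * x) / Y) *
    trip ((14 - t ^ 2) / (3 * t ^ 2 - 2 * t - 10))
      ((16 - t) / (3 * t ^ 2 - 2 * t - 10)) ((25 + 6 * t) / (2 * (3 * t ^ 2 - 2 * t - 10))) := by
  rw [r1_trip_mul]
  generalize hD' : 3 * t ^ 2 - 2 * t - 10 = D' at ht0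
  have hN : (x * t + 2 * t ^ 2 - 2 * t - 10) / (x - t) = t + D' / (x - t) := by
    rw [← hD']
    field_simp
    ring
  generalize hd : x - t = d at hxt hN
  congr 1
  · field_simp
    rw [← hd]
    linear_combination ((-6)) * ht
  · field_simp
    rw [← hd]
    linear_combination ((1)*x + (1)*t + (-4)) * ht
  · field_simp
    rw [← hd]
    linear_combination ((-7)) * ht

theorem rOf_add {K : Type} [Field K] [CharZero K] (B T : (E K).toAffine.Point) (hT : 2 • T = 0) :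
    rOf (B + T) = rOf B * rOf T := by
  rcases T with _ | ⟨t, s, hts⟩
  · change rOf (B + 0) = rOf B * rOf 0
    rw [add_zero, a1_rOf_zero, mul_one]
  rcases B with _ | ⟨x, y, hxy⟩
  · change rOf (0 + _) = rOf 0 * rOf _
    rw [zero_add, a1_rOf_zero, one_mul]
  have hs := a2_order hts hT
  obtain ⟨hs', ht3, ht0⟩ := a2_order_iff hts hs
  by_cases hy : 2 * y + 1 = 0
  · obtain ⟨hy', hx3, hx0⟩ := a2_order_iff hxy hy
    by_cases hxt : x = t
    · -- `B = T`
      subst hxt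
      have hys : y = s := by rw [hy', hs']
      subst hys
      rw [← two_nsmul, hT, ← sq, rOf_sq, hT, a1_zOf_zero, a1_rOf_zero]
    · rw [a2_rOf_tors hts hs, a2_rOf_tors hxy hy, WeierstrassCurve.Affine.Point.add_of_X_ne hxt]
      have hsl : (E K).toAffine.slope x t y s = 0 := by
        rw [WeierstrassCurve.Affine.slope_of_X_ne hxt, hy', hs', sub_self, zero_div]
      have hX : (E K).toAffine.addX x t ((E K).toAffine.slope x t y s) = 1 - x - t := by
        rw [hsl]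
        simp only [WeierstrassCurve.Affine.addX, E]
        ring
      have hY : 2 * (E K).toAffine.addY x t y ((E K).toAffine.slope x t y s) + 1 = 0 := by
        rw [WeierstrassCurve.Affine.addY, a1_negY, WeierstrassCurve.Affine.negAddY, hX, hsl, hy']
        ring
      have h30 := a1_der_ne' (WeierstrassCurve.Affine.nonsingular_add hxy hts
        (fun h => hxt h.1)) hY
      rw [a2_rOf_tors _ hY]
      rw [hX] at h30 ⊢
      exact a2_tors hxt hx3 ht3 hx0 ht0 h30
  · have hY2 : (2 * y + 1) ^ 2 = 4 * (x - t) * (x ^ 2 + x * t + t ^ 2 - x - t - 10) := by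
      linear_combination a1_equation hxy + ht3
    have hxt : x ≠ t := by
      rintro rfl
      apply hy
      have h1 : (2 * y + 1) ^ 2 = 0 := by linear_combination hY2
      exact pow_eq_zero_iff (two_ne_zero) |>.1 h1
    have hd : x - t ≠ 0 := sub_ne_zero.2 hxt
    rw [a2_rOf_tors hts hs, a2_rOf_some hxy hy, WeierstrassCurve.Affine.Point.add_of_X_ne hxt]
    have hsl : (E K).toAffine.slope x t y s = (2 * y + 1) / (2 * (x - t)) := by
      rw [WeierstrassCurve.Affine.slope_of_X_ne hxt, hs']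
      field_simp
      ring
    have hX : (E K).toAffine.addX x t ((E K).toAffine.slope x t y s) =
        (x * t + 2 * t ^ 2 - 2 * t - 10) / (x - t) := by
      rw [hsl]
      simp only [WeierstrassCurve.Affine.addX, E]
      field_simp
      linear_combination hY2
    have hY : 2 * (E K).toAffine.addY x t y ((E K).toAffine.slope x t y s) + 1 =
        -(3 * t ^ 2 - 2 * t - 10) * (2 * y + 1) / (x - t) ^ 2 := by
      rw [WeierstrassCurve.Affine.addY, a1_negY, WeierstrassCurve.Affine.negAddY, hX, hsl]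
      field_simp
      ring
    have hY0 : 2 * (E K).toAffine.addY x t y ((E K).toAffine.slope x t y s) + 1 ≠ 0 := by
      rw [hY]
      exact div_ne_zero (mul_ne_zero (neg_ne_zero.2 ht0) hy) (pow_ne_zero 2 hd)
    rw [a2_rOf_some _ hY0, hY, hX]
    exact a2_gen hd ht3 hy ht0

end X11
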