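import Pool.Agent.MP_9ab903_nt.NC.A1

set_option autoImplicit false

open Polynomial NumberField IsDedekindDomain
open scoped Classical

namespace X11

/-! ## [NC-R1b] halving (port of the theorem of the same name in MP_ae0bd0_nt/CM/R1.lean) -/

/-- If the class of `P` is trivial then `P` is divisible by `2`. -/
theorem exists_half {K : Type} [Field K] [CharZero K] [Fact (Irreducible (cubPoly K))]
    (P : (E K).toAffine.Point) (s : R K) (h : zOf P = s ^ 2) : ∃ Q, P = 2 • Q := by
  cases P with
  | zero =>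
    refine ⟨0, ?_⟩
    rw [smul_zero]
    rfl
  | some x y hP =>
    obtain ⟨a, b, c, rfl⟩ := trip_surj s
    have h1 : trip (-7 : K) (-4) (x - 4) = trip a b c * trip a b c := by
      rw [← sq]; exact h
    rw [r1_trip_mul] at h1
    obtain ⟨e1, e2, e3⟩ := trip_inj h1
    obtain ⟨W, hWd⟩ : ∃ W : K, W = 6 * c - 7 * a := ⟨_, rfl⟩
    obtain ⟨U, hUd⟩ : ∃ U : K, U = 9 * a - 25 * c := ⟨_, rfl⟩
    have hbW : b * W = -(2 * a ^ 2 + c ^ 2) := by
      rw [hWd]
      linear_combination (-2 : K) * e1 + (7 / 2 : K) * e2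
    have hW0 : W ≠ 0 := by
      intro h0
      have ha : a = 0 := by
        have h3 : a ^ 2 = 0 := by
          have h4 : 6 * c = 7 * a := by linear_combination h0 - hWd
          have h5 : c = 7 / 6 * a := by linear_combination h4 / 6
          rw [h0, h5] at hbW
          linear_combination (36 / 121 : K) * hbW
        exact pow_eq_zero_iff (two_ne_zero) |>.1 h3
      have hc : c = 0 := by
        rw [ha] at hWd
        linear_combination (h0 - hWd) / 6
      rw [ha, hc] at e1
      norm_num at e1
    have hC : W = a ^ 3 - 2 * a ^ 2 * c + 4 * a * c ^ 2 - 4 * c ^ 3 := by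
      have h7 : -7 * W = a ^ 2 * W - 4 * c * (b * W) + 4 * c ^ 2 * W := by
        linear_combination W * e1
      rw [hbW, hWd] at h7
      rw [hWd]
      linear_combination -h7 / 7
    have hb : b = -(2 * a ^ 2 + c ^ 2) / W := by
      field_simp
      linear_combination hbW
    have hx : x = 4 + 2 * a * c + b ^ 2 - 4 * b * c + 2 * c ^ 2 := by
      linear_combination e3
    set u : K := U / W with hu
    set v : K := (121 / W - 1) / 2 with hv
    have h121 : (121 : K) ≠ 0 := by norm_num
    have h2v : 2 * v + 1 = 121 / W := by rw [hv]; ring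
    have h2v0 : 2 * v + 1 ≠ 0 := by
      rw [h2v]
      exact div_ne_zero h121 hW0
    have hQe : v ^ 2 + v = u ^ 3 - u ^ 2 - 10 * u - 20 := by
      have h3 : (2 * v + 1) ^ 2 = 4 * u ^ 3 - 4 * u ^ 2 - 40 * u - 79 := by
        rw [h2v, hu]
        have h4 : 121 ^ 2 * W = 4 * U ^ 3 - 4 * U ^ 2 * W - 40 * U * W ^ 2 - 79 * W ^ 3 := by
          have h5 : 121 ^ 2 * (a ^ 3 - 2 * a ^ 2 * c + 4 * a * c ^ 2 - 4 * c ^ 3) =
              4 * U ^ 3 - 4 * U ^ 2 * W - 40 * U * W ^ 2 - 79 * W ^ 3 := by
            rw [hUd, hWd]; ring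
          rw [← h5, ← hC]
        field_simp
        linear_combination h4
      linear_combination h3 / 4
    have hQ : (E K).toAffine.Nonsingular u v := by
      rw [WeierstrassCurve.Affine.nonsingular_iff]
      refine ⟨?_, Or.inr ?_⟩
      · rw [WeierstrassCurve.Affine.equation_iff]
        simp only [E]
        linear_combination hQe
      · simp only [E]
        intro h4
        exact h2v0 (by linear_combination h4)
    have hy : v ≠ (E K).toAffine.negY u v := by
      simp only [WeierstrassCurve.Affine.negY, E]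
      intro h4
      exact h2v0 (by linear_combination h4)
    have hdbl : (WeierstrassCurve.Affine.Point.some u v hQ) +
        (WeierstrassCurve.Affine.Point.some u v hQ) = _ :=
      WeierstrassCurve.Affine.Point.add_self_of_Y_ne hy
    have hX : (E K).toAffine.addX u u ((E K).toAffine.slope u u v v) = x := by
      rw [WeierstrassCurve.Affine.slope_of_Y_ne rfl hy]
      simp only [WeierstrassCurve.Affine.addX, WeierstrassCurve.Affine.negY, E]
      have h6 : v - (-v - 0 * u - 1) = 121 / W := by linear_combination h2v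
      have h6' : v - (-v - 0 * u - 1) = 121 / W := h6
      have h8 : (3 * u ^ 2 + 2 * -1 * u + -10 - 0 * v) / (121 / W) =
          -(a ^ 2 + 8 * a * c - 15 * c ^ 2) / W := by
        have h9 : 3 * U ^ 2 - 2 * U * W - 10 * W ^ 2 = -121 * (a ^ 2 + 8 * a * c - 15 * c ^ 2) := by
          rw [hUd, hWd]; ring
        rw [hu]
        field_simp
        linear_combination h9
      rw [h6, h8, hx, hb, hu]
      have h10 : (3 + 2 * a * c + 2 * c ^ 2) * W ^ 2 + 2 * U * W + 4 * c * (2 * a ^ 2 + c ^ 2) * W +
          (2 * a ^ 2 + c ^ 2) ^ 2 - (a ^ 2 + 8 * a * c - 15 * c ^ 2) ^ 2 = 0 := by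
        have h11 : (3 + 2 * a * c + 2 * c ^ 2) * W ^ 2 + 2 * U * W +
            4 * c * (2 * a ^ 2 + c ^ 2) * W +
            (2 * a ^ 2 + c ^ 2) ^ 2 - (a ^ 2 + 8 * a * c - 15 * c ^ 2) ^ 2 =
            (3 * W + 2 * U) * (W - (a ^ 3 - 2 * a ^ 2 * c + 4 * a * c ^ 2 - 4 * c ^ 3)) := by
          rw [hUd, hWd]; ring
        rw [h11, ← hC]; ring
      field_simp
      linear_combination -h10
    set T := (E K).toAffine.slope u u v v with hT
    have hns := WeierstrassCurve.Affine.nonsingular_add hQ hQ (fun hxy => hy hxy.right)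
    have hYeq := WeierstrassCurve.Affine.Y_eq_of_X_eq hP.1 hns.1 hX.symm
    rcases hYeq with h7 | h7
    · refine ⟨.some u v hQ, ?_⟩
      rw [two_smul, hdbl]
      simp only [WeierstrassCurve.Affine.Point.some.injEq]
      exact ⟨hX.symm, h7⟩
    · refine ⟨-.some u v hQ, ?_⟩
      rw [smul_neg, two_smul, hdbl, WeierstrassCurve.Affine.Point.neg_some]
      simp only [WeierstrassCurve.Affine.Point.some.injEq]
      exact ⟨hX.symm, h7⟩

end X11
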