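import Pool.Agent.MP_9ab903_nt.NC.R1

set_option autoImplicit false

open Polynomial NumberField IsDedekindDomain
open scoped Classical

namespace X11

/-! ## [NC-R6] a divisible group of points is finite (port of MP_ae0bd0_nt/CM/R6.lean) -/

section R6

open WeierstrassCurve.Affine WithZero

variable {F : Type} [Field F]

theorem r6_eqn {x y : F} (h : (E F).toAffine.Nonsingular x y) :
    y ^ 2 + y = x ^ 3 - x ^ 2 - 10 * x - 20 := by
  have h1 := (WeierstrassCurve.Affine.equation_iff (W := (E F).toAffine) x y).1 h.1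
  simp only [E] at h1
  linear_combination h1

theorem r6_negY (x y : F) : (E F).toAffine.negY x y = -y - 1 := by
  simp [WeierstrassCurve.Affine.negY, E]

theorem r6_addX (x₁ x₂ l : F) : (E F).toAffine.addX x₁ x₂ l = l ^ 2 + 1 - x₁ - x₂ := by
  simp [WeierstrassCurve.Affine.addX, E]

theorem r6_slope_ne {x₁ x₂ y₁ y₂ : F} (hx : x₁ ≠ x₂) :
    (E F).toAffine.slope x₁ x₂ y₁ y₂ = (y₁ - y₂) / (x₁ - x₂) :=
  WeierstrassCurve.Affine.slope_of_X_ne hx

theorem r6_slope_self {x y : F} (hy : 2 * y + 1 ≠ 0) :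
    (E F).toAffine.slope x x y y = (3 * x ^ 2 - 2 * x - 10) / (2 * y + 1) := by
  have h1 : y ≠ (E F).toAffine.negY x y := by
    rw [r6_negY]
    intro h
    apply hy
    linear_combination h
  rw [WeierstrassCurve.Affine.slope_of_Y_ne rfl h1, r6_negY]
  have h2 : y - (-y - 1) = 2 * y + 1 := by ring
  rw [h2]
  congr 1
  simp only [E]
  ring

variable (w : Valuation F (WithZero (Multiplicative ℤ)))

/-- The points which reduce to the point at infinity. -/
def r6_In : (E F).toAffine.Point → Prop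
  | .zero => True
  | .some x _ _ => 1 < w x

theorem r6_val_add_of_lt {a b : F} (h : w b < w a) : w (a + b) = w a :=
  Valuation.map_add_eq_of_lt_left w h

theorem r6_val_nat (n : ℕ) : w (n : F) ≤ 1 := by
  induction n with
  | zero => simp
  | succ n ih =>
    push_cast
    exact (w.map_add _ _).trans (max_le ih (by rw [map_one]))

theorem r6_val_ofNat (n : ℕ) [n.AtLeastTwo] : w (OfNat.ofNat n : F) ≤ 1 := by
  rw [← Nat.cast_ofNat]
  exact r6_val_nat w _

theorem r6_y_of_big {x y : F} (h : y ^ 2 + y = x ^ 3 - x ^ 2 - 10 * x - 20) (hx : 1 < w x) :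
    1 < w y ∧ w y ^ 2 = w x ^ 3 := by
  have hx0 : 0 < w x := zero_lt_one.trans hx
  have hf : w (x ^ 3 - x ^ 2 - 10 * x - 20) = w (x ^ 3) := by
    have e : x ^ 3 - x ^ 2 - 10 * x - 20 = x ^ 3 + -(x ^ 2 + (10 * x + 20)) := by ring
    rw [e, r6_val_add_of_lt w]
    rw [Valuation.map_neg, map_pow]
    have h3 : w x ^ 2 < w x ^ 3 := pow_lt_pow_right₀ hx (by norm_num)
    have h4 : w x < w x ^ 3 := by
      calc w x = w x ^ 1 := (pow_one _).symm
        _ < w x ^ 3 := pow_lt_pow_right₀ hx (by norm_num)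
    refine (w.map_add _ _).trans_lt (max_lt (by rw [map_pow]; exact h3)
      ((w.map_add _ _).trans_lt (max_lt ?_ ?_)))
    · rw [map_mul]
      exact (mul_le_of_le_one_left zero_le (r6_val_ofNat w 10)).trans_lt h4
    · exact (r6_val_ofNat w 20).trans_lt (hx.trans h4)
  have h1 : 1 < w (x ^ 3 - x ^ 2 - 10 * x - 20) := by
    rw [hf, map_pow]
    exact one_lt_pow₀ hx (by norm_num)
  have h2 : 1 < w y := by
    by_contra hy
    push Not at hy
    rw [← h] at h1
    have h3 : w (y ^ 2 + y) ≤ 1 := by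
      refine (w.map_add _ _).trans (max_le ?_ hy)
      rw [map_pow]
      exact pow_le_one₀ zero_le hy
    exact absurd h1 (not_lt.2 h3)
  refine ⟨h2, ?_⟩
  have h3 : w (y ^ 2 + y) = w y ^ 2 := by
    rw [r6_val_add_of_lt w, map_pow]
    rw [map_pow, pow_two]
    exact lt_mul_of_one_lt_left (zero_lt_one.trans h2) h2
  rw [← h3, h, hf, map_pow]

theorem r6_y_of_small {x y : F} (h : y ^ 2 + y = x ^ 3 - x ^ 2 - 10 * x - 20) (hx : w x ≤ 1) :
    w y ≤ 1 := by
  by_contra hy
  push Not at hy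
  have h3 : w (y ^ 2 + y) = w y ^ 2 := by
    rw [r6_val_add_of_lt w, map_pow]
    rw [map_pow, pow_two]
    exact lt_mul_of_one_lt_left (zero_lt_one.trans hy) hy
  have h4 : w (x ^ 3 - x ^ 2 - 10 * x - 20) ≤ 1 := by
    refine (w.map_sub _ _).trans (max_le ((w.map_sub _ _).trans (max_le
      ((w.map_sub _ _).trans (max_le ?_ ?_)) ?_)) (r6_val_ofNat w 20))
    · rw [map_pow]; exact pow_le_one₀ zero_le hx
    · rw [map_pow]; exact pow_le_one₀ zero_le hx
    · rw [map_mul]; exact mul_le_one' (r6_val_ofNat w 10) hx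
  rw [← h, h3] at h4
  exact absurd (one_lt_pow₀ hy (by norm_num : (2 : ℕ) ≠ 0)) (not_lt.2 h4)

theorem r6_exp_of_big {x : F} (hx : 1 < w x) : ∃ n : ℕ, 1 ≤ n ∧ w x = exp (n : ℤ) := by
  have h0 : w x ≠ 0 := (zero_lt_one.trans hx).ne'
  have h1 : w x = exp (log (w x)) := (exp_log h0).symm
  have h2 : 0 < log (w x) := by
    rw [h1, ← exp_zero, exp_lt_exp] at hx
    exact hx
  refine ⟨(log (w x)).toNat, by omega, ?_⟩
  rw [Int.toNat_of_nonneg h2.le]
  exact h1

/-- doubling -/
theorem r6_double (h2 : w 2 = exp (-1)) {x y : F} (h : (E F).toAffine.Nonsingular x y)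
    (hx : 1 < w x) : ∃ (x' y' : F) (h' : (E F).toAffine.Nonsingular x' y'),
      2 • (WeierstrassCurve.Affine.Point.some x y h : (E F).toAffine.Point) =
        WeierstrassCurve.Affine.Point.some x' y' h' ∧ w x' = w x * exp 2 := by
  have he := r6_eqn h
  obtain ⟨n, hn, hwx⟩ := r6_exp_of_big w hx
  have hw4 : w (4 * x ^ 3) = exp (3 * n - 2 : ℤ) := by
    have : (4 : F) = 2 ^ 2 := by norm_num
    rw [this, map_mul, map_pow, map_pow, h2, hwx, ← exp_nsmul, ← exp_nsmul, ← exp_add]
    congr 1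
  have hlt : w (-(4 * x ^ 2 + (40 * x + 79))) < w (4 * x ^ 3) := by
    have e40 : (40 : F) = 2 ^ 3 * 5 := by norm_num
    rw [Valuation.map_neg, hw4]
    refine (w.map_add _ _).trans_lt (max_lt ?_ ((w.map_add _ _).trans_lt (max_lt ?_ ?_)))
    · have : (4 : F) = 2 ^ 2 := by norm_num
      rw [this, map_mul, map_pow, map_pow, h2, hwx, ← exp_nsmul, ← exp_nsmul, ← exp_add, exp_lt_exp]
      simp only [nsmul_eq_mul]
      push_cast
      omega
    · rw [e40, map_mul, map_mul, map_pow, h2, hwx, ← exp_nsmul]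
      refine lt_of_le_of_lt (mul_le_mul_left (mul_le_of_le_one_right zero_le (r6_val_ofNat w 5)) _) ?_
      rw [← exp_add, exp_lt_exp]
      simp only [nsmul_eq_mul]
      push_cast
      omega
    · refine (r6_val_ofNat w 79).trans_lt ?_
      rw [← exp_zero, exp_lt_exp]
      omega
  have hw : w (4 * x ^ 3 - 4 * x ^ 2 - 40 * x - 79) = exp (3 * n - 2 : ℤ) := by
    have e : 4 * x ^ 3 - 4 * x ^ 2 - 40 * x - 79 = 4 * x ^ 3 + -(4 * x ^ 2 + (40 * x + 79)) := by
      ring
    rw [e, r6_val_add_of_lt w hlt, hw4]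
  have hsq : (2 * y + 1) ^ 2 = 4 * x ^ 3 - 4 * x ^ 2 - 40 * x - 79 := by
    linear_combination 4 * he
  have hne : 4 * x ^ 3 - 4 * x ^ 2 - 40 * x - 79 ≠ 0 := by
    intro h0
    rw [h0, map_zero] at hw
    exact exp_ne_zero hw.symm
  have hy : 2 * y + 1 ≠ 0 := by
    intro h0
    rw [h0] at hsq
    exact hne (by rw [← hsq]; ring)
  have h1 : y ≠ (E F).toAffine.negY x y := by
    rw [r6_negY]
    intro h
    apply hy
    linear_combination h
  refine ⟨_, _, _, by rw [two_nsmul, WeierstrassCurve.Affine.Point.add_self_of_Y_ne h1], ?_⟩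
  rw [r6_addX, r6_slope_self hy]
  have h3 : ((3 * x ^ 2 - 2 * x - 10) / (2 * y + 1)) ^ 2 + 1 - x - x =
      (x ^ 4 + (20 * x ^ 2 + (158 * x + 21))) / (4 * x ^ 3 - 4 * x ^ 2 - 40 * x - 79) := by
    rw [div_pow, hsq, eq_div_iff hne, sub_mul, sub_mul, add_mul, div_mul_cancel₀ _ hne]
    ring
  rw [h3, map_div₀, hw]
  have h5 : w (20 * x ^ 2 + (158 * x + 21)) < w (x ^ 4) := by
    have g1 : w x ^ 2 < w (x ^ 4) := by
      rw [map_pow]; exact pow_lt_pow_right₀ hx (by norm_num)
    have g2 : w x < w (x ^ 4) := by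
      rw [map_pow]
      calc w x = w x ^ 1 := (pow_one _).symm
        _ < w x ^ 4 := pow_lt_pow_right₀ hx (by norm_num)
    refine (w.map_add _ _).trans_lt (max_lt ?_ ((w.map_add _ _).trans_lt (max_lt ?_ ?_)))
    · rw [map_mul, map_pow]
      exact (mul_le_of_le_one_left zero_le (r6_val_ofNat w 20)).trans_lt g1
    · rw [map_mul]
      exact (mul_le_of_le_one_left zero_le (r6_val_ofNat w 158)).trans_lt g2
    · exact (r6_val_ofNat w 21).trans_lt (hx.trans g2)
  rw [r6_val_add_of_lt w h5, map_pow, hwx, ← exp_nsmul, ← exp_sub, ← exp_add]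
  congr 1
  simp only [nsmul_eq_mul]
  push_cast
  ring

/-- integral + (nonzero element of the kernel of reduction) is integral -/
theorem r6_add_big {x₁ y₁ x y : F} (h₁ : (E F).toAffine.Nonsingular x₁ y₁)
    (h : (E F).toAffine.Nonsingular x y) (hx₁ : w x₁ ≤ 1) (hx : 1 < w x) :
    ¬ r6_In w ((WeierstrassCurve.Affine.Point.some x₁ y₁ h₁ : (E F).toAffine.Point) +
      WeierstrassCurve.Affine.Point.some x y h) := by
  have he₁ := r6_eqn h₁
  have he := r6_eqn h
  have hne : x₁ ≠ x := by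
    rintro rfl
    exact absurd hx (not_lt.2 hx₁)
  rw [WeierstrassCurve.Affine.Point.add_of_X_ne hne]
  change ¬ 1 < w _
  rw [not_lt, r6_addX, r6_slope_ne hne]
  have hne' : x₁ - x ≠ 0 := sub_ne_zero.2 hne
  have h3 : ((y₁ - y) / (x₁ - x)) ^ 2 + 1 - x₁ - x =
      (-(y * (1 + 2 * y₁)) + (-y₁ + (x₁ * x ^ 2 + (x₁ ^ 2 * x +
        -(10 * x₁ + (10 * x + (40 + 2 * x₁ * x))))))) / (x₁ - x) ^ 2 := by
    rw [div_pow]
    field_simp
    linear_combination he + he₁
  obtain ⟨hy1, hy2⟩ := r6_y_of_big w he hx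
  have hy₁ := r6_y_of_small w he₁ hx₁
  have hw0 : w (x₁ - x) = w x := by
    rw [Valuation.map_sub_swap, sub_eq_add_neg, r6_val_add_of_lt w]
    rw [Valuation.map_neg]
    exact hx₁.trans_lt hx
  have hpos : 0 < w x ^ 2 := pow_pos (zero_lt_one.trans hx) 2
  have hyx : w y ≤ w x ^ 2 := by
    by_contra hc
    push Not at hc
    have h5 : w x ^ 3 < w y ^ 2 := by
      calc w x ^ 3 ≤ w x ^ 4 := pow_le_pow_right₀ hx.le (by norm_num)
        _ = (w x ^ 2) ^ 2 := by rw [← pow_mul]
        _ < w y ^ 2 := pow_lt_pow_left₀ hc zero_le (by norm_num)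
    exact absurd hy2 h5.ne'
  have h1x : 1 ≤ w x ^ 2 := one_le_pow₀ hx.le
  have h2le : w (2 : F) ≤ 1 := by
    have : (2 : F) = 1 + 1 := by norm_num
    rw [this]
    refine (w.map_add _ _).trans ?_
    simp
  rw [h3, map_div₀, map_pow, hw0]
  refine div_le_one_of_le₀ ?_ zero_le
  have hxx2 : w x ≤ w x ^ 2 := by
    rw [pow_two]
    exact (lt_mul_of_one_lt_left (zero_lt_one.trans hx) hx).le
  refine (w.map_add _ _).trans (max_le ?_ ((w.map_add _ _).trans (max_le ?_
    ((w.map_add _ _).trans (max_le ?_ ((w.map_add _ _).trans (max_le ?_ ?_)))))))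
  · rw [Valuation.map_neg, map_mul]
    calc w y * w (1 + 2 * y₁) ≤ w y * 1 := by
          refine mul_le_mul_right (?_ : w (1 + 2 * y₁) ≤ 1) (w y)
          refine (w.map_add _ _).trans (max_le (by rw [map_one]) ?_)
          rw [map_mul]
          exact mul_le_one' h2le hy₁
      _ ≤ w x ^ 2 := by rw [mul_one]; exact hyx
  · rw [Valuation.map_neg]
    exact hy₁.trans h1x
  · rw [map_mul, map_pow]
    calc w x₁ * w x ^ 2 ≤ 1 * w x ^ 2 := mul_le_mul_left hx₁ (w x ^ 2)
      _ = w x ^ 2 := one_mul _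
  · rw [map_mul, map_pow]
    calc w x₁ ^ 2 * w x ≤ 1 * w x := mul_le_mul_left (pow_le_one₀ zero_le hx₁) (w x)
      _ = w x := one_mul _
      _ ≤ w x ^ 2 := hxx2
  · rw [Valuation.map_neg]
    refine (w.map_add _ _).trans (max_le ?_ ((w.map_add _ _).trans (max_le ?_
      ((w.map_add _ _).trans (max_le ?_ ?_)))))
    · rw [map_mul]
      exact (mul_le_one' (r6_val_ofNat w 10) hx₁).trans h1x
    · rw [map_mul]
      exact (mul_le_of_le_one_left zero_le (r6_val_ofNat w 10)).trans hxx2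
    · exact (r6_val_ofNat w 40).trans h1x
    · rw [map_mul, map_mul]
      exact (mul_le_of_le_one_left zero_le (mul_le_one' h2le hx₁)).trans hxx2

/-- The difference of two integral points with the same reduction. -/
theorem r6_sub_same (h2 : w 2 < 1) {x₁ y₁ x₂ y₂ : F} (h₁ : (E F).toAffine.Nonsingular x₁ y₁)
    (h₂ : (E F).toAffine.Nonsingular x₂ y₂) (hy : w y₁ ≤ 1)
    (hxx : w (x₁ - x₂) < 1) (hyy : w (y₁ - y₂) < 1) (hx₁ : w x₁ ≤ 1) :
    r6_In w ((WeierstrassCurve.Affine.Point.some x₁ y₁ h₁ : (E F).toAffine.Point) -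
      WeierstrassCurve.Affine.Point.some x₂ y₂ h₂) := by
  have he₁ := r6_eqn h₁
  have he₂ := r6_eqn h₂
  have h3 : w (y₁ + y₂ + 1) = 1 := by
    have : y₁ + y₂ + 1 = 1 + (2 * y₁ - (y₁ - y₂)) := by ring
    rw [this, r6_val_add_of_lt w, map_one]
    rw [map_one]
    refine (w.map_sub _ _).trans_lt (max_lt ?_ hyy)
    rw [map_mul]
    exact mul_lt_one_of_lt_of_le h2 hy
  rw [sub_eq_add_neg, WeierstrassCurve.Affine.Point.neg_some]
  by_cases hx : x₁ = x₂
  · subst hx
    have h4 : (y₁ - y₂) * (y₁ + y₂ + 1) = 0 := by linear_combination he₁ - he₂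
    rcases mul_eq_zero.1 h4 with h5 | h5
    · have h6 : y₁ = y₂ := sub_eq_zero.1 h5
      subst h6
      rw [WeierstrassCurve.Affine.Point.add_of_Y_eq rfl
        (WeierstrassCurve.Affine.negY_negY x₁ y₁).symm]
      trivial
    · rw [h5, map_zero] at h3
      exact absurd h3 zero_ne_one
  · rw [WeierstrassCurve.Affine.Point.add_of_X_ne hx]
    change 1 < w _
    rw [r6_addX, r6_slope_ne hx, r6_negY]
    have h5 : x₁ - x₂ ≠ 0 := sub_ne_zero.2 hx
    have h6 : 1 < w ((y₁ - (-y₂ - 1)) / (x₁ - x₂)) := by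
      have : y₁ - (-y₂ - 1) = y₁ + y₂ + 1 := by ring
      rw [this, map_div₀, h3, one_div]
      exact (one_lt_inv₀ (zero_lt_iff.2 ((Valuation.ne_zero_iff w).2 h5))).2 hxx
    have h7 : ((y₁ - (-y₂ - 1)) / (x₁ - x₂)) ^ 2 + 1 - x₁ - x₂ =
        ((y₁ - (-y₂ - 1)) / (x₁ - x₂)) ^ 2 + ((x₁ - x₂) - (2 * x₁ - 1)) := by ring
    rw [h7]
    have h8 : 1 < w (((y₁ - (-y₂ - 1)) / (x₁ - x₂)) ^ 2) := by
      rw [map_pow]
      exact one_lt_pow₀ h6 (by norm_num)
    rw [r6_val_add_of_lt w]
    · exact h8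
    · refine lt_of_le_of_lt ?_ h8
      refine (w.map_sub _ _).trans (max_le hxx.le ((w.map_sub _ _).trans (max_le ?_ ?_)))
      · rw [map_mul]
        exact (mul_lt_one_of_lt_of_le h2 hx₁).le
      · rw [map_one]

/-- The kernel of reduction. -/
def r6_ker : AddSubgroup (E F).toAffine.Point where
  carrier := {P | r6_In w P}
  zero_mem' := trivial
  neg_mem' := by
    rintro (_ | ⟨x, y, h⟩) hP
    · trivial
    · exact hP
  add_mem' := by
    intro P Q hP hQ
    by_contra hR
    have hneg : ∀ P : (E F).toAffine.Point, r6_In w P → r6_In w (-P) := by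
      rintro (_ | ⟨x, y, h⟩) hP
      · trivial
      · exact hP
    have hP0 : P ≠ 0 := by
      rintro rfl
      rw [zero_add] at hR
      exact hR hQ
    have key : ∀ R S : (E F).toAffine.Point, ¬ r6_In w R → r6_In w S → S ≠ 0 →
        ¬ r6_In w (R + S) := by
      rintro (_ | ⟨x₁, y₁, h₁⟩) (_ | ⟨x, y, h⟩) hR hS hS0
      · exact absurd trivial hR
      · exact absurd trivial hR
      · exact absurd rfl hS0
      · exact r6_add_big w h₁ h (not_lt.1 hR) hS
    refine key (P + Q) (-P) hR (hneg P hP) (neg_ne_zero.2 hP0) ?_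
    have : P + Q + -P = Q := by abel
    rw [this]
    exact hQ

end R6

theorem finite_of_divisible {F : Type} [Field F] [NumberField F] (v : HeightOneSpectrum (𝓞 F))
    (h2 : (2 : 𝓞 F) ∈ v.asIdeal) (h4 : (2 : 𝓞 F) ∉ v.asIdeal ^ 2)
    (h : ∀ P : (E F).toAffine.Point, ∃ Q, P = 2 • Q) : Finite (E F).toAffine.Point := by
  set w : Valuation F (WithZero (Multiplicative ℤ)) := v.valuation F with hw
  have hmap2 : algebraMap (𝓞 F) F 2 = 2 := map_ofNat _ 2
  -- the valuation of 2
  have hw2lt : w 2 < 1 := by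
    rw [← hmap2, hw, v.valuation_lt_one_iff_mem]
    exact h2
  have hw2 : w 2 = WithZero.exp (-1) := by
    have h5 : ¬ w 2 ≤ WithZero.exp (-((2 : ℕ) : ℤ)) := by
      rw [← hmap2, hw, v.valuation_of_algebraMap, v.intValuation_le_pow_iff_mem]
      exact h4
    have h0 : w 2 ≠ 0 := by
      intro h0
      rw [h0] at h5
      exact h5 zero_le
    have h6 : w 2 = WithZero.exp (WithZero.log (w 2)) := (WithZero.exp_log h0).symm
    rw [h6] at hw2lt h5 ⊢
    rw [← WithZero.exp_zero, WithZero.exp_lt_exp] at hw2lt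
    rw [WithZero.exp_le_exp] at h5
    congr 1
    push Not at h5
    push_cast at h5
    omega
  -- finitely many residue classes
  have hfin : Finite (𝓞 F ⧸ v.asIdeal) := inferInstance
  have happ : ∀ x : F, ∃ a : 𝓞 F, w x ≤ 1 → w (algebraMap (𝓞 F) F a - x) < 1 := by
    intro x
    by_cases hx : w x ≤ 1
    · obtain ⟨a, ha⟩ := v.exists_valuation_sub_lt_of_integer hx 1
      exact ⟨a, fun _ => ha⟩
    · exact ⟨0, fun h => absurd h hx⟩
  choose app happ using happ
  have hρ : ∀ a b : F, w a ≤ 1 → w b ≤ 1 →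
      Ideal.Quotient.mk v.asIdeal (app a) = Ideal.Quotient.mk v.asIdeal (app b) →
        w (a - b) < 1 := by
    intro a b ha hb hab
    have h5 : w (algebraMap (𝓞 F) F (app a - app b)) < 1 := by
      rw [hw, v.valuation_lt_one_iff_mem]
      exact Ideal.Quotient.eq.1 hab
    have h6 : a - b = algebraMap (𝓞 F) F (app a - app b) -
        ((algebraMap (𝓞 F) F (app a) - a) - (algebraMap (𝓞 F) F (app b) - b)) := by
      rw [map_sub]
      ring
    rw [h6]
    exact (w.map_sub _ _).trans_lt (max_lt h5 ((w.map_sub _ _).trans_lt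
      (max_lt (happ a ha) (happ b hb))))
  let κ := 𝓞 F ⧸ v.asIdeal
  let f : (E F).toAffine.Point → Option (κ × κ) := fun P =>
    match P with
    | .zero => none
    | .some x y _ => if w x ≤ 1 then Option.some (Ideal.Quotient.mk v.asIdeal (app x),
        Ideal.Quotient.mk v.asIdeal (app y)) else none
  have hf : ∀ P Q : (E F).toAffine.Point, f P = f Q → r6_In w (P - Q) := by
    intro P Q hPQ
    have hnone : ∀ P : (E F).toAffine.Point, f P = none → P ∈ r6_ker w := by
      rintro (_ | ⟨x, y, h⟩) hP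
      · trivial
      · by_contra hc
        have hx : w x ≤ 1 := not_lt.1 hc
        have : f (.some x y h) = Option.some (Ideal.Quotient.mk v.asIdeal (app x),
          Ideal.Quotient.mk v.asIdeal (app y)) := if_pos hx
        rw [this] at hP
        cases hP
    by_cases h1 : f P = none
    · exact (r6_ker w).sub_mem (hnone P h1) (hnone Q (hPQ.symm.trans h1))
    · have h2' : f Q ≠ none := fun h => h1 (hPQ.trans h)
      rcases P with _ | ⟨x₁, y₁, k₁⟩
      · exact absurd rfl h1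
      rcases Q with _ | ⟨x₂, y₂, k₂⟩
      · exact absurd rfl h2'
      have hx₁ : w x₁ ≤ 1 := by
        by_contra hc
        exact h1 (if_neg hc)
      have hx₂ : w x₂ ≤ 1 := by
        by_contra hc
        exact h2' (if_neg hc)
      have e1 : f (.some x₁ y₁ k₁) = Option.some (Ideal.Quotient.mk v.asIdeal (app x₁),
        Ideal.Quotient.mk v.asIdeal (app y₁)) := if_pos hx₁
      have e2 : f (.some x₂ y₂ k₂) = Option.some (Ideal.Quotient.mk v.asIdeal (app x₂),
        Ideal.Quotient.mk v.asIdeal (app y₂)) := if_pos hx₂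
      rw [e1, e2, Option.some.injEq, Prod.mk.injEq] at hPQ
      have hy₁ := r6_y_of_small w (r6_eqn k₁) hx₁
      have hy₂ := r6_y_of_small w (r6_eqn k₂) hx₂
      exact r6_sub_same w hw2lt k₁ k₂ hy₁ (hρ _ _ hx₁ hx₂ hPQ.1) (hρ _ _ hy₁ hy₂ hPQ.2) hx₁
  -- the quotient by the kernel of reduction is finite
  have hQ : Finite ((E F).toAffine.Point ⧸ r6_ker w) := by
    refine Finite.of_injective (fun q => f q.out) fun q₁ q₂ hq => ?_
    have h5 := hf _ _ hq
    rw [← QuotientAddGroup.out_eq' q₁, ← QuotientAddGroup.out_eq' q₂]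
    refine (QuotientAddGroup.eq.2 ?_).symm
    have h6 : -Quotient.out q₂ + Quotient.out q₁ = Quotient.out q₁ - Quotient.out q₂ := by abel
    rw [h6]
    exact h5
  -- halves of elements of the kernel are in the kernel
  have hhalf : ∀ Q : (E F).toAffine.Point, 2 • Q ∈ r6_ker w → Q ∈ r6_ker w := by
    have hsurj : Function.Surjective (fun q : (E F).toAffine.Point ⧸ r6_ker w => 2 • q) := by
      intro q
      obtain ⟨P, rfl⟩ := QuotientAddGroup.mk_surjective q
      obtain ⟨Q, hQ⟩ := h P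
      exact ⟨(Q : (E F).toAffine.Point ⧸ r6_ker w), by rw [hQ]; rfl⟩
    have hinj := Finite.injective_iff_surjective.2 hsurj
    intro Q hQ
    have h5 : (fun q : (E F).toAffine.Point ⧸ r6_ker w => 2 • q)
        (Q : (E F).toAffine.Point ⧸ r6_ker w) = (fun q => 2 • q) 0 := by
      change ((2 • Q : (E F).toAffine.Point) : (E F).toAffine.Point ⧸ r6_ker w) = 2 • 0
      rw [smul_zero]
      exact (QuotientAddGroup.eq_zero_iff _).2 hQ
    exact (QuotientAddGroup.eq_zero_iff _).1 (hinj h5)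
  -- the kernel is trivial
  have hker : ∀ n : ℕ, ∀ (x y : F) (k : (E F).toAffine.Nonsingular x y), 1 < w x →
      w x = WithZero.exp (n : ℤ) → False := by
    intro n
    induction n using Nat.strong_induction_on with
    | _ n ih =>
      intro x y k hx hn
      obtain ⟨Q, hQ⟩ := h (.some x y k)
      have hQ1 : Q ∈ r6_ker w := hhalf Q (by rw [← hQ]; exact hx)
      rcases Q with _ | ⟨x', y', k'⟩
      · change _ = 2 • (0 : (E F).toAffine.Point) at hQ
        rw [smul_zero] at hQ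
        exact WeierstrassCurve.Affine.Point.some_ne_zero k hQ
      · have hx' : 1 < w x' := hQ1
        obtain ⟨x'', y'', k'', h5, h6⟩ := r6_double w hw2 k' hx'
        obtain ⟨n', hn', hwx'⟩ := r6_exp_of_big w hx'
        rw [h5] at hQ
        have h7 : x = x'' := by
          injection hQ
        rw [← h7, hn, hwx', ← WithZero.exp_add, WithZero.exp_inj] at h6
        exact ih n' (by omega) x' y' k' hx' hwx'
  refine Finite.of_injective f fun P Q hPQ => ?_
  have h5 := hf P Q hPQ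
  rcases hPQ' : P - Q with _ | ⟨x, y, k⟩
  · exact sub_eq_zero.1 hPQ'
  · rw [hPQ'] at h5
    obtain ⟨n, -, hn⟩ := r6_exp_of_big w (x := x) h5
    exact (hker n x y k h5 hn).elim

end X11
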