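import Pool.Agent.MP_9ab903_nt.NC.RDefs

set_option autoImplicit false

open Polynomial NumberField IsDedekindDomain
open scoped Classical

namespace X11

/-! ## [SBS-W] the points of the base change of `E` (file W.lean) -/

/-- Transport of points along an equality of curves. -/
noncomputable def trEq {L : Type} [Field L] {W W' : WeierstrassCurve L} (h : W = W') :
    W.toAffine.Point ≃+ W'.toAffine.Point := by
  subst h
  exact AddEquiv.refl _

theorem trEq_some {L : Type} [Field L] {W W' : WeierstrassCurve L} (h : W = W') (x y : L)
    (hxy : W.toAffine.Nonsingular x y) :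
    trEq h (.some x y hxy) = .some x y (by subst h; exact hxy) := by
  subst h
  rfl

/-- The points of the base change of `E F` are the points of `E L`. -/
noncomputable def tr (F L : Type) [Field F] [Field L] [Algebra F L] :
    ((E F).baseChange L).toAffine.Point ≃+ (E L).toAffine.Point :=
  trEq (E_map (algebraMap F L))

theorem tr_some (F L : Type) [Field F] [Field L] [Algebra F L] (x y : L)
    (h : ((E F).baseChange L).toAffine.Nonsingular x y) :
    ∃ h', tr F L (.some x y h) = .some x y h' :=
  ⟨_, trEq_some _ x y h⟩

theorem tr_map (F L L' : Type) [Field F] [Field L] [Algebra F L] [Field L'] [Algebra F L']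
    (f : L →ₐ[F] L') (P : ((E F).baseChange L).toAffine.Point) :
    tr F L' (WeierstrassCurve.Affine.Point.map (W' := E F) f P) =
      ptMap (f : L →+* L') (tr F L P) := by
  rcases P with _ | ⟨x, y, h⟩
  · have h1 : (WeierstrassCurve.Affine.Point.zero : ((E F).baseChange L).toAffine.Point) = 0 := rfl
    rw [h1, map_zero, map_zero, map_zero]
    rfl
  · obtain ⟨h', h2⟩ := tr_some F L x y h
    rw [h2, WeierstrassCurve.Affine.Point.map_some]
    obtain ⟨h'', h3⟩ := tr_some F L' (f x) (f y)
      ((WeierstrassCurve.Affine.baseChange_nonsingular (E F).toAffine f.injective ..).mpr h)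
    rw [h3]
    rfl

end X11
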