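import Pool.Agent.MP_9ab903_nt.NC.SEL
import Pool.Agent.MP_9ab903_nt.NC.L
import Pool.Agent.MP_9ab903_nt.NC.T
import Pool.Agent.MP_9ab903_nt.NC.W
import Pool.Agent.MP_9ab903_nt.NC.R1b
import Pool.Agent.MP_9ab903_nt.NC.R6
import Pool.Agent.MP_9ab903_nt.SB.FIN
import Pool.Agent.MP_9ab903_nt.Defs

set_option autoImplicit false

open Polynomial NumberField IsDedekindDomain
open scoped Classical

namespace X11

/-! ## [SBS-FIN] the Tate–Shafarevich group has no element of order `2` (file FIN.lean) -/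

/-- The additive homomorphism on points. -/
noncomputable def ptHom {K L : Type} [Field K] [Field L] (f : K →+* L) :
    (E K).toAffine.Point →+ (E L).toAffine.Point :=
  AddMonoidHom.mk' (ptMap f) (ptMap_add f)

theorem ptHom_apply {K L : Type} [Field K] [Field L] (f : K →+* L) (P : (E K).toAffine.Point) :
    ptHom f P = ptMap f P := rfl

theorem ptHom_comp {K L M : Type} [Field K] [Field L] [Field M] (f : K →+* L) (g : L →+* M)
    (P : (E K).toAffine.Point) : ptHom g (ptHom f P) = ptHom (g.comp f) P := ptMap_comp f g P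

theorem fin_loc_pt {F L : Type} [Field F] [Field L] [Algebra F L] [Algebra.IsAlgebraic F L]
    (P : (E L).toAffine.Point) :
    IsLocallyConstant fun σ : L ≃ₐ[F] L => ptHom (σ : L →+* L) P := by
  rcases P with _ | ⟨x, y, h⟩
  · exact IsLocallyConstant.const _
  · rw [IsLocallyConstant.iff_exists_open]
    intro σ
    obtain ⟨U, hU, hσU, hU'⟩ := (IsLocallyConstant.iff_exists_open _).1
      (CM27.fin_loc_apply (F := F) x) σ
    obtain ⟨V, hV, hσV, hV'⟩ := (IsLocallyConstant.iff_exists_open _).1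
      (CM27.fin_loc_apply (F := F) y) σ
    refine ⟨U ∩ V, hU.inter hV, ⟨hσU, hσV⟩, fun τ hτ => ?_⟩
    have h1 : τ x = σ x := hU' τ hτ.1
    have h2 : τ y = σ y := hV' τ hτ.2
    rw [ptHom_apply, ptHom_apply]
    simp only [ptMap]
    congr 1

/-- If the Selmer group (in the form of elements of `F[π]/(π³ - 2)`) is trivial, then a cocycle which
is trivial at all finite places and whose double is principal is principal. -/
theorem sha_two_of_selmer (F : Type) [Field F] [NumberField F]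
    (hsel : ∀ z : R F, z ≠ 0 → (∃ n : F, Algebra.norm F z = n ^ 2) →
      (∀ v : HeightOneSpectrum (𝓞 F), LocCond z (v.adicCompletion F)) → ∃ t : R F, z = t ^ 2)
    (c : SBSD.AbsGal F → SBSD.Pts (E F) (AlgebraicClosure F)) (hc : c ∈ SBSD.cocycles (E F))
    (hloc0 : ∀ v : HeightOneSpectrum (𝓞 F), SBSD.TrivialOver (E F) (v.adicCompletion F) c)
    (h2 : ∃ P : SBSD.Pts (E F) (AlgebraicClosure F), ∀ σ : SBSD.AbsGal F,
      2 • c σ = WeierstrassCurve.Affine.Point.map (W' := E F) σ.toAlgHom P - P) :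
    c ∈ SBSD.coboundaries (E F) := by
  obtain ⟨hc1, hc2⟩ := hc
  obtain ⟨Q, hQ⟩ := h2
  let L := AlgebraicClosure F
  let e := tr F L
  have hgact : ∀ (σ : L ≃ₐ[F] L) (P : SBSD.Pts (E F) (AlgebraicClosure F)),
      e (WeierstrassCurve.Affine.Point.map (W' := E F) σ.toAlgHom P) =
        ptHom (σ : L →+* L) (e P) := fun σ P => tr_map F L L σ.toAlgHom P
  obtain ⟨P, hP⟩ := two_divisible (K := L) (e Q)
  let c' : (L ≃ₐ[F] L) → (E L).toAffine.Point := fun σ =>
    e (c σ) - (ptHom (σ : L →+* L) P - P)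
  have hcomp : ∀ σ τ : L ≃ₐ[F] L, (((σ * τ : L ≃ₐ[F] L)) : L →+* L) =
      (σ : L →+* L).comp (τ : L →+* L) := fun σ τ => rfl
  have hcoc : Coc F L c' := by
    refine ⟨?_, fun σ τ => ?_⟩
    · have h4 : IsLocallyConstant fun σ : L ≃ₐ[F] L => e (c σ) := hc1.comp e
      exact h4.sub ((fin_loc_pt (F := F) P).sub (IsLocallyConstant.const P))
    · have h4 := hc2 σ τ
      change e (c (σ * τ)) - (ptHom ((σ * τ : L ≃ₐ[F] L) : L →+* L) P - P) =
        (e (c σ) - (ptHom (σ : L →+* L) P - P)) +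
          ptHom (σ : L →+* L) (e (c τ) - (ptHom (τ : L →+* L) P - P))
      rw [h4, map_add, hgact, hcomp, ← ptHom_comp, map_sub, map_sub]
      abel
  have h2c : ∀ σ, 2 • c' σ = 0 := by
    intro σ
    have h5 : 2 • e (c σ) = ptHom (σ : L →+* L) (e Q) - e Q := by
      rw [← map_nsmul, hQ σ, map_sub, hgact]
    change 2 • (e (c σ) - (ptHom (σ : L →+* L) P - P)) = 0
    rw [nsmul_sub, h5, hP, map_nsmul, nsmul_sub, sub_self]
  obtain ⟨S, hS, hSσ⟩ := hilbert90 F L c' hcoc h2c
  obtain ⟨z, hz0, hzN, hzS⟩ := exists_class F L c' h2c S hS hSσ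
  have hloc : ∀ v : HeightOneSpectrum (𝓞 F), LocCond z (v.adicCompletion F) := by
    intro v
    let Fv := v.adicCompletion F
    let Lv := AlgebraicClosure Fv
    let ι : L →ₐ[F] Lv := IsAlgClosed.lift
    obtain ⟨Q', hQ'⟩ := hloc0 v ι
    refine locCond F L c' h2c S hS hSσ z hzS Fv Lv ι (tr F Lv Q' - ptHom (ι : L →+* Lv) P) ?_
    intro τ σ hστ
    have h6 := congrArg (tr F Lv) (hQ' τ σ hστ)
    rw [tr_map, map_sub, tr_map] at h6
    have h7 : (ι : L →+* Lv).comp (σ : L →+* L) = (τ : Lv →+* Lv).comp (ι : L →+* Lv) := by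
      ext x
      exact hστ x
    change ptHom (ι : L →+* Lv) (e (c σ) - (ptHom (σ : L →+* L) P - P)) =
      ptHom (τ : Lv →+* Lv) (tr F Lv Q' - ptHom (ι : L →+* Lv) P) -
        (tr F Lv Q' - ptHom (ι : L →+* Lv) P)
    rw [map_sub, map_sub, map_sub, ptHom_comp, ptHom_comp, h7]
    have h8 : ptHom (ι : L →+* Lv) (e (c σ)) = ptHom (τ : Lv →+* Lv) (tr F Lv Q') - tr F Lv Q' := h6
    rw [h8]
    abel
  obtain ⟨t, ht⟩ := hsel z hz0 hzN hloc
  obtain ⟨T, hT⟩ := trivial_of_square F L c' h2c S hS hSσ t (by rw [← map_pow, ← ht, hzS])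
  refine ⟨e.symm (P + T), fun σ => e.injective ?_⟩
  rw [map_sub, hgact, e.apply_symm_apply, map_add]
  have h9 : e (c σ) - (ptHom (σ : L →+* L) P - P) = ptHom (σ : L →+* L) T - T := hT σ
  have h10 : e (c σ) = (ptHom (σ : L →+* L) T - T) + (ptHom (σ : L →+* L) P - P) := by
    rw [← h9]
    abel
  rw [h10]
  abel

/-- A cocycle which is trivial at all finite places and whose double is principal is principal. -/
theorem sha_two (m : ℕ) [NeZero m] (hm : GoodLevel m) (M : Type) [Field M] [NumberField M]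
    [IsCyclotomicExtension {m} ℚ M] (F : IntermediateField ℚ M) (n : ℕ)
    (hF : Module.finrank ℚ F = 2 ^ n)
    (c : SBSD.AbsGal F → SBSD.Pts (E F) (AlgebraicClosure F)) (hc : c ∈ SBSD.cocycles (E F))
    (hloc : ∀ v : HeightOneSpectrum (𝓞 F), SBSD.TrivialOver (E F) (v.adicCompletion F) c)
    (h2 : ∃ P : SBSD.Pts (E F) (AlgebraicClosure F), ∀ σ : SBSD.AbsGal F,
      2 • c σ = WeierstrassCurve.Affine.Point.map (W' := E F) σ.toAlgHom P - P) :
    c ∈ SBSD.coboundaries (E F) :=
  sha_two_of_selmer F (fun z hz hN hloc => selmer_trivial m hm M F n hF z hz hN hloc) c hc hloc h2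

/-- The Tate–Shafarevich group has no element of `2`-power order. -/
theorem sha_two_pow (m : ℕ) [NeZero m] (hm : GoodLevel m) (M : Type) [Field M] [NumberField M]
    [IsCyclotomicExtension {m} ℚ M] (F : IntermediateField ℚ M) (n : ℕ)
    (hF : Module.finrank ℚ F = 2 ^ n) (k : ℕ) (x : SBSD.Sha (E F)) (h2 : 2 ^ k • x = 0) :
    x = 0 := by
  refine CM27.fin_two_pow (A := SBSD.Sha (E F)) (fun x hx => ?_) k x h2
  obtain ⟨c, rfl⟩ := QuotientAddGroup.mk_surjective x
  obtain ⟨hc1, hc2, -⟩ := c.2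
  have h3 : 2 • c ∈ (SBSD.coboundaries (E F)).addSubgroupOf (SBSD.locTrivial (E F)) := by
    rw [← QuotientAddGroup.eq_zero_iff]
    exact hx
  obtain ⟨P, hP⟩ := AddSubgroup.mem_addSubgroupOf.1 h3
  exact (QuotientAddGroup.eq_zero_iff _).2 (AddSubgroup.mem_addSubgroupOf.2
    (sha_two m hm M F n hF c.1 hc1 hc2 ⟨P, fun σ => hP σ⟩))

section

variable {F : Type} [Field F] [NumberField F] [Fact (Irreducible (cubPoly F))]
  (hsel : ∀ z : R F, z ≠ 0 → (∃ n : F, Algebra.norm F z = n ^ 2) →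
      (∀ v : HeightOneSpectrum (𝓞 F), LocCond z (v.adicCompletion F)) → ∃ t : R F, z = t ^ 2)

include hsel in
/-- Every point is divisible by `2`. -/
theorem points_divisible (P : (E F).toAffine.Point) : ∃ Q, P = 2 • Q := by
  obtain ⟨t, ht⟩ := hsel (zOf P) (zOf_ne_zero P) (by
    rcases P with _ | ⟨x, y, hxy⟩
    · exact ⟨1, by rw [one_pow]; exact map_one _⟩
    · exact ⟨_, norm_zOf hxy⟩) (fun v => ⟨ptMap (algebraMap F (v.adicCompletion F)) P, 1,
      isUnit_one, by rw [one_pow, mul_one]; exact (zOf_ptMap _ P).symm⟩)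
  exact exists_half P t ht

include hsel in
theorem finite_points_of_selmer (v : HeightOneSpectrum (𝓞 F)) (h2 : (2 : 𝓞 F) ∈ v.asIdeal)
    (h4 : (2 : 𝓞 F) ∉ v.asIdeal ^ 2) : Finite (E F).toAffine.Point :=
  finite_of_divisible v h2 h4 (points_divisible hsel)

theorem odd_points_of_finite (hfin : Finite (E F).toAffine.Point) :
    Odd (Nat.card (E F).toAffine.Point) := by
  rw [← Nat.not_even_iff_odd]
  intro hev
  obtain ⟨P, hP⟩ := exists_prime_addOrderOf_dvd_card' (G := (E F).toAffine.Point) 2 hev.two_dvd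
  have h2 : 2 • P = 2 • (0 : (E F).toAffine.Point) := by
    rw [smul_zero, ← hP, addOrderOf_nsmul_eq_zero]
  have h0 := two_smul_injective h2
  rw [h0, addOrderOf_zero] at hP
  norm_num at hP

end

/-- The group of points is finite. -/
theorem finite_points (m : ℕ) [NeZero m] (hm : GoodLevel m) (M : Type) [Field M] [NumberField M]
    [IsCyclotomicExtension {m} ℚ M] (F : IntermediateField ℚ M) (n : ℕ)
    (hF : Module.finrank ℚ F = 2 ^ n) : Finite (E F).toAffine.Point := by
  have hirrF : Fact (Irreducible (cubPoly F)) := ⟨irreducible_of_two_pow n hF⟩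
  obtain ⟨v, h2, h4⟩ := CM27.exists_two m (goodLevel_odd hm) M F
  exact finite_points_of_selmer (fun z hz hN hloc => selmer_trivial m hm M F n hF z hz hN hloc)
    v h2 h4

/-- The group of points has odd order. -/
theorem odd_points (m : ℕ) [NeZero m] (hm : GoodLevel m) (M : Type) [Field M] [NumberField M]
    [IsCyclotomicExtension {m} ℚ M] (F : IntermediateField ℚ M) (n : ℕ)
    (hF : Module.finrank ℚ F = 2 ^ n) : Odd (Nat.card (E F).toAffine.Point) := by
  have hirrF : Fact (Irreducible (cubPoly F)) := ⟨irreducible_of_two_pow n hF⟩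
  exact odd_points_of_finite (finite_points m hm M F n hF)

end X11
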