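import Pool.Agent.MP_9ab903_nt.NC.R8

set_option autoImplicit false

open Polynomial NumberField IsDedekindDomain
open scoped Classical

namespace X11

/-! ## [NC-GP] good primes are the primes for which `E(𝔽_p)` has odd order -/

/-- A root of the cubic gives a point of order two. -/
theorem gp_two_tors {K : Type} [Field K] (h2 : (2 : K) ≠ 0) (h11 : (11 : K) ≠ 0) (t : K)
    (ht : t ^ 3 - t ^ 2 + t + 1 = 0) : ∃ P : (E K).toAffine.Point, P ≠ 0 ∧ 2 • P = 0 := by
  have h4 : (4 : K) ≠ 0 := by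
    have : (4 : K) = 2 * 2 := by norm_num
    rw [this]; exact mul_ne_zero h2 h2
  -- `T = (8 - 14 t + 6 t²) / 4`
  set x : K := (8 - 14 * t + 6 * t ^ 2) / 4 with hx
  have hx4 : 4 * x = 8 - 14 * t + 6 * t ^ 2 := by
    rw [hx]; field_simp
  have hg : 4 * x ^ 3 - 4 * x ^ 2 - 40 * x - 79 = 0 := by
    have h16 : (16 : K) ≠ 0 := by
      have : (16 : K) = 4 * 4 := by norm_num
      rw [this]; exact mul_ne_zero h4 h4
    apply mul_left_cancel₀ h16
    have e : 16 * (4 * x ^ 3 - 4 * x ^ 2 - 40 * x - 79) =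
        (4 * x) ^ 3 - 4 * (4 * x) ^ 2 - 160 * (4 * x) - 1264 := by ring
    rw [e, hx4, mul_zero]
    linear_combination (216 * t ^ 3 - 1296 * t ^ 2 + 2736 * t - 2288) * ht
  have hder : 3 * x ^ 2 - 2 * x - 10 ≠ 0 := by
    intro h0
    have h1 : (11 : K) ^ 5 = 0 := by
      linear_combination (744 * x - 2749 : K) * hg + (-992 * x ^ 2 + 3996 * x + 5612) * h0
    exact pow_ne_zero 5 h11 h1
  set y : K := -1 / 2 with hy
  have hy2 : 2 * y + 1 = 0 := by
    rw [hy]; field_simp; ring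
  have hns : (E K).toAffine.Nonsingular x y := by
    rw [WeierstrassCurve.Affine.nonsingular_iff]
    refine ⟨?_, ?_⟩
    · rw [WeierstrassCurve.Affine.equation_iff]
      simp only [E]
      apply mul_left_cancel₀ h4
      linear_combination (2 * y + 1) * hy2 - hg
    · left
      simp only [E]
      intro h0
      apply hder
      linear_combination -h0
  refine ⟨.some x y hns, WeierstrassCurve.Affine.Point.some_ne_zero _, ?_⟩
  rw [two_nsmul]
  apply WeierstrassCurve.Affine.Point.add_of_Y_eq rfl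
  simp only [WeierstrassCurve.Affine.negY, E]
  linear_combination hy2

theorem gp_not_odd {K : Type} [Field K] (h2 : (2 : K) ≠ 0) (h11 : (11 : K) ≠ 0) (t : K)
    (ht : t ^ 3 - t ^ 2 + t + 1 = 0) : ¬ Odd (Nat.card (E K).toAffine.Point) := by
  obtain ⟨P, hP0, hP2⟩ := gp_two_tors h2 h11 t ht
  have h1 : addOrderOf P = 2 := addOrderOf_eq_prime hP2 hP0
  rw [Nat.not_odd_iff_even, even_iff_two_dvd]
  rw [← h1]
  exact addOrderOf_dvd_natCard P

/-- Primes for which the number of points is odd are good. -/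
theorem goodPrime_of_odd (p : ℕ) [hp : Fact p.Prime] (h2 : p ≠ 2) (h11 : p ≠ 11)
    (hodd : Odd (Nat.card (E (ZMod p)).toAffine.Point)) : GoodPrime p := by
  refine ⟨hp.out, ?_⟩
  rintro ⟨t, ht⟩
  have e2 : ((2 : ℕ) : ZMod p) ≠ 0 := by
    rw [Ne, ZMod.natCast_eq_zero_iff]
    intro h
    exact h2 ((Nat.prime_dvd_prime_iff_eq hp.out Nat.prime_two).1 h)
  have e11 : ((11 : ℕ) : ZMod p) ≠ 0 := by
    rw [Ne, ZMod.natCast_eq_zero_iff]
    intro h
    exact h11 ((Nat.prime_dvd_prime_iff_eq hp.out (by norm_num)).1 h)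
  exact gp_not_odd (K := ZMod p) (by exact_mod_cast e2) (by exact_mod_cast e11) t ht hodd

end X11
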