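import Pool.Agent.MP_9ab903_nt.NC.A1

set_option autoImplicit false

open Polynomial NumberField IsDedekindDomain
open scoped Classical

namespace X11

/-! ## [NC-A4] square roots of `1` come from points of order `2` (port of SB/A4.lean) -/

theorem isUnit_of_norm {K : Type} [Field K] (z : R K) (h : Algebra.norm K z ≠ 0) : IsUnit z := by
  obtain ⟨a, b, c, rfl⟩ := trip_surj z
  rw [norm_trip] at h
  set n := a ^ 3 - 2 * a ^ 2 * b + 2 * a * b ^ 2 - 4 * b * c ^ 2 +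
      4 * b ^ 2 * c - 2 * b ^ 3 + 4 * c ^ 3 + 2 * a * b * c - 4 * a * c ^ 2 with hn
  have h1 : trip a b c * trip (a ^ 2 - 2 * a * b + 2 * b ^ 2 - 2 * b * c)
      (-a * b + 2 * b ^ 2 - 4 * b * c + 2 * c ^ 2) (-a * c + b ^ 2 - 2 * b * c + 2 * c ^ 2) =
      algebraMap K (R K) n := by
    rw [r1_trip_mul]
    have e1 : a * (a ^ 2 - 2 * a * b + 2 * b ^ 2 - 2 * b * c) -
        2 * (b * (-a * c + b ^ 2 - 2 * b * c + 2 * c ^ 2) +
          c * (-a * b + 2 * b ^ 2 - 4 * b * c + 2 * c ^ 2)) +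
        4 * (c * (-a * c + b ^ 2 - 2 * b * c + 2 * c ^ 2)) = n := by
      rw [hn]; ring
    have e2 : a * (-a * b + 2 * b ^ 2 - 4 * b * c + 2 * c ^ 2) +
        b * (a ^ 2 - 2 * a * b + 2 * b ^ 2 - 2 * b * c) -
        2 * (b * (-a * c + b ^ 2 - 2 * b * c + 2 * c ^ 2) +
          c * (-a * b + 2 * b ^ 2 - 4 * b * c + 2 * c ^ 2)) +
        2 * (c * (-a * c + b ^ 2 - 2 * b * c + 2 * c ^ 2)) = 0 := by
      ring
    have e3 : a * (-a * c + b ^ 2 - 2 * b * c + 2 * c ^ 2) +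
        b * (-a * b + 2 * b ^ 2 - 4 * b * c + 2 * c ^ 2) +
        c * (a ^ 2 - 2 * a * b + 2 * b ^ 2 - 2 * b * c) -
        2 * (b * (-a * c + b ^ 2 - 2 * b * c + 2 * c ^ 2) +
          c * (-a * b + 2 * b ^ 2 - 4 * b * c + 2 * c ^ 2)) +
        2 * (c * (-a * c + b ^ 2 - 2 * b * c + 2 * c ^ 2)) = 0 := by
      ring
    rw [e1, e2, e3]
    simp [trip]
  have h2 : IsUnit (algebraMap K (R K) n) := (isUnit_iff_ne_zero.mpr h).map _
  rw [← h1] at h2
  exact isUnit_of_mul_isUnit_left h2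

theorem a4_quad {K : Type} [Field K] {a b : K} (ha : a ^ 3 + 2 * a ^ 2 + 2 * a + 2 = 0)
    (hb : b ^ 3 + 2 * b ^ 2 + 2 * b + 2 = 0) (hab : a ≠ b) :
    a ^ 2 + a * b + b ^ 2 + 2 * (a + b) + 2 = 0 := by
  have h : (a - b) * (a ^ 2 + a * b + b ^ 2 + 2 * (a + b) + 2) = 0 := by
    linear_combination ha - hb
  exact (mul_eq_zero.mp h).resolve_left (sub_ne_zero.mpr hab)

theorem a4_sum {K : Type} [Field K] (ρ : Roots K) : ρ.a + ρ.b + ρ.c = -2 := by
  have h1 := a4_quad ρ.ha ρ.hb ρ.hab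
  have h2 := a4_quad ρ.ha ρ.hc ρ.hac
  have h : (ρ.b - ρ.c) * (ρ.a + ρ.b + ρ.c + 2) = 0 := by linear_combination h1 - h2
  have h3 := (mul_eq_zero.mp h).resolve_left (sub_ne_zero.mpr ρ.hbc)
  linear_combination h3

theorem a4_e2 {K : Type} [Field K] (ρ : Roots K) : ρ.a * ρ.b + ρ.a * ρ.c + ρ.b * ρ.c = 2 := by
  have h1 := a4_quad ρ.ha ρ.hb ρ.hab
  have h0 := a4_sum ρ
  linear_combination (ρ.a + ρ.b) * h0 - h1

theorem a4_e3 {K : Type} [Field K] (ρ : Roots K) : ρ.a * ρ.b * ρ.c = -2 := by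
  have h1 := a4_quad ρ.ha ρ.hb ρ.hab
  have h0 := a4_sum ρ
  linear_combination (ρ.a * ρ.b) * h0 - ρ.a * h1 + ρ.ha

/-- the norm is the product of the values at the three roots -/
theorem norm_eq_prod {K : Type} [Field K] (ρ : Roots K) (z : R K) :
    Algebra.norm K z = evR (RingHom.id K) ρ.a ρ.ha z * evR (RingHom.id K) ρ.b ρ.hb z *
      evR (RingHom.id K) ρ.c ρ.hc z := by
  obtain ⟨x, y, z, rfl⟩ := trip_surj z
  rw [norm_trip, evR_trip, evR_trip, evR_trip]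
  simp only [RingHom.id_apply]
  have h1 := a4_sum ρ
  have h2 := a4_e2 ρ
  have h3 := a4_e3 ρ
  generalize ρ.a = a at *
  generalize ρ.b = b at *
  generalize ρ.c = c at *
  have key : (x + y * a + z * a ^ 2) * (x + y * b + z * b ^ 2) * (x + y * c + z * c ^ 2) =
      x ^ 3 + x ^ 2 * y * (a + b + c) +
        x ^ 2 * z * ((a + b + c) ^ 2 - 2 * (a * b + a * c + b * c)) +
        x * y ^ 2 * (a * b + a * c + b * c) +
        x * y * z * ((a + b + c) * (a * b + a * c + b * c) - 3 * (a * b * c)) +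
        x * z ^ 2 * ((a * b + a * c + b * c) ^ 2 - 2 * (a + b + c) * (a * b * c)) +
        y ^ 3 * (a * b * c) + y ^ 2 * z * ((a + b + c) * (a * b * c)) +
        y * z ^ 2 * ((a * b + a * c + b * c) * (a * b * c)) + z ^ 3 * (a * b * c) ^ 2 := by
    ring
  rw [key, h1, h2, h3]
  ring

theorem evR_ext {K : Type} [Field K] (ρ : Roots K) (z z' : R K)
    (ha : evR (RingHom.id K) ρ.a ρ.ha z = evR (RingHom.id K) ρ.a ρ.ha z')
    (hb : evR (RingHom.id K) ρ.b ρ.hb z = evR (RingHom.id K) ρ.b ρ.hb z')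
    (hc : evR (RingHom.id K) ρ.c ρ.hc z = evR (RingHom.id K) ρ.c ρ.hc z') : z = z' := by
  obtain ⟨x, y, w, rfl⟩ := trip_surj z
  obtain ⟨x', y', w', rfl⟩ := trip_surj z'
  simp only [evR_trip, RingHom.id_apply] at ha hb hc
  have h1 : (ρ.a - ρ.b) * ((y - y') + (w - w') * (ρ.a + ρ.b)) = 0 := by
    linear_combination ha - hb
  have h2 : (ρ.a - ρ.c) * ((y - y') + (w - w') * (ρ.a + ρ.c)) = 0 := by
    linear_combination ha - hc
  have h1' := (mul_eq_zero.mp h1).resolve_left (sub_ne_zero.mpr ρ.hab)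
  have h2' := (mul_eq_zero.mp h2).resolve_left (sub_ne_zero.mpr ρ.hac)
  have h3 : (ρ.b - ρ.c) * (w - w') = 0 := by linear_combination h1' - h2'
  have hw := (mul_eq_zero.mp h3).resolve_left (sub_ne_zero.mpr ρ.hbc)
  have hy : y - y' = 0 := by linear_combination h1' - (ρ.a + ρ.b) * hw
  have hx : x - x' = 0 := by linear_combination ha - ρ.a * hy - ρ.a ^ 2 * hw
  rw [sub_eq_zero.mp hx, sub_eq_zero.mp hy, sub_eq_zero.mp hw]

theorem a4_exists {K : Type} [Field K] [CharZero K] (ρ : Roots K) (e : R K)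
    (ha : evR (RingHom.id K) ρ.a ρ.ha e = 1) (hb : evR (RingHom.id K) ρ.b ρ.hb e = -1)
    (hc : evR (RingHom.id K) ρ.c ρ.hc e = -1) :
    ∃ T : (E K).toAffine.Point, 2 • T = 0 ∧ rOf T = e := by
  obtain ⟨x, hx⟩ : ∃ x : K, x = (3 * ρ.a ^ 2 - ρ.a) / 2 := ⟨_, rfl⟩
  have hpoly : 4 * x ^ 3 - 4 * x ^ 2 - 40 * x - 79 = 0 := by
    rw [hx]
    linear_combination ((27 / 2 : K) * ρ.a ^ 3 - (81 / 2) * ρ.a ^ 2 + (99 / 2) * ρ.a - 79 / 2) *
      ρ.ha
  have hD : 3 * x ^ 2 - 2 * x - 10 ≠ 0 := a1_der_ne hpoly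
  have hns : (E K).toAffine.Nonsingular x (-1 / 2) := by
    rw [WeierstrassCurve.Affine.nonsingular_iff, WeierstrassCurve.Affine.equation_iff]
    refine ⟨?_, ?_⟩
    · simp only [E]
      linear_combination (-1 / 4 : K) * hpoly
    · left
      simp only [E]
      intro h0
      apply hD
      linear_combination -h0
  have hy : (2 : K) * (-1 / 2) + 1 = 0 := by norm_num
  refine ⟨.some _ _ hns, ?_, ?_⟩
  · exact a1_two_tors hns hy
  · have hr : rOf (.some _ _ hns) =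
        trip ((14 - x ^ 2) / (3 * x ^ 2 - 2 * x - 10)) ((16 - x) / (3 * x ^ 2 - 2 * x - 10))
        ((25 + 6 * x) / (2 * (3 * x ^ 2 - 2 * x - 10))) := by
      simp only [rOf]
      rw [if_pos hy]
    rw [hr]
    have hval : ∀ t : K, (14 - x ^ 2) / (3 * x ^ 2 - 2 * x - 10) +
        (16 - x) / (3 * x ^ 2 - 2 * x - 10) * t +
        (25 + 6 * x) / (2 * (3 * x ^ 2 - 2 * x - 10)) * t ^ 2 =
        ((14 - x ^ 2) + (16 - x) * t + (25 + 6 * x) / 2 * t ^ 2) / (3 * x ^ 2 - 2 * x - 10) := by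
      intro t
      field_simp
    apply evR_ext ρ
    · rw [ha, evR_trip]
      simp only [RingHom.id_apply]
      rw [hval, div_eq_iff hD, hx]
      linear_combination (-(9 / 2) * ρ.a + 12 : K) * ρ.ha
    · rw [hb, evR_trip]
      simp only [RingHom.id_apply]
      have h1 := a4_quad ρ.ha ρ.hb ρ.hab
      rw [hval, div_eq_iff hD, hx]
      linear_combination ((9 / 2) * ρ.a ^ 2 - (3 / 2) * ρ.a + 25 / 2 : K) * h1 +
        (-(9 / 2) * ρ.b - 21 / 2 : K) * ρ.ha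
    · rw [hc, evR_trip]
      simp only [RingHom.id_apply]
      have h1 := a4_quad ρ.ha ρ.hc ρ.hac
      rw [hval, div_eq_iff hD, hx]
      linear_combination ((9 / 2) * ρ.a ^ 2 - (3 / 2) * ρ.a + 25 / 2 : K) * h1 +
        (-(9 / 2) * ρ.c - 21 / 2 : K) * ρ.ha

theorem exists_tors {K : Type} [Field K] [CharZero K] (ρ : Roots K) (e : R K) (he : e ^ 2 = 1)
    (hn : Algebra.norm K e = 1) : ∃ T : (E K).toAffine.Point, 2 • T = 0 ∧ rOf T = e := by
  rw [norm_eq_prod ρ] at hn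
  have h : ∀ (r : K) (hr : r ^ 3 + 2 * r ^ 2 + 2 * r + 2 = 0),
      evR (RingHom.id K) r hr e = 1 ∨ evR (RingHom.id K) r hr e = -1 := by
    intro r hr
    apply sq_eq_sq_iff_eq_or_eq_neg.mp
    rw [← map_pow, he, map_one, one_pow]
  rcases h ρ.a ρ.ha with ha | ha <;> rcases h ρ.b ρ.hb with hb | hb <;>
    rcases h ρ.c ρ.hc with hc | hc
  · refine ⟨0, by simp, ?_⟩
    have h0 : rOf (0 : (E K).toAffine.Point) = 1 := rfl
    rw [h0]
    apply evR_ext ρ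
    · rw [ha, map_one]
    · rw [hb, map_one]
    · rw [hc, map_one]
  · exfalso; rw [ha, hb, hc] at hn; norm_num at hn
  · exfalso; rw [ha, hb, hc] at hn; norm_num at hn
  · exact a4_exists ρ e ha hb hc
  · exfalso; rw [ha, hb, hc] at hn; norm_num at hn
  · exact a4_exists ⟨ρ.b, ρ.a, ρ.c, ρ.hb, ρ.ha, ρ.hc, ρ.hab.symm, ρ.hbc, ρ.hac⟩ e hb ha hc
  · exact a4_exists ⟨ρ.c, ρ.a, ρ.b, ρ.hc, ρ.ha, ρ.hb, ρ.hac.symm, ρ.hbc.symm, ρ.hab⟩ e hc ha hb
  · exfalso; rw [ha, hb, hc] at hn; norm_num at hn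

end X11
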