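import Pool.Agent.MP_9ab903_nt.NC.A1

set_option autoImplicit false

open Polynomial NumberField IsDedekindDomain
open scoped Classical

namespace X11

/-! ## [NC-D] divisibility by `2` over algebraically closed fields (port of SB/D.lean) -/

/-- the discriminant of `X³ + 2 X² + 2 X + 2` is `-44` -/
theorem D_disc {K : Type} [Field K] {a : K} (ha : a ^ 3 + 2 * a ^ 2 + 2 * a + 2 = 0) :
    (-3 * a ^ 2 - 4 * a - 4) * (3 * a ^ 2 + 4 * a + 2) ^ 2 = -44 := by
  linear_combination ((14) * a ^ 0 + (-54) * a ^ 1 + (-54) * a ^ 2 + (-27) * a ^ 3) * ha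

theorem exists_roots (K : Type) [Field K] [CharZero K] [IsAlgClosed K] : Nonempty (Roots K) := by
  have h2 : (2 : K) ≠ 0 := two_ne_zero
  have h44 : (-44 : K) ≠ 0 := by norm_num
  obtain ⟨a, ha⟩ : ∃ a : K, a ^ 3 + 2 * a ^ 2 + 2 * a + 2 = 0 := by
    have hdeg : (X ^ 3 + C 2 * X ^ 2 + C 2 * X + C 2 : K[X]).natDegree = 3 := by
      compute_degree!
    obtain ⟨r, hr⟩ := IsAlgClosed.exists_root (X ^ 3 + C 2 * X ^ 2 + C 2 * X + C 2 : K[X])
      (by
        intro h
        rw [Polynomial.degree_eq_natDegree (by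
          intro h0
          rw [h0, natDegree_zero] at hdeg
          norm_num at hdeg), hdeg] at h
        norm_num at h)
    refine ⟨r, ?_⟩
    simpa [IsRoot.def] using hr
  have hd := D_disc ha
  obtain ⟨s, hs⟩ := IsAlgClosed.exists_pow_nat_eq (-3 * a ^ 2 - 4 * a - 4 : K) (n := 2)
    (by norm_num)
  have hs0 : s ≠ 0 := by
    rintro rfl
    rw [← hs] at hd
    apply h44
    rw [← hd]
    ring
  have hq : 3 * a ^ 2 + 4 * a + 2 ≠ 0 := by
    intro h
    rw [h] at hd
    apply h44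
    rw [← hd]
    ring
  have key : ∀ u : K, u ^ 2 + (a + 2) * u + (a ^ 2 + 2 * a + 2) = 0 →
      u ^ 3 + 2 * u ^ 2 + 2 * u + 2 = 0 ∧ a ≠ u := by
    intro u hu
    refine ⟨by linear_combination (u - a) * hu + ha, ?_⟩
    rintro rfl
    apply hq
    linear_combination hu
  have hb : ((-(a + 2) + s) / 2) ^ 2 + (a + 2) * ((-(a + 2) + s) / 2) + (a ^ 2 + 2 * a + 2)
      = 0 := by
    field_simp
    linear_combination hs
  have hc : ((-(a + 2) - s) / 2) ^ 2 + (a + 2) * ((-(a + 2) - s) / 2) + (a ^ 2 + 2 * a + 2)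
      = 0 := by
    field_simp
    linear_combination hs
  refine ⟨⟨a, (-(a + 2) + s) / 2, (-(a + 2) - s) / 2, ha, (key _ hb).1, (key _ hc).1,
    (key _ hb).2, (key _ hc).2, ?_⟩⟩
  intro h
  apply hs0
  have h3 : 2 * s = 0 := by
    field_simp at h
    linear_combination h
  exact (mul_eq_zero.1 h3).resolve_left h2

theorem D_nonsing {K : Type} [Field K] [CharZero K] (x y : K)
    (h : (2 * y + 1) ^ 2 = 4 * x ^ 3 - 4 * x ^ 2 - 40 * x - 79) :
    (E K).toAffine.Nonsingular x y := by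
  rw [WeierstrassCurve.Affine.nonsingular_iff]
  refine ⟨?_, ?_⟩
  · rw [WeierstrassCurve.Affine.equation_iff]
    simp only [E]
    have h4 : (4 : K) ≠ 0 := by norm_num
    apply mul_left_cancel₀ h4
    linear_combination h
  · simp only [E]
    by_contra hcon
    push Not at hcon
    obtain ⟨h1, h2⟩ := hcon
    have h6 : 2 * y + 1 = 0 := by linear_combination h2
    rw [h6] at h
    refine a1_der_ne (x := x) ?_ ?_
    · linear_combination -h
    · linear_combination -h1

theorem two_divisible {K : Type} [Field K] [CharZero K] [IsAlgClosed K]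
    (Q : (E K).toAffine.Point) : ∃ P, Q = 2 • P := by
  rcases Q with _ | ⟨x, y, hQ⟩
  · exact ⟨0, (smul_zero 2).symm⟩
  · have h2 : (2 : K) ≠ 0 := two_ne_zero
    obtain ⟨X0, hX⟩ : ∃ X0 : K, X0 ^ 4 - 4 * x * X0 ^ 3 + (20 + 4 * x) * X0 ^ 2 +
        (158 + 40 * x) * X0 + (21 + 79 * x) = 0 := by
      have hdeg : (X ^ 4 - C (4 * x) * X ^ 3 + C (20 + 4 * x) * X ^ 2 + C (158 + 40 * x) * X +
          C (21 + 79 * x) : K[X]).natDegree = 4 := by
        compute_degree!
      obtain ⟨r, hr⟩ := IsAlgClosed.exists_root (X ^ 4 - C (4 * x) * X ^ 3 +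
          C (20 + 4 * x) * X ^ 2 + C (158 + 40 * x) * X + C (21 + 79 * x) : K[X])
        (by
          intro h
          rw [Polynomial.degree_eq_natDegree (by
            intro h0
            rw [h0, natDegree_zero] at hdeg
            norm_num at hdeg), hdeg] at h
          norm_num at h)
      refine ⟨r, ?_⟩
      rw [IsRoot.def, eval_add, eval_add, eval_add, eval_sub, eval_mul, eval_mul, eval_mul,
        eval_pow, eval_pow, eval_pow, eval_X, eval_C, eval_C, eval_C, eval_C] at hr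
      exact hr
    have hne : 4 * X0 ^ 3 - 4 * X0 ^ 2 - 40 * X0 - 79 ≠ 0 := by
      intro h
      have h1 : (3 * X0 ^ 2 - 2 * X0 - 10) ^ 2 = 0 := by
        linear_combination hX + (x + (2 * X0 - 1)) * h
      exact a1_der_ne h (pow_eq_zero_iff (two_ne_zero) |>.1 h1)
    obtain ⟨t, ht⟩ := IsAlgClosed.exists_pow_nat_eq
      (4 * X0 ^ 3 - 4 * X0 ^ 2 - 40 * X0 - 79 : K) (n := 2) (by norm_num)
    have ht0 : t ≠ 0 := by
      rintro rfl
      rw [zero_pow (by norm_num)] at ht
      exact hne ht.symm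
    have hty : 2 * ((t - 1) / 2) + 1 = t := by
      field_simp
      ring
    have hns : (E K).toAffine.Nonsingular X0 ((t - 1) / 2) := by
      apply D_nonsing
      rw [hty, ht]
    obtain ⟨y2, hn2, hP⟩ := a1_double hns (by rw [hty]; exact ht0)
    have hx : x = (X0 ^ 4 + 20 * X0 ^ 2 + 158 * X0 + 21) / (2 * ((t - 1) / 2) + 1) ^ 2 := by
      rw [hty, eq_div_iff (pow_ne_zero 2 ht0), ht]
      linear_combination -hX
    rcases (WeierstrassCurve.Affine.Point.X_eq_iff (h₁ := hQ) (h₂ := hn2)).1 hx with h | h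
    · exact ⟨.some X0 ((t - 1) / 2) hns, by rw [hP]; exact h⟩
    · refine ⟨-.some X0 ((t - 1) / 2) hns, ?_⟩
      rw [smul_neg, hP]
      exact h

end X11
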