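import Pool.Agent.MP_9ab903_nt.NC.PAR
import Pool.Agent.MP_9ab903_nt.SB.CO
import Pool.Agent.MP_9ab903_nt.NC.R1

set_option autoImplicit false

open Polynomial NumberField IsDedekindDomain
open scoped Classical

namespace X11

/-! ## [SBS-EV] even valuations outside `6` (file EV.lean; uses PAR, CO) -/

theorem even_of_locCond (F : Type) [Field F] [NumberField F] [Fact (Irreducible (cubPoly F))]
    (z : R F) (hz : ∀ v : HeightOneSpectrum (𝓞 F), LocCond z (v.adicCompletion F))
    (P : HeightOneSpectrum (𝓞 (R F))) (hP : (2 : 𝓞 (R F)) ∉ P.asIdeal)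
    (hv : P.valuation (R F) (vp F) = 1) :
    IsSquare (P.valuation (R F) z) := by
  obtain ⟨v, -, φ, hφ⟩ := CM27.exists_below F (R F) P
  obtain ⟨Q, u, hu, hzu⟩ := hz v
  set ρ : P.adicCompletion (R F) := algebraMap (R F) (P.adicCompletion (R F)) (pr F) with hρ
  have hρ3 : ρ ^ 3 + 2 * ρ ^ 2 + 2 * ρ + 2 = 0 := by
    rw [hρ, ← map_pow, pr_pow]
    simp only [map_sub, map_mul, map_neg, map_pow, map_ofNat]
    ring
  have hcomp : (evR φ ρ hρ3).comp (mapR (algebraMap F (v.adicCompletion F))) =
      algebraMap (R F) (P.adicCompletion (R F)) := by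
    apply AdjoinRoot.ringHom_ext
    · refine RingHom.ext fun a => ?_
      change evR φ ρ hρ3 (mapR (algebraMap F (v.adicCompletion F)) (algebraMap F (R F) a)) =
        algebraMap (R F) (P.adicCompletion (R F)) (algebraMap F (R F) a)
      rw [mapR_algebraMap, ← hφ]
      exact AdjoinRoot.lift_of _
    · change evR φ ρ hρ3 (mapR (algebraMap F (v.adicCompletion F)) (pr F)) =
        algebraMap (R F) (P.adicCompletion (R F)) (pr F)
      rw [mapR_pr]
      exact AdjoinRoot.lift_root _
  have hz1 : evR φ ρ hρ3 (mapR (algebraMap F (v.adicCompletion F)) z) =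
      algebraMap (R F) (P.adicCompletion (R F)) z := congrArg (fun g : R F →+* _ => g z) hcomp
  set w : Valuation (P.adicCompletion (R F)) (WithZero (Multiplicative ℤ)) := Valued.v with hw
  have hwv : ∀ x : R F, w (algebraMap (R F) (P.adicCompletion (R F)) x) =
      P.valuation (R F) x := fun x => HeightOneSpectrum.valuedAdicCompletion_eq_valuation' P x
  rw [← hwv, ← hz1, hzu, map_mul, map_pow, map_mul, map_pow]
  refine IsSquare.mul ?_ ⟨_, sq _⟩
  have h2 : w 2 = 1 := by
    have h1 := hwv 2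
    rw [map_ofNat] at h1
    rw [h1]
    have h2 : P.valuation (R F) (algebraMap (𝓞 (R F)) (R F) 2) = 1 := by
      rw [HeightOneSpectrum.valuation_of_algebraMap]
      exact (P.intValuation_eq_one_iff).2 hP
    rwa [map_ofNat] at h2
  have hvp : w (3 + 2 * ρ + ρ ^ 2) = 1 := by
    rw [← hv, ← hwv]
    congr 1
    rw [vp, hρ]
    simp only [trip, map_add, map_mul, map_pow, map_ofNat, map_one, one_mul]
  cases Q with
  | zero =>
    refine ⟨1, ?_⟩
    simp [zOf]
  | some x y h =>
    have h1 : evR φ ρ hρ3 (zOf (.some x y h)) = -7 + (-4) * ρ + (φ x - 4) * ρ ^ 2 := by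
      change evR φ ρ hρ3 (trip (-7) (-4) (x - 4)) = _
      have h4 : φ 4 = 4 := map_ofNat φ 4
      have h7 : φ 7 = 7 := map_ofNat φ 7
      rw [evR_trip, map_neg, map_neg, map_sub, h4, h7]
    rw [h1]
    apply parity w h2 ρ (φ x) (φ y) hρ3 hvp
    have h3 := congrArg φ (r1_equation h)
    simp only [map_add, map_sub, map_mul, map_pow, map_ofNat] at h3
    exact h3

end X11
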