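import Pool.Agent.MP_9ab903_nt.NC.V
import Pool.Agent.MP_9ab903_nt.SB.CO

set_option autoImplicit false

open Polynomial NumberField IsDedekindDomain
open scoped Classical

namespace X11

/-! ## [SBS-G] the group of good elements (file G.lean; uses V, CO) -/

variable {F : Type} [Field F] [NumberField F] [Fact (Irreducible (cubPoly F))]

omit [Fact (Irreducible (cubPoly F))] in
theorem g_two_lt {v : HeightOneSpectrum (𝓞 F)} (h : (2 : 𝓞 F) ∈ v.asIdeal) :
    v.valuation F 2 < 1 := by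
  have h1 := (v.valuation_lt_one_iff_mem (K := F) (2 : 𝓞 F)).2 h
  exact_mod_cast h1

theorem Good.mul {z z' : R F} (h : Good z) (h' : Good z') : Good (z * z') := by
  refine ⟨mul_ne_zero h.ne h'.ne, ?_, ?_, ?_⟩
  · obtain ⟨n, hn⟩ := h.norm
    obtain ⟨n', hn'⟩ := h'.norm
    exact ⟨n * n', by rw [map_mul, hn, hn']; ring⟩
  · intro P hP hv
    rw [map_mul]
    exact (h.even P hP hv).mul (h'.even P hP hv)
  · intro v hv hv'
    exact InU2.mul (g_two_lt hv) (h.two v hv hv') (h'.two v hv hv')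

theorem Good.sq (t : R F) (ht : t ≠ 0) : Good (t ^ 2) := by
  refine ⟨pow_ne_zero 2 ht, ⟨Algebra.norm F t, map_pow _ _ _⟩, ?_, ?_⟩
  · intro P hP _
    rw [map_pow]
    exact IsSquare.sq _
  · intro v hv hv'
    exact InU2.sq _ t (isUnit_iff_ne_zero.2 ht)

theorem Good.inv {z : R F} (h : Good z) : Good z⁻¹ := by
  have h1 : z⁻¹ = z * (z⁻¹) ^ 2 := by
    have := h.ne
    field_simp
  rw [h1]
  exact h.mul (Good.sq _ (inv_ne_zero h.ne))

omit [NumberField F] [Fact (Irreducible (cubPoly F))] in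
theorem g_mapR_mapR (σ τ : F →+* F) (z : R F) :
    X11.mapR σ (X11.mapR τ z) = X11.mapR (σ.comp τ) z := by
  obtain ⟨a, b, c, rfl⟩ := trip_surj z
  rw [mapR_trip, mapR_trip, mapR_trip]
  rfl

omit [NumberField F] [Fact (Irreducible (cubPoly F))] in
theorem g_mapR_id (z : R F) : X11.mapR (RingHom.id F) z = z := by
  obtain ⟨a, b, c, rfl⟩ := trip_surj z
  rw [mapR_trip]
  rfl

omit [NumberField F] [Fact (Irreducible (cubPoly F))] in
theorem g_mapR_vp (σ : F →+* F) : X11.mapR σ (vp F) = vp F := by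
  have h3 : σ 3 = 3 := map_ofNat σ 3
  have h2 : σ 2 = 2 := map_ofNat σ 2
  rw [vp, mapR_trip, h3, h2, map_one]

/-- the automorphism of `R F` -/
noncomputable def g_equiv (σ : F ≃+* F) : R F ≃+* R F :=
  RingEquiv.ofRingHom (X11.mapR (σ : F →+* F)) (X11.mapR (σ.symm : F →+* F))
    (RingHom.ext fun z => by
      rw [RingHom.comp_apply, g_mapR_mapR, RingHom.id_apply]
      have : (σ : F →+* F).comp (σ.symm : F →+* F) = RingHom.id F := by ext x; simp
      rw [this, g_mapR_id])
    (RingHom.ext fun z => by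
      rw [RingHom.comp_apply, g_mapR_mapR, RingHom.id_apply]
      have : (σ.symm : F →+* F).comp (σ : F →+* F) = RingHom.id F := by ext x; simp
      rw [this, g_mapR_id])

theorem Good.mapR {z : R F} (h : Good z) (σ : F ≃+* F) : Good (X11.mapR (σ : F →+* F) z) := by
  have hval : ∀ x, g_equiv σ x = X11.mapR (σ : F →+* F) x := fun x => rfl
  refine ⟨?_, ?_, ?_, ?_⟩
  · rw [← hval]
    exact (map_ne_zero_iff _ (g_equiv σ).injective).2 h.ne
  · obtain ⟨n, hn⟩ := h.norm
    exact ⟨σ n, by rw [norm_mapR, hn]; simp⟩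
  · intro P hP hv
    obtain ⟨P', hP1, hP2, -⟩ := CM27.exists_conj (R F) (g_equiv σ) P
    have h6 : (2 : 𝓞 (R F)) ∉ P'.asIdeal := by
      intro h6
      have h7 := (hP2 2).1 (by exact_mod_cast h6)
      exact hP (by exact_mod_cast h7)
    have h8 : P'.valuation (R F) (vp F) = 1 := by
      rw [hP1, hval, g_mapR_vp]
      exact hv
    rw [← hval, ← hP1]
    exact h.even P' h6 h8
  · intro v hv hv'
    obtain ⟨v', h1, h2, h3⟩ := CM27.exists_conj F σ v
    have h4 : (2 : 𝓞 F) ∈ v'.asIdeal := by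
      have := (h2 2).2 (by exact_mod_cast hv)
      exact_mod_cast this
    have h5 : (2 : 𝓞 F) ∉ v'.asIdeal ^ 2 := by
      intro h5
      have := (h3 2).1 (by exact_mod_cast h5)
      exact hv' (by exact_mod_cast this)
    exact InU2.mapR (σ : F →+* F) h1 (h.two v' h4 h5)

end X11
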