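import Pool.Agent.MP_9ab903_nt.NC.A2
import Pool.Agent.MP_9ab903_nt.NC.A3
import Pool.Agent.MP_9ab903_nt.NC.A4
import Pool.Agent.MP_9ab903_nt.NC.D

set_option autoImplicit false

open Polynomial NumberField IsDedekindDomain
open scoped Classical

namespace X11

/-! ## [SBS-H] Hilbert 90 (file H.lean; uses A2, A3, A4, D) -/

section HAux

open Topology

theorem h_ptMap_zero {K L : Type} [Field K] [Field L] (f : K →+* L) : ptMap f 0 = 0 := rfl

theorem h_ptMap_two {K L : Type} [Field K] [Field L] (f : K →+* L) (P : (E K).toAffine.Point)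
    (h : 2 • P = 0) : 2 • ptMap f P = 0 := by
  rw [two_nsmul, ← ptMap_add, ← two_nsmul, h, h_ptMap_zero]

variable {F L : Type} [Field F] [Field L] [Algebra F L]

theorem h_one {c : (L ≃ₐ[F] L) → (E L).toAffine.Point} (hc : Coc F L c) : c 1 = 0 := by
  have h := hc.crossed 1 1
  rw [mul_one] at h
  have h1 : ((1 : L ≃ₐ[F] L) : L →+* L) = RingHom.id L := rfl
  rw [h1, ptMap_id] at h
  exact (left_eq_add.1 h)

theorem h_exists_M {c : (L ≃ₐ[F] L) → (E L).toAffine.Point} (hc : Coc F L c) :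
    ∃ M : IntermediateField F L, FiniteDimensional F M ∧ ∀ σ ∈ M.fixingSubgroup, c σ = 0 := by
  have hopen : IsOpen {σ | c σ = 0} := hc.loc.isOpen_fiber 0
  have hmem : {σ | c σ = 0} ∈ 𝓝 (1 : L ≃ₐ[F] L) := hopen.mem_nhds (h_one hc)
  rw [krullTopology_mem_nhds_one_iff] at hmem
  obtain ⟨M, hM, hs⟩ := hmem
  exact ⟨M, hM, fun σ hσ => hs hσ⟩

/-- the extension of an embedding to an automorphism -/
noncomputable def hLift [Normal F L] (M : IntermediateField F L) (j : M →ₐ[F] L) : L ≃ₐ[F] L :=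
  AlgEquiv.ofBijective (j.liftNormal L) (AlgHom.normal_bijective F L L _)

theorem hLift_apply [Normal F L] (M : IntermediateField F L) (j : M →ₐ[F] L) (x : M) :
    hLift M j (x : L) = j x := by
  have := j.liftNormal_commutes L x
  exact this

theorem h_congr {c : (L ≃ₐ[F] L) → (E L).toAffine.Point} (hc : Coc F L c)
    (M : IntermediateField F L) (hM : ∀ σ ∈ M.fixingSubgroup, c σ = 0) (τ τ' : L ≃ₐ[F] L)
    (h : ∀ x ∈ M, τ x = τ' x) : c τ' = c τ := by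
  have h1 : τ' = τ * (τ⁻¹ * τ') := by rw [mul_inv_cancel_left]
  have h2 : c (τ⁻¹ * τ') = 0 := by
    apply hM
    rw [IntermediateField.mem_fixingSubgroup_iff]
    intro x hx
    rw [AlgEquiv.mul_apply, ← h x hx]
    exact AlgEquiv.symm_apply_apply τ x
  rw [h1, hc.crossed, h2, h_ptMap_zero, add_zero]

variable [CharZero L]

theorem h_A_mul {c : (L ≃ₐ[F] L) → (E L).toAffine.Point} (hc : Coc F L c)
    (h2 : ∀ σ, 2 • c σ = 0) (σ τ : L ≃ₐ[F] L) :
    rOf (c (σ * τ)) = rOf (c σ) * mapR (σ : L →+* L) (rOf (c τ)) := by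
  rw [hc.crossed, rOf_add _ _ (h_ptMap_two _ _ (h2 τ)), rOf_map]

theorem h_A_map {c : (L ≃ₐ[F] L) → (E L).toAffine.Point} (hc : Coc F L c)
    (h2 : ∀ σ, 2 • c σ = 0) (σ τ : L ≃ₐ[F] L) :
    mapR (σ : L →+* L) (rOf (c τ)) = rOf (c σ) * rOf (c (σ * τ)) := by
  rw [h_A_mul hc h2, ← mul_assoc, rOf_tors_sq _ (h2 σ), one_mul]

/-- the Poincare series -/
noncomputable def hTheta [Normal F L] (c : (L ≃ₐ[F] L) → (E L).toAffine.Point)
    (M : IntermediateField F L) [Fintype (M →ₐ[F] L)] (a : M) : R L :=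
  ∑ j : M →ₐ[F] L, rOf (c (hLift M j)) * algebraMap L (R L) (j a)

theorem hTheta_map [Normal F L] {c : (L ≃ₐ[F] L) → (E L).toAffine.Point} (hc : Coc F L c)
    (h2 : ∀ σ, 2 • c σ = 0) (M : IntermediateField F L) [Fintype (M →ₐ[F] L)]
    (hM : ∀ σ ∈ M.fixingSubgroup, c σ = 0) (a : M) (σ : L ≃ₐ[F] L) :
    mapR (σ : L →+* L) (hTheta c M a) = rOf (c σ) * hTheta c M a := by
  unfold hTheta
  rw [map_sum, Finset.mul_sum]
  refine Fintype.sum_bijective (fun j : M →ₐ[F] L => (σ : L →ₐ[F] L).comp j) ?_ _ _ ?_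
  · constructor
    · intro j j' h
      ext x
      have := DFunLike.congr_fun h x
      exact σ.injective this
    · intro j
      refine ⟨((σ⁻¹ : L ≃ₐ[F] L) : L →ₐ[F] L).comp j, ?_⟩
      ext x
      exact AlgEquiv.apply_symm_apply σ (j x)
  · intro j
    rw [map_mul, mapR_algebraMap, h_A_map hc h2, mul_assoc]
    congr 2
    · congr 1
      refine h_congr hc M hM _ _ fun x hx => ?_
      rw [AlgEquiv.mul_apply]
      have e1 := hLift_apply M j ⟨x, hx⟩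
      have e2 := hLift_apply M ((σ : L →ₐ[F] L).comp j) ⟨x, hx⟩
      rw [show ((⟨x, hx⟩ : M) : L) = x from rfl] at e1 e2
      rw [e1, e2]
      rfl

theorem h_ev_ne (ρ : L) (hρ : ρ ^ 3 + 2 * ρ ^ 2 + 2 * ρ + 2 = 0) (T : (E L).toAffine.Point) (hT : 2 • T = 0) :
    evR (RingHom.id L) ρ hρ (rOf T) ≠ 0 := by
  intro h
  have h1 := congrArg (evR (RingHom.id L) ρ hρ) (rOf_tors_sq T hT)
  rw [map_mul, h, zero_mul, map_one] at h1
  exact zero_ne_one h1

omit [CharZero L] in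
theorem h_ev_algebraMap (ρ : L) (hρ : ρ ^ 3 + 2 * ρ ^ 2 + 2 * ρ + 2 = 0) (x : L) :
    evR (RingHom.id L) ρ hρ (algebraMap L (R L) x) = x := AdjoinRoot.lift_of _

/-- the value of the Poincare series at a root, as a linear map -/
noncomputable def hVal [Normal F L] (c : (L ≃ₐ[F] L) → (E L).toAffine.Point)
    (M : IntermediateField F L) [Fintype (M →ₐ[F] L)] (ρ : L) (hρ : ρ ^ 3 + 2 * ρ ^ 2 + 2 * ρ + 2 = 0) : M →ₗ[F] L :=
  ∑ j : M →ₐ[F] L, evR (RingHom.id L) ρ hρ (rOf (c (hLift M j))) • j.toLinearMap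

theorem hVal_apply [Normal F L] (c : (L ≃ₐ[F] L) → (E L).toAffine.Point)
    (M : IntermediateField F L) [Fintype (M →ₐ[F] L)] (ρ : L) (hρ : ρ ^ 3 + 2 * ρ ^ 2 + 2 * ρ + 2 = 0) (a : M) :
    evR (RingHom.id L) ρ hρ (hTheta c M a) = hVal c M ρ hρ a := by
  unfold hTheta hVal
  rw [map_sum, LinearMap.sum_apply]
  refine Finset.sum_congr rfl fun j _ => ?_
  rw [map_mul, h_ev_algebraMap, LinearMap.smul_apply, smul_eq_mul]
  rfl

theorem hVal_ne [Normal F L] (c : (L ≃ₐ[F] L) → (E L).toAffine.Point)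
    (h2 : ∀ σ, 2 • c σ = 0)
    (M : IntermediateField F L) [Fintype (M →ₐ[F] L)] (ρ : L) (hρ : ρ ^ 3 + 2 * ρ ^ 2 + 2 * ρ + 2 = 0) :
    hVal c M ρ hρ ≠ 0 := by
  intro h
  have h1 := linearIndependent_algHom_toLinearMap F M L
  rw [Fintype.linearIndependent_iff] at h1
  exact h_ev_ne ρ hρ _ (h2 _) (h1 _ h M.val)

end HAux

theorem hilbert90 (F L : Type) [Field F] [CharZero F] [Field L] [Algebra F L] [IsAlgClosure F L]
    (c : (L ≃ₐ[F] L) → (E L).toAffine.Point) (hc : Coc F L c) (h2 : ∀ σ, 2 • c σ = 0) :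
    ∃ S : R L, IsUnit S ∧ ∀ σ : L ≃ₐ[F] L, mapR (σ : L →+* L) S = rOf (c σ) * S := by
  have : CharZero L := charZero_of_injective_algebraMap (algebraMap F L).injective
  have : IsAlgClosed L := IsAlgClosure.isAlgClosed F
  have : Normal F L := IsAlgClosure.normal F L
  obtain ⟨ρ⟩ := exists_roots L
  obtain ⟨M, hfin, hM⟩ := h_exists_M hc
  have : Fintype (M →ₐ[F] L) := Fintype.ofFinite _
  have key : ∃ a : M, hVal c M ρ.a ρ.ha a ≠ 0 ∧ hVal c M ρ.b ρ.hb a ≠ 0 ∧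
      hVal c M ρ.c ρ.hc a ≠ 0 := by
    by_contra hcon
    push Not at hcon
    let p : Fin 3 → Subspace F M := ![LinearMap.ker (hVal c M ρ.a ρ.ha),
      LinearMap.ker (hVal c M ρ.b ρ.hb), LinearMap.ker (hVal c M ρ.c ρ.hc)]
    have hcov : ⋃ i, (p i : Set M) = Set.univ := by
      rw [Set.eq_univ_iff_forall]
      intro a
      rw [Set.mem_iUnion]
      by_cases h1 : hVal c M ρ.a ρ.ha a = 0
      · exact ⟨0, h1⟩
      · by_cases h3 : hVal c M ρ.b ρ.hb a = 0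
        · exact ⟨1, h3⟩
        · exact ⟨2, hcon a h1 h3⟩
    obtain ⟨i, hi⟩ := Subspace.exists_eq_top_of_iUnion_eq_univ hcov
    fin_cases i
    · exact hVal_ne c h2 M ρ.a ρ.ha (LinearMap.ker_eq_top.1 hi)
    · exact hVal_ne c h2 M ρ.b ρ.hb (LinearMap.ker_eq_top.1 hi)
    · exact hVal_ne c h2 M ρ.c ρ.hc (LinearMap.ker_eq_top.1 hi)
  obtain ⟨a, ha, hb, hc'⟩ := key
  refine ⟨hTheta c M a, isUnit_of_norm _ ?_, fun σ => hTheta_map hc h2 M hM a σ⟩
  rw [norm_eq_prod ρ, hVal_apply, hVal_apply, hVal_apply]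
  exact mul_ne_zero (mul_ne_zero ha hb) hc'

end X11
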