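import Pool.Agent.MP_9ab903_nt.NC.RDefs

set_option autoImplicit false

open Polynomial NumberField IsDedekindDomain
open scoped Classical

namespace X11

/-! ## [NC-PAR] parity (port of SB/PAR.lean) -/

private theorem par_eq_one {a b : WithZero (Multiplicative ℤ)} (ha : a ≤ 1) (hb : b ≤ 1)
    (hab : a * b = 1) : a = 1 := by
  refine le_antisymm ha ?_
  calc (1 : WithZero (Multiplicative ℤ)) = a * b := hab.symm
    _ ≤ a * 1 := mul_le_mul_right hb _
    _ = a := mul_one _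

/-- Proof. `w p = 1` (`p (p² + 2 p + 2) = -2` and `w p ≤ 1`), `w (1 + p) = 1`
(`(1 + p) ((1 + p)² - (1 + p) + 1) = -1`). Put `A = -7 - 4 p + (x - 4) p²`,
`B = (2 p + 2 p²) x² + (8 - p²) x + (-7 - 28 p - 12 p²)`. Then
`A * B = 4 x³ - 4 x² - 40 x - 79 = (2 y + 1)²` and
`B = (3 + 2 p + p²)⁵ + A * ((-2 p - p²) x + (-2 + 6 p + 7 p²))`
(`(3 + 2 p + p²)⁵ = -13 - 42 p + 5 p²`), all modulo the equation of `p`.
If `1 < w x` then `w A = w x`, `w B = w x ^ 2`. If `w x ≤ 1` and `w A < 1` then `w B = 1`. -/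
theorem parity {C : Type} [Field C] (w : Valuation C (WithZero (Multiplicative ℤ)))
    (h2 : w 2 = 1) (p x y : C) (hp : p ^ 3 + 2 * p ^ 2 + 2 * p + 2 = 0)
    (hv : w (3 + 2 * p + p ^ 2) = 1) (h : y ^ 2 + y = x ^ 3 - x ^ 2 - 10 * x - 20) :
    IsSquare (w (-7 + (-4) * p + (x - 4) * p ^ 2)) := by
  -- integral elements
  have hadd : ∀ {a b : C}, w a ≤ 1 → w b ≤ 1 → w (a + b) ≤ 1 := fun ha hb =>
    (w.map_add _ _).trans (max_le ha hb)
  have hmul : ∀ {a b : C}, w a ≤ 1 → w b ≤ 1 → w (a * b) ≤ 1 := fun ha hb => by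
    rw [map_mul]
    exact mul_le_one' ha hb
  have hpow : ∀ {a : C} (n : ℕ), w a ≤ 1 → w (a ^ n) ≤ 1 := fun n ha => by
    rw [map_pow]
    exact pow_le_one' ha n
  have hneg : ∀ {a : C}, w a ≤ 1 → w (-a) ≤ 1 := fun ha => by
    rw [Valuation.map_neg]
    exact ha
  have hnat : ∀ n : ℕ, w (n : C) ≤ 1 := by
    intro n
    induction n with
    | zero => simp
    | succ n ih =>
      push_cast
      exact hadd ih (by simp)
  have hp1 : w p ≤ 1 := by
    by_contra hcon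
    rw [not_le] at hcon
    have e : p ^ 3 = -((2 * p + (2 : C)) * p + 2) := by linear_combination hp
    have h0 : w p ≠ 0 := fun h0 => by
      rw [h0] at hcon
      exact absurd hcon (by simp)
    have h3 : w (2 * p + 2) ≤ w p := by
      refine (w.map_add _ _).trans (max_le ?_ ?_)
      · rw [map_mul, h2, one_mul]
      · rw [h2]
        exact hcon.le
    have h4 : w p < w p ^ 2 := by
      rw [pow_two]
      calc w p = 1 * w p := (one_mul _).symm
        _ < w p * w p := mul_lt_mul_of_pos_right hcon (zero_lt_iff.2 h0)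
    have h5 : w p ^ 2 < w p ^ 3 := by
      rw [pow_succ (w p) 2]
      calc w p ^ 2 = w p ^ 2 * 1 := (mul_one _).symm
        _ < w p ^ 2 * w p := mul_lt_mul_of_pos_left hcon (zero_lt_iff.2 (pow_ne_zero _ h0))
    have h6 : w (p ^ 3) ≤ w p ^ 2 := by
      rw [e, Valuation.map_neg]
      refine (w.map_add _ _).trans (max_le ?_ ?_)
      · rw [map_mul, pow_two]
        exact mul_le_mul_left h3 _
      · rw [h2]
        exact (hcon.trans h4).le
    rw [map_pow] at h6
    exact absurd h5 (not_lt.2 h6)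
  have h2' : w 2 ≤ 1 := h2.le
  have hwp : w p = 1 := by
    refine par_eq_one hp1 (b := w (-(p ^ 2 + 2 * p + 2) )) ?_ ?_
    · exact hneg (hadd (hadd (hpow 2 hp1) (hmul h2' hp1)) h2')
    · rw [← map_mul, ← h2]
      congr 1
      linear_combination -hp
  have hw1p : w (1 + p) = 1 := by
    refine par_eq_one (hadd (by simp) hp1) (b := w (-(1 + p + p ^ 2))) ?_ ?_
    · exact hneg (hadd (hadd (by simp) hp1) (hpow 2 hp1))
    · rw [← map_mul, ← map_one w]
      congr 1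
      linear_combination -hp
  -- the factorisation
  have e1 : (-7 + (-4) * p + (x - 4) * p ^ 2) *
      ((2 * p + 2 * p ^ 2) * x ^ 2 + (8 - p ^ 2) * x + (-7 - 28 * p - 12 * p ^ 2)) =
      (2 * y + 1) ^ 2 := by
    linear_combination (2 * p * x ^ 3 - 9 * p * x ^ 2 - 8 * p * x + 48 * p - 2 * x ^ 3 +
      2 * x ^ 2 - 8 * x + 64) * hp - 4 * h
  have e2 : ((2 * p + 2 * p ^ 2) * x ^ 2 + (8 - p ^ 2) * x + (-7 - 28 * p - 12 * p ^ 2)) =
      (3 + 2 * p + p ^ 2) ^ 5 + (-7 + (-4) * p + (x - 4) * p ^ 2) *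
        ((-2 * p - p ^ 2) * x + (-2 + 6 * p + 7 * p ^ 2)) := by
    linear_combination (-p ^ 7 - 8 * p ^ 6 - 37 * p ^ 5 - 108 * p ^ 4 - 224 * p ^ 3 -
      314 * p ^ 2 + p * x ^ 2 - 11 * p * x - 270 * p + 4 * x - 132) * hp
  have hABw := congrArg w e1
  rw [map_mul, map_pow] at hABw
  have hsub : ∀ {a b : C}, w a ≤ 1 → w b ≤ 1 → w (a - b) ≤ 1 := fun ha hb => by
    rw [sub_eq_add_neg]
    exact hadd ha (hneg hb)
  have hc4 : w (4 : C) ≤ 1 := by exact_mod_cast hnat 4
  have hc6 : w (6 : C) ≤ 1 := by exact_mod_cast hnat 6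
  have hc7 : w (7 : C) ≤ 1 := by exact_mod_cast hnat 7
  have hc8 : w (8 : C) ≤ 1 := by exact_mod_cast hnat 8
  have hc12 : w (12 : C) ≤ 1 := by exact_mod_cast hnat 12
  have hc28 : w (28 : C) ≤ 1 := by exact_mod_cast hnat 28
  rcases lt_or_ge 1 (w x) with hx | hx
  · have hx0 : w x ≠ 0 := by
      intro h0
      rw [h0] at hx
      exact absurd hx (by simp)
    have hx2 : w x < w x ^ 2 := by
      rw [pow_two]
      calc w x = 1 * w x := (one_mul _).symm
        _ < w x * w x := by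
          exact mul_lt_mul_of_pos_right hx (zero_lt_iff.2 hx0)
    have hA : w (-7 + (-4) * p + (x - 4) * p ^ 2) = w x := by
      have e3 : -7 + (-4) * p + (x - 4) * p ^ 2 = (-7 + (-4) * p + (-4) * p ^ 2) + x * p ^ 2 := by
        ring
      have hxp : w (x * p ^ 2) = w x := by rw [map_mul, map_pow, hwp, one_pow, mul_one]
      rw [e3, Valuation.map_add_eq_of_lt_right, hxp]
      rw [hxp]
      refine lt_of_le_of_lt ?_ hx
      exact hadd (hadd (hneg hc7) (hmul (hneg hc4) hp1)) (hmul (hneg hc4) (hpow 2 hp1))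
    have hB : w ((2 * p + 2 * p ^ 2) * x ^ 2 + (8 - p ^ 2) * x + (-7 - 28 * p - 12 * p ^ 2)) =
        w x ^ 2 := by
      have e3 : (2 * p + 2 * p ^ 2) * x ^ 2 + (8 - p ^ 2) * x + (-7 - 28 * p - 12 * p ^ 2) =
          ((8 - p ^ 2) * x + (-7 - 28 * p - 12 * p ^ 2)) + 2 * p * (1 + p) * x ^ 2 := by
        ring
      have hxp : w (2 * p * (1 + p) * x ^ 2) = w x ^ 2 := by
        rw [map_mul, map_mul, map_mul, map_pow, hwp, hw1p, h2, one_mul, one_mul, one_mul]
      rw [e3, Valuation.map_add_eq_of_lt_right, hxp]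
      rw [hxp]
      refine lt_of_le_of_lt ?_ hx2
      refine (w.map_add _ _).trans (max_le ?_ ?_)
      · rw [map_mul]
        calc w (8 - p ^ 2) * w x ≤ 1 * w x := mul_le_mul_left (hsub hc8 (hpow 2 hp1)) _
          _ = w x := one_mul _
      · refine le_trans ?_ hx.le
        exact hsub (hsub (hneg hc7) (hmul hc28 hp1)) (hmul hc12 (hpow 2 hp1))
    rw [hA, hB] at hABw
    rw [hA]
    refine ⟨w (2 * y + 1) / w x, ?_⟩
    rw [div_mul_div_comm, ← pow_two, ← hABw]
    field_simp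
  · have hA : w (-7 + (-4) * p + (x - 4) * p ^ 2) ≤ 1 :=
      hadd (hadd (hneg hc7) (hmul (hneg hc4) hp1)) (hmul (hsub hx hc4) (hpow 2 hp1))
    rcases eq_or_lt_of_le hA with h1 | h1
    · rw [h1]
      exact ⟨1, by simp⟩
    · have hB : w ((2 * p + 2 * p ^ 2) * x ^ 2 + (8 - p ^ 2) * x +
          (-7 - 28 * p - 12 * p ^ 2)) = 1 := by
        have hv5 : w ((3 + 2 * p + p ^ 2) ^ 5) = 1 := by rw [map_pow, hv, one_pow]
        have hG : w ((-2 * p - p ^ 2) * x + (-2 + 6 * p + 7 * p ^ 2)) ≤ 1 :=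
          hadd (hmul (hsub (hmul (hneg h2') hp1) (hpow 2 hp1)) hx)
            (hadd (hadd (hneg h2') (hmul hc6 hp1)) (hmul hc7 (hpow 2 hp1)))
        rw [e2, Valuation.map_add_eq_of_lt_left, hv5]
        rw [hv5, map_mul]
        calc w (-7 + (-4) * p + (x - 4) * p ^ 2) *
              w ((-2 * p - p ^ 2) * x + (-2 + 6 * p + 7 * p ^ 2))
            ≤ w (-7 + (-4) * p + (x - 4) * p ^ 2) * 1 := mul_le_mul_right hG _
          _ = w (-7 + (-4) * p + (x - 4) * p ^ 2) := mul_one _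
          _ < 1 := h1
      rw [hB, mul_one] at hABw
      rw [hABw]
      exact ⟨w (2 * y + 1), pow_two _⟩

end X11
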