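import Pool.Agent.MP_9ab903_nt.NC.R1

set_option autoImplicit false

open Polynomial NumberField IsDedekindDomain
open scoped Classical

namespace X11

/-! ## [CM-R3] descent of invariant classes (file R3.lean) -/

theorem r3_norm_neg {F : Type} [Field F] (u : R F) : Algebra.norm F (-u) = - Algebra.norm F u := by
  obtain ⟨a, b, c, rfl⟩ := trip_surj u
  have h : -(trip a b c) = trip (-a) (-b) (-c) := by
    simp only [trip, map_neg]
    ring
  rw [h, norm_trip, norm_trip]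
  ring

theorem r3_unique {F : Type} [Field F] [CharZero F] [Fact (Irreducible (cubPoly F))] {v v' : R F}
    (h : v ^ 2 = v' ^ 2) (hN : Algebra.norm F v = Algebra.norm F v')
    (h0 : Algebra.norm F v ≠ 0) : v = v' := by
  rcases sq_eq_sq_iff_eq_or_eq_neg.mp h with h1 | h1
  · exact h1
  · exfalso
    rw [h1, r3_norm_neg] at hN
    rw [h1, r3_norm_neg] at h0
    have h2 : 2 * Algebra.norm F v' = 0 := by linear_combination -hN
    rcases mul_eq_zero.1 h2 with h3 | h3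
    · exact two_ne_zero h3
    · rw [h3, neg_zero] at h0
      exact h0 rfl

/-- Invariant classes with a square norm come from `ℚ(π)` (uniqueness of square roots with a given
norm, and Hilbert 90). -/
theorem descend_class {F : Type} [Field F] [NumberField F] [IsGalois ℚ F]
    [Fact (Irreducible (cubPoly F))] (z : R F) (hz : z ≠ 0) (y : F)
    (hN : Algebra.norm F z = y ^ 2)
    (hinv : ∀ σ : F ≃ₐ[ℚ] F, ∃ u : R F, mapR (σ : F →+* F) z = z * u ^ 2) :
    ∃ t : R F, t ≠ 0 ∧ ∃ z0 : R ℚ, mapR (algebraMap ℚ F) z0 = z * t ^ 2 := by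
  have hy : y ≠ 0 := by
    rintro rfl
    have h1 : Algebra.norm F z ≠ 0 := Algebra.norm_ne_zero_iff.mpr hz
    rw [hN] at h1
    simp at h1
  have hcomp : ∀ (σ τ : F ≃ₐ[ℚ] F) (x : R F), mapR (σ : F →+* F) (mapR (τ : F →+* F) x) =
      mapR ((σ * τ : F ≃ₐ[ℚ] F) : F →+* F) x := by
    intro σ τ x
    obtain ⟨a, b, c, rfl⟩ := trip_surj x
    rw [mapR_trip, mapR_trip, mapR_trip]
    rfl
  have hex : ∀ σ : F ≃ₐ[ℚ] F, ∃ u : R F, mapR (σ : F →+* F) z = z * u ^ 2 ∧
      Algebra.norm F u = σ y / y := by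
    intro σ
    obtain ⟨u, hu⟩ := hinv σ
    have h1 : Algebra.norm F (mapR (σ : F →+* F) z) = σ y ^ 2 := by
      rw [norm_mapR, hN, map_pow]
      rfl
    rw [hu, map_mul, map_pow, hN] at h1
    have h2 : (Algebra.norm F u) ^ 2 = (σ y / y) ^ 2 := by
      rw [div_pow, eq_div_iff (pow_ne_zero 2 hy)]
      linear_combination h1
    rcases sq_eq_sq_iff_eq_or_eq_neg.mp h2 with h3 | h3
    · exact ⟨u, hu, h3⟩
    · refine ⟨-u, by rw [hu]; ring, ?_⟩
      rw [r3_norm_neg, h3, neg_neg]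
  choose u hu1 hu2 using hex
  have hu0 : ∀ σ, Algebra.norm F (u σ) ≠ 0 := by
    intro σ
    rw [hu2]
    exact div_ne_zero ((map_ne_zero_iff σ σ.injective).mpr hy) hy
  have hune : ∀ σ, u σ ≠ 0 := by
    intro σ h
    apply hu0 σ
    rw [h]
    exact Algebra.norm_eq_zero_iff.mpr rfl
  -- the cocycle condition
  have hcoc : ∀ σ τ, u (σ * τ) = u σ * mapR (σ : F →+* F) (u τ) := by
    intro σ τ
    apply r3_unique
    · have h1 := hu1 (σ * τ)
      rw [← hcomp, hu1 τ, map_mul, map_pow, hu1 σ] at h1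
      have h2 : z * (u (σ * τ) ^ 2) = z * (u σ * mapR (σ : F →+* F) (u τ)) ^ 2 := by
        rw [← h1]
        ring
      exact mul_left_cancel₀ hz h2
    · rw [map_mul, norm_mapR, hu2, hu2, hu2]
      have h1 : (σ : F →+* F) (τ y / y) = σ (τ y) / σ y := map_div₀ σ _ _
      have h2 : (σ * τ) y = σ (τ y) := rfl
      have h3 : σ y ≠ 0 := (map_ne_zero_iff σ σ.injective).mpr hy
      rw [h1, h2]
      field_simp
    · exact hu0 _
  -- linear independence of the automorphisms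
  have hinj : Function.Injective (fun σ : F ≃ₐ[ℚ] F =>
      ((mapR (σ : F →+* F) : R F →+* R F) : R F →* R F)) := by
    intro σ τ h
    apply AlgEquiv.ext
    intro a
    have h1 := DFunLike.congr_fun h (algebraMap F (R F) a)
    change mapR (σ : F →+* F) (algebraMap F (R F) a) = mapR (τ : F →+* F) (algebraMap F (R F) a) at h1
    rw [mapR_algebraMap, mapR_algebraMap] at h1
    exact (algebraMap F (R F)).injective h1
  have hli := (linearIndependent_monoidHom (R F) (R F)).comp _ hinj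
  obtain ⟨c, hc⟩ : ∃ c : R F, ∑ τ : F ≃ₐ[ℚ] F, u τ * mapR (τ : F →+* F) c ≠ 0 := by
    by_contra hcon
    push Not at hcon
    refine hune 1 (Fintype.linearIndependent_iff.mp hli u ?_ 1)
    funext c
    rw [Finset.sum_apply]
    exact hcon c
  set θ := ∑ τ : F ≃ₐ[ℚ] F, u τ * mapR (τ : F →+* F) c with hθ
  have hσθ : ∀ σ : F ≃ₐ[ℚ] F, u σ * mapR (σ : F →+* F) θ = θ := by
    intro σ
    rw [hθ, map_sum, Finset.mul_sum]
    rw [← Equiv.sum_comp (Equiv.mulLeft σ) (fun τ : F ≃ₐ[ℚ] F => u τ * mapR (τ : F →+* F) c)]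
    refine Finset.sum_congr rfl fun τ _ => ?_
    rw [map_mul, hcomp, Equiv.coe_mulLeft, hcoc]
    ring
  have hfix : ∀ σ : F ≃ₐ[ℚ] F, mapR (σ : F →+* F) (z * θ ^ 2) = z * θ ^ 2 := by
    intro σ
    rw [map_mul, map_pow, hu1]
    have h1 := hσθ σ
    calc z * u σ ^ 2 * mapR (σ : F →+* F) θ ^ 2 = z * (u σ * mapR (σ : F →+* F) θ) ^ 2 := by ring
      _ = z * θ ^ 2 := by rw [h1]
  refine ⟨θ, hc, ?_⟩
  obtain ⟨a, b, d, habd⟩ := trip_surj (z * θ ^ 2)
  rw [habd] at hfix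
  have hfix' : ∀ σ : F ≃ₐ[ℚ] F, σ a = a ∧ σ b = b ∧ σ d = d := by
    intro σ
    have h1 := hfix σ
    rw [mapR_trip] at h1
    exact trip_inj h1
  have hrat : ∀ x : F, (∀ σ : F ≃ₐ[ℚ] F, σ x = x) → ∃ q : ℚ, algebraMap ℚ F q = x := by
    intro x hx
    exact (IsGalois.mem_range_algebraMap_iff_fixed x).mpr hx
  obtain ⟨a0, ha0⟩ := hrat a fun σ => (hfix' σ).1
  obtain ⟨b0, hb0⟩ := hrat b fun σ => (hfix' σ).2.1
  obtain ⟨d0, hd0⟩ := hrat d fun σ => (hfix' σ).2.2
  refine ⟨trip a0 b0 d0, ?_⟩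
  rw [mapR_trip, ha0, hb0, hd0, habd]

end X11
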