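import Pool.Agent.MP_9ab903_nt.NC.RDefs

set_option autoImplicit false

open Polynomial NumberField IsDedekindDomain
open scoped Classical

namespace X11

/-! ## [NC-R4a] the class number of the cubic field of discriminant `-44` (port of
MP_ae0bd0_nt/CM/R4a.lean; `Algebra.discr ℚ (basis 1, π, π²) = -44`, so `|discr (R ℚ)| ≤ 44`, and the
Minkowski bound is `< 2`: `RingOfIntegers.isPrincipalIdealRing_of_abs_discr_lt` may be used) -/

/-- the power basis of `R ℚ` -/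
noncomputable def r4a_pb : PowerBasis ℚ (R ℚ) := AdjoinRoot.powerBasis' (cubPoly_monic ℚ)

theorem r4a_gen : r4a_pb.gen = pr ℚ := AdjoinRoot.powerBasis'_gen _

theorem r4a_dim : r4a_pb.dim = 3 := by
  rw [r4a_pb, AdjoinRoot.powerBasis'_dim, cubPoly_natDegree]

theorem r4a_minpoly : minpoly ℚ (pr ℚ) = cubPoly ℚ := by
  have h1 : minpoly ℚ (AdjoinRoot.root (cubPoly ℚ)) =
      cubPoly ℚ * C (cubPoly ℚ).leadingCoeff⁻¹ :=
    AdjoinRoot.minpoly_root (cubPoly_monic ℚ).ne_zero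
  rw [(cubPoly_monic ℚ).leadingCoeff, inv_one, C_1, mul_one] at h1
  exact h1

theorem r4a_finrank : Module.finrank ℚ (R ℚ) = 3 := by
  rw [r4a_pb.finrank, r4a_dim]

/-- `N (a - π) = f (a)` -/
theorem r4a_norm_sub (a : ℚ) : Algebra.norm ℚ (algebraMap ℚ (R ℚ) a - pr ℚ) =
    a ^ 3 + 2 * a ^ 2 + 2 * a + 2 := by
  have h1 := charpoly_leftMulMatrix r4a_pb
  rw [r4a_gen, r4a_minpoly] at h1
  have h2 := congrArg (Polynomial.eval a) h1
  rw [Matrix.eval_charpoly] at h2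
  rw [Algebra.norm_eq_matrix_det r4a_pb.basis, map_sub]
  have h3 : (Algebra.leftMulMatrix r4a_pb.basis) (algebraMap ℚ (R ℚ) a) = Matrix.scalar _ a := by
    rw [AlgHom.commutes]
    rfl
  rw [h3, h2, ← Polynomial.eval₂_id, eval₂_cubPoly]

theorem r4a_norm_neg_one : Algebra.norm ℚ (-1 : R ℚ) = -1 := by
  have h := Algebra.norm_algebraMap (R := ℚ) (S := R ℚ) (-1 : ℚ)
  rw [r4a_finrank, map_neg, map_one] at h
  rw [h]; norm_num

theorem r4a_norm_pr : Algebra.norm ℚ (pr ℚ) = -2 := by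
  have h := r4a_norm_sub 0
  have h1 : pr ℚ = (-1) * (algebraMap ℚ (R ℚ) 0 - pr ℚ) := by rw [map_zero]; ring
  rw [h1, map_mul, h, r4a_norm_neg_one]; norm_num

theorem r4a_norm_two : Algebra.norm ℚ (algebraMap ℚ (R ℚ) 2 - pr ℚ) = 22 := by
  rw [r4a_norm_sub]; norm_num

theorem r4a_norm_neg : Algebra.norm ℚ (algebraMap ℚ (R ℚ) (-1) - pr ℚ) = 1 := by
  rw [r4a_norm_sub]; norm_num

theorem r4a_discr : Algebra.discr ℚ r4a_pb.basis = -44 := by
  rw [Algebra.discr_powerBasis_eq_norm, r4a_finrank, r4a_gen, r4a_minpoly]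
  have h1 : (aeval (pr ℚ)) (derivative (cubPoly ℚ)) =
      (-1) * pr ℚ * (algebraMap ℚ (R ℚ) 2 - pr ℚ) * (algebraMap ℚ (R ℚ) (-1) - pr ℚ) := by
    have h2 : (aeval (pr ℚ)) (derivative (cubPoly ℚ)) = 3 * pr ℚ ^ 2 + 4 * pr ℚ + 2 := by
      have e : (C 4 : ℚ[X]) = C 2 * C 2 := by rw [← C_mul]; norm_num
      have h3 : derivative (cubPoly ℚ) = C 3 * X ^ 2 + C 4 * X + C 2 := by
        rw [e]
        simp only [cubPoly, derivative_add, derivative_mul, derivative_X_pow, derivative_C,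
          derivative_X]
        norm_num
        ring
      rw [h3]
      simp only [map_add, map_mul, map_pow, aeval_X, map_ofNat]
    rw [h2, map_neg, map_one, map_ofNat]
    linear_combination pr_pow ℚ
  rw [h1, map_mul, map_mul, map_mul, r4a_norm_neg_one, r4a_norm_pr, r4a_norm_two, r4a_norm_neg]
  norm_num

theorem r4a_int : IsIntegral ℤ (pr ℚ) := by
  refine ⟨X ^ 3 + C 2 * X ^ 2 + C 2 * X + C 2, by monicity!, ?_⟩
  simp [pr_pow]
  ring

theorem r4a_abs_discr : |discr (R ℚ)| ≤ 44 := by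
  set b := integralBasis (R ℚ) with hb
  set e := b.indexEquiv r4a_pb.basis with he
  set b' := b.reindex e with hb'
  have h1 : Algebra.discr ℚ r4a_pb.basis =
      (b'.toMatrix r4a_pb.basis).det ^ 2 * Algebra.discr ℚ b' := by
    rw [← Algebra.discr_of_matrix_vecMul, Module.Basis.toMatrix_map_vecMul]
  have h2 : Algebra.discr ℚ b' = (discr (R ℚ) : ℚ) := by
    rw [coe_discr, hb', Module.Basis.coe_reindex, Algebra.discr_reindex]
  have h3 : ∃ Q : Matrix (Fin r4a_pb.dim) (Fin r4a_pb.dim) ℤ,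
      b'.toMatrix r4a_pb.basis = Q.map (Int.castRingHom ℚ) := by
    have hint : ∀ j, IsIntegral ℤ (r4a_pb.basis j) := by
      intro j
      rw [PowerBasis.basis_eq_pow, r4a_gen]
      exact r4a_int.pow _
    have hint' : ∀ j, ∃ x : 𝓞 (R ℚ), algebraMap (𝓞 (R ℚ)) (R ℚ) x = r4a_pb.basis j := fun j =>
      ⟨⟨r4a_pb.basis j, hint j⟩, rfl⟩
    choose x hx using hint'
    refine ⟨Matrix.of fun i j => (RingOfIntegers.basis (R ℚ)).repr (x j) (e.symm i), ?_⟩
    ext i j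
    rw [Module.Basis.toMatrix_apply, Matrix.map_apply, Matrix.of_apply, hb',
      Module.Basis.repr_reindex_apply, ← hx j]
    exact integralBasis_repr_apply (R ℚ) (x j) (e.symm i)
  obtain ⟨Q, hQ⟩ := h3
  rw [r4a_discr, h2, hQ, show (Q.map (Int.castRingHom ℚ)).det = ((Q.det : ℤ) : ℚ) from
    (RingHom.map_det (Int.castRingHom ℚ) Q).symm] at h1
  have h4 : (-44 : ℤ) = Q.det ^ 2 * discr (R ℚ) := by exact_mod_cast h1
  have h5 : Q.det ≠ 0 := by
    intro h0
    rw [h0] at h4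
    norm_num at h4
  have h6 : 1 ≤ Q.det ^ 2 := by
    have := sq_pos_of_pos (abs_pos.2 h5)
    rw [sq_abs] at this
    omega
  have h7 : (44 : ℤ) = Q.det ^ 2 * |discr (R ℚ)| := by
    have := congrArg abs h4
    rw [abs_mul, abs_of_nonneg (sq_nonneg Q.det)] at this
    simpa using this
  rw [h7]
  nlinarith [abs_nonneg (discr (R ℚ))]

theorem cub_pid : IsPrincipalIdealRing (𝓞 (R ℚ)) := by
  apply RingOfIntegers.isPrincipalIdealRing_of_abs_discr_lt
  have h1 : InfinitePlace.nrComplexPlaces (R ℚ) ≤ 1 := by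
    have := InfinitePlace.card_add_two_mul_card_eq_rank (R ℚ)
    rw [r4a_finrank] at this
    omega
  have hpi := Real.pi_gt_d2
  have hpi4 := Real.pi_lt_four
  have h2 : (3.14 / 4 : ℝ) ≤ (Real.pi / 4) ^ InfinitePlace.nrComplexPlaces (R ℚ) := by
    have h0 : Real.pi / 4 ≤ 1 := by linarith
    have h0' : 0 ≤ Real.pi / 4 := by positivity
    calc (3.14 / 4 : ℝ) ≤ Real.pi / 4 := by linarith
      _ = (Real.pi / 4) ^ 1 := (pow_one _).symm
      _ ≤ (Real.pi / 4) ^ InfinitePlace.nrComplexPlaces (R ℚ) := pow_le_pow_of_le_one h0' h0 h1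
  have h5 : ((|discr (R ℚ)| : ℤ) : ℝ) ≤ 44 := by exact_mod_cast r4a_abs_discr
  rw [r4a_finrank]
  have h6 : ((3 : ℕ) : ℝ) ^ 3 / ((Nat.factorial 3 : ℕ) : ℝ) = 27 / 6 := by
    norm_num [Nat.factorial]
  rw [h6]
  refine lt_of_le_of_lt h5 ?_
  calc (44 : ℝ) < (2 * (3.14 / 4) * (27 / 6)) ^ 2 := by norm_num
    _ ≤ (2 * (Real.pi / 4) ^ InfinitePlace.nrComplexPlaces (R ℚ) * (27 / 6)) ^ 2 := by
        apply pow_le_pow_left₀ (by norm_num)
        gcongr

end X11
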