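import Pool.Agent.MP_9ab903_nt.NC.R1
import Pool.Agent.MP_9ab903_nt.SB.V

set_option autoImplicit false

open Polynomial NumberField IsDedekindDomain
open scoped Classical

namespace X11

/-! ## [NC-V] the group `InU2` (port of SB/V.lean; `CM27.v_le_mul` etc. of SB/V.lean may be cited) -/

theorem v_one {K : Type} [Field K] : (1 : R K) = trip 1 0 0 := by
  simp [trip]

theorem v_core {F : Type} [Field F] {w : Valuation F (WithZero (Multiplicative ℤ))}
    (h2 : w 2 = WithZero.exp (-1)) (a b c : F) (ha : w a ≤ 1) (hb : w b ≤ 1) (hc : w c ≤ 1)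
    (h1 : w (2 * (2 * a * c + b ^ 2 - 4 * b * c + 2 * c ^ 2) - (a ^ 2 - 4 * b * c + 4 * c ^ 2))
      ≤ WithZero.exp (-2))
    (h3 : w (2 * (2 * a * c + b ^ 2 - 4 * b * c + 2 * c ^ 2) - (a ^ 2 - 4 * b * c + 4 * c ^ 2)
      - (2 * a * b - 4 * b * c + 2 * c ^ 2)) ≤ WithZero.exp (-2))
    (h5 : w ((2 * a * c + b ^ 2 - 4 * b * c + 2 * c ^ 2) - (2 * a * b - 4 * b * c + 2 * c ^ 2))
      ≤ WithZero.exp (-1)) :
    w a < 1 ∧ w b < 1 ∧ w c < 1 := by
  have h2' : w 2 ≤ WithZero.exp (-1) := h2.le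
  have h4 : w 4 ≤ WithZero.exp (-2) := by
    have := CM27.v_le_mul h2' h2'
    have e : (2 : F) * 2 = 4 := by norm_num
    rw [e] at this
    exact CM27.v_mono this (by norm_num)
  have a0 : w a ≤ WithZero.exp 0 := ha
  have b0 : w b ≤ WithZero.exp 0 := hb
  have c0 : w c ≤ WithZero.exp 0 := hc
  have hbc : w (4 * b * c) ≤ WithZero.exp (-2) := by
    simpa using CM27.v_le_mul (CM27.v_le_mul h4 b0) c0
  have hac : w (2 * a * c) ≤ WithZero.exp (-1) := by
    simpa using CM27.v_le_mul (CM27.v_le_mul h2' a0) c0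
  have hc2 : w (2 * c ^ 2) ≤ WithZero.exp (-1) := by
    simpa using CM27.v_le_mul h2' (CM27.v_le_sq c0)
  have hc4 : w (4 * c ^ 2) ≤ WithZero.exp (-2) := by
    simpa using CM27.v_le_mul h4 (CM27.v_le_sq c0)
  -- `B`
  have hB : w (2 * a * b - 4 * b * c + 2 * c ^ 2) ≤ WithZero.exp (-2) := by
    have e : 2 * a * b - 4 * b * c + 2 * c ^ 2 =
      (2 * (2 * a * c + b ^ 2 - 4 * b * c + 2 * c ^ 2) - (a ^ 2 - 4 * b * c + 4 * c ^ 2)) -
      (2 * (2 * a * c + b ^ 2 - 4 * b * c + 2 * c ^ 2) - (a ^ 2 - 4 * b * c + 4 * c ^ 2)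
      - (2 * a * b - 4 * b * c + 2 * c ^ 2)) := by ring
    rw [e]
    exact w.map_sub_le h1 h3
  -- `C`
  have hC : w (2 * a * c + b ^ 2 - 4 * b * c + 2 * c ^ 2) ≤ WithZero.exp (-1) := by
    have e : 2 * a * c + b ^ 2 - 4 * b * c + 2 * c ^ 2 =
      ((2 * a * c + b ^ 2 - 4 * b * c + 2 * c ^ 2) - (2 * a * b - 4 * b * c + 2 * c ^ 2)) +
      (2 * a * b - 4 * b * c + 2 * c ^ 2) := by ring
    rw [e]
    exact w.map_add_le h5 (CM27.v_mono hB (by norm_num))
  have hb1 : w b < 1 := by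
    apply CM27.v_lt_of_sq
    have e : b ^ 2 = (2 * a * c + b ^ 2 - 4 * b * c + 2 * c ^ 2) - 2 * a * c + 4 * b * c
        - 2 * c ^ 2 := by ring
    rw [e]
    exact w.map_sub_le (w.map_add_le (w.map_sub_le hC hac) (CM27.v_mono hbc (by norm_num))) hc2
  have h2C : w (2 * (2 * a * c + b ^ 2 - 4 * b * c + 2 * c ^ 2)) ≤ WithZero.exp (-2) := by
    exact CM27.v_mono (CM27.v_le_mul h2' hC) (by norm_num)
  have ha1 : w a < 1 := by
    apply CM27.v_lt_of_sq
    have e : a ^ 2 = 2 * (2 * a * c + b ^ 2 - 4 * b * c + 2 * c ^ 2) -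
        (2 * (2 * a * c + b ^ 2 - 4 * b * c + 2 * c ^ 2) - (a ^ 2 - 4 * b * c + 4 * c ^ 2))
        + 4 * b * c - 4 * c ^ 2 := by ring
    rw [e]
    exact CM27.v_mono (w.map_sub_le (w.map_add_le (w.map_sub_le h2C h1) hbc) hc4) (by norm_num)
  have ha1' : w a ≤ WithZero.exp (-1) := CM27.v_lt_one_iff.1 ha1
  have hab : w (2 * a * b) ≤ WithZero.exp (-2) := by
    have := CM27.v_le_mul (CM27.v_le_mul h2' ha1') b0
    exact CM27.v_mono this (by norm_num)
  have hc1 : w c < 1 := by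
    apply CM27.v_sq_of_two h2
    have e : 2 * c ^ 2 = (2 * a * b - 4 * b * c + 2 * c ^ 2) - 2 * a * b + 4 * b * c := by ring
    rw [e]
    exact w.map_add_le (w.map_sub_le hB hab) hbc
  exact ⟨ha1, hb1, hc1⟩

theorem InU2.mul {F : Type} [Field F] {w : Valuation F (WithZero (Multiplicative ℤ))}
    (h2 : w 2 < 1) {z z' : R F} (h : InU2 w z) (h' : InU2 w z') : InU2 w (z * z') := by
  obtain ⟨u, a, b, c, h, ha, hb, hc⟩ := h
  obtain ⟨u', a', b', c', h', ha', hb', hc'⟩ := h'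
  have a1 : w a ≤ 1 := by
    have : a = (a - 1) + 1 := by ring
    rw [this]
    exact w.map_add_le ha.le (by simp)
  have a1' : w a' ≤ 1 := by
    have : a' = (a' - 1) + 1 := by ring
    rw [this]
    exact w.map_add_le ha'.le (by simp)
  have hbc' : w (b * c') ≤ 1 := by rw [map_mul]; exact mul_le_one' hb.le hc'
  have hcb' : w (c * b') ≤ 1 := by rw [map_mul]; exact mul_le_one' hc hb'.le
  have hcc' : w (c * c') ≤ 1 := by rw [map_mul]; exact mul_le_one' hc hc'
  have t1 : w (2 * (b * c' + c * b')) < 1 := by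
    rw [map_mul]
    exact mul_lt_one_of_lt_of_le h2 (w.map_add_le hbc' hcb')
  have t2 : w (2 * (c * c')) < 1 := by
    rw [map_mul]
    exact mul_lt_one_of_lt_of_le h2 hcc'
  have t4 : w (4 * (c * c')) < 1 := by
    have e : 4 * (c * c') = 2 * (2 * (c * c')) := by ring
    rw [e, map_mul]
    exact mul_lt_one_of_lt_of_le h2 t2.le
  refine ⟨u * u', a * a' - 2 * (b * c' + c * b') + 4 * (c * c'),
    a * b' + b * a' - 2 * (b * c' + c * b') + 2 * (c * c'),
    a * c' + b * b' + c * a' - 2 * (b * c' + c * b') + 2 * (c * c'), ?_, ?_, ?_, ?_⟩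
  · have e : z * z' * (u * u') ^ 2 = (z * u ^ 2) * (z' * u' ^ 2) := by ring
    rw [e, h, h']
    exact r1_trip_mul _ _ _ _ _ _
  · have e : a * a' - 2 * (b * c' + c * b') + 4 * (c * c') - 1
        = (a - 1) * a' + (a' - 1) - 2 * (b * c' + c * b') + 4 * (c * c') := by ring
    rw [e]
    refine w.map_add_lt (w.map_sub_lt (w.map_add_lt ?_ ha') t1) t4
    rw [map_mul]
    exact mul_lt_one_of_lt_of_le ha a1'
  · refine w.map_add_lt (w.map_sub_lt (w.map_add_lt ?_ ?_) t1) t2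
    · rw [map_mul, mul_comm]
      exact mul_lt_one_of_lt_of_le hb' a1
    · rw [map_mul]
      exact mul_lt_one_of_lt_of_le hb a1'
  · refine w.map_add_le (w.map_sub_le (w.map_add_le (w.map_add_le ?_ ?_) ?_) t1.le) t2.le
    · rw [map_mul]
      exact mul_le_one' a1 hc'
    · rw [map_mul]
      exact mul_le_one' hb.le hb'.le
    · rw [map_mul]
      exact mul_le_one' hc a1'

theorem InU2.sq {F : Type} [Field F] (w : Valuation F (WithZero (Multiplicative ℤ)))
    (t : R F) (ht : IsUnit t) : InU2 w (t ^ 2) := by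
  obtain ⟨v, rfl⟩ := ht
  refine ⟨((v⁻¹ : (R F)ˣ) : R F), 1, 0, 0, ?_, by simp, by simp, by simp⟩
  rw [← mul_pow, Units.mul_inv, one_pow, v_one]

theorem InU2.mapR {F : Type} [Field F] {w w' : Valuation F (WithZero (Multiplicative ℤ))}
    (σ : F →+* F) (hw : ∀ x, w' x = w (σ x)) {z : R F} (h : InU2 w' z) :
    InU2 w (X11.mapR σ z) := by
  obtain ⟨u, a, b, c, h, ha, hb, hc⟩ := h
  refine ⟨X11.mapR σ u, σ a, σ b, σ c, ?_, ?_, ?_, ?_⟩
  · rw [← mapR_trip, ← h, map_mul, map_pow]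
  · rwa [← map_one σ, ← map_sub, ← hw]
  · rwa [← hw]
  · rwa [← hw]

/-- `-1 - π` is not in the group. (`π` is a uniformiser of a totally ramified extension of degree
`3`: if `(-1 - π) u² = a + b π + c π²`, `u = u₀ + u₁ π + u₂ π²`, then `u` is integral (otherwise
multiply by a power of `2` and get a contradiction as in SB/V.lean) and the coefficient of `π` is
congruent to `-u₀²` modulo the maximal ideal, the coefficient of `1` as well.) -/
theorem not_inU2 {F : Type} [Field F] (w : Valuation F (WithZero (Multiplicative ℤ)))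
    (h2 : w 2 = WithZero.exp (-1)) : ¬ InU2 w (-1 - pr F) := by
  rintro ⟨u, a, b, c, h, ha, hb, hc⟩
  obtain ⟨a1, b1, c1, rfl⟩ := trip_surj u
  have hpr : -1 - pr F = trip (-1) (-1) 0 := by
    simp only [trip, map_neg, map_one, map_zero]
    ring
  rw [hpr, _root_.sq, r1_trip_mul, r1_trip_mul] at h
  obtain ⟨e1, e2, e3⟩ := trip_inj h
  have e1' : 2 * (2 * a1 * c1 + b1 ^ 2 - 4 * b1 * c1 + 2 * c1 ^ 2)
      - (a1 ^ 2 - 4 * b1 * c1 + 4 * c1 ^ 2) = a := by
    rw [← e1]; ring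
  have e2' : 2 * (2 * a1 * c1 + b1 ^ 2 - 4 * b1 * c1 + 2 * c1 ^ 2)
      - (a1 ^ 2 - 4 * b1 * c1 + 4 * c1 ^ 2) - (2 * a1 * b1 - 4 * b1 * c1 + 2 * c1 ^ 2) = b := by
    rw [← e2]; ring
  have e3' : (2 * a1 * c1 + b1 ^ 2 - 4 * b1 * c1 + 2 * c1 ^ 2)
      - (2 * a1 * b1 - 4 * b1 * c1 + 2 * c1 ^ 2) = c := by
    rw [← e3]; ring
  have h2lt : w 2 < 1 := CM27.v_lt_one_iff.2 h2.le
  have hale : w a ≤ 1 := by
    have : a = (a - 1) + 1 := by ring
    rw [this]
    exact w.map_add_le ha.le (by simp)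
  -- the maximum of the values
  set M := max (w a1) (max (w b1) (w c1)) with hM
  by_cases hM1 : M ≤ 1
  · have ha1 : w a1 ≤ 1 := (le_max_left _ _).trans hM1
    have hb1 : w b1 ≤ 1 := ((le_max_left _ _).trans (le_max_right _ _)).trans hM1
    have hc1 : w c1 ≤ 1 := ((le_max_right _ _).trans (le_max_right _ _)).trans hM1
    have hB : w (2 * (a1 * b1 - 2 * (b1 * c1) + c1 ^ 2)) < 1 := by
      rw [map_mul]
      refine mul_lt_one_of_lt_of_le h2lt (w.map_add_le (w.map_sub_le ?_ ?_) ?_)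
      · rw [map_mul]; exact mul_le_one' ha1 hb1
      · rw [map_mul, map_mul]; exact mul_le_one' h2lt.le (mul_le_one' hb1 hc1)
      · rw [map_pow]; exact pow_le_one' hc1 2
    have hone : w 1 < 1 := by
      have : (1 : F) = b + 2 * (a1 * b1 - 2 * (b1 * c1) + c1 ^ 2) - (a - 1) := by
        rw [← e1', ← e2']; ring
      rw [this]
      exact w.map_sub_lt (w.map_add_lt hb hB) ha
    rw [map_one] at hone
    exact lt_irrefl _ hone
  · have hM1' : 1 < M := not_le.1 hM1
    have hM0 : M ≠ 0 := (lt_trans zero_lt_one hM1').ne'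
    set n := WithZero.log M with hn
    have hMn : WithZero.exp n = M := WithZero.exp_log hM0
    have hn1 : 1 ≤ n := by
      have : (0:ℤ) < n := by
        rw [← WithZero.exp_lt_exp, hMn]
        exact hM1'
      omega
    set t : F := 2 ^ n with ht
    have hwt : w t = WithZero.exp (-n) := by
      rw [ht, map_zpow₀, h2, ← WithZero.exp_zsmul]
      congr 1
      simp
    have hwtM : w t * M = 1 := by
      rw [hwt, ← hMn, ← WithZero.exp_add]
      simp
    have key := v_core h2 (t * a1) (t * b1) (t * c1) ?_ ?_ ?_ ?_ ?_ ?_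
    · obtain ⟨k1, k2, k3⟩ := key
      have : w t * M < 1 := by
        rw [map_mul] at k1 k2 k3
        rw [hM]
        rcases max_choice (w a1) (max (w b1) (w c1)) with h | h
        · rw [h]; exact k1
        · rw [h]
          rcases max_choice (w b1) (w c1) with h' | h'
          · rw [h']; exact k2
          · rw [h']; exact k3
      rw [hwtM] at this
      exact lt_irrefl _ this
    · rw [map_mul, ← hwtM]
      exact mul_le_mul_right (le_max_left _ _) _
    · rw [map_mul, ← hwtM]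
      exact mul_le_mul_right ((le_max_left _ _).trans (le_max_right _ _)) _
    · rw [map_mul, ← hwtM]
      exact mul_le_mul_right ((le_max_right _ _).trans (le_max_right _ _)) _
    · have e : 2 * (2 * (t * a1) * (t * c1) + (t * b1) ^ 2 - 4 * (t * b1) * (t * c1)
          + 2 * (t * c1) ^ 2) - ((t * a1) ^ 2 - 4 * (t * b1) * (t * c1) + 4 * (t * c1) ^ 2)
          = t ^ 2 * a := by rw [← e1']; ring
      rw [e]
      have h5 : w a ≤ WithZero.exp 0 := hale
      exact CM27.v_mono (CM27.v_le_mul (CM27.v_le_sq hwt.le) h5) (by omega)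
    · have e : 2 * (2 * (t * a1) * (t * c1) + (t * b1) ^ 2 - 4 * (t * b1) * (t * c1)
          + 2 * (t * c1) ^ 2) - ((t * a1) ^ 2 - 4 * (t * b1) * (t * c1) + 4 * (t * c1) ^ 2)
          - (2 * (t * a1) * (t * b1) - 4 * (t * b1) * (t * c1) + 2 * (t * c1) ^ 2)
          = t ^ 2 * b := by rw [← e2']; ring
      rw [e]
      have h5 : w b ≤ WithZero.exp (-1) := CM27.v_lt_one_iff.1 hb
      exact CM27.v_mono (CM27.v_le_mul (CM27.v_le_sq hwt.le) h5) (by omega)
    · have e : (2 * (t * a1) * (t * c1) + (t * b1) ^ 2 - 4 * (t * b1) * (t * c1)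
          + 2 * (t * c1) ^ 2) - (2 * (t * a1) * (t * b1) - 4 * (t * b1) * (t * c1)
          + 2 * (t * c1) ^ 2) = t ^ 2 * c := by rw [← e3']; ring
      rw [e]
      have h5 : w c ≤ WithZero.exp 0 := hc
      exact CM27.v_mono (CM27.v_le_mul (CM27.v_le_sq hwt.le) h5) (by omega)

end X11
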