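import Pool.Agent.MP_9ab903_nt.NC.R4a
import Pool.Agent.MP_9ab903_nt.NC.R4b
import Pool.Agent.MP_ae0bd0_nt.CM.R4c

set_option autoImplicit false

open Polynomial NumberField IsDedekindDomain
open scoped Classical

namespace X11

/-! ## [NC-R4c] elements with even valuations (port of MP_ae0bd0_nt/CM/R4c.lean) -/

theorem cub_even (z : R ℚ) (hz : z ≠ 0)
    (h : ∀ v : HeightOneSpectrum (𝓞 (R ℚ)), IsSquare (v.valuation (R ℚ) z))
    (hN : 0 < Algebra.norm ℚ z) :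
    ∃ (j : ℕ) (s : R ℚ), j < 2 ∧ s ≠ 0 ∧ z = (-1 - pr ℚ) ^ j * s ^ 2 := by
  have hpid := cub_pid
  obtain ⟨a, b, hb, hab⟩ := IsFractionRing.div_surjective (A := 𝓞 (R ℚ)) z
  have hb0 : b ≠ 0 := nonZeroDivisors.ne_zero hb
  have hb1 : algebraMap (𝓞 (R ℚ)) (R ℚ) b ≠ 0 := by
    intro h0
    exact hb0 ((FaithfulSMul.algebraMap_injective (𝓞 (R ℚ)) (R ℚ)) (by rw [h0, map_zero]))
  have ha0 : a ≠ 0 := by
    rintro rfl
    rw [map_zero, zero_div] at hab
    exact hz hab.symm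
  have e1 : algebraMap (𝓞 (R ℚ)) (R ℚ) (a * b) = z * (algebraMap (𝓞 (R ℚ)) (R ℚ) b) ^ 2 := by
    rw [map_mul, ← hab]
    field_simp
  obtain ⟨u, s, hs⟩ := CM27.R4c_pid (a * b) (mul_ne_zero ha0 hb0) (by
    intro v
    have h1 : v.valuation (R ℚ) (algebraMap (𝓞 (R ℚ)) (R ℚ) (a * b)) = v.intValuation (a * b) :=
      v.valuation_of_algebraMap _
    rw [← h1, e1, map_mul, map_pow]
    exact (h v).mul (IsSquare.sq _))
  have hs0 : s ≠ 0 := by
    rintro rfl
    simp at hs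
    exact hs.elim ha0 hb0
  set S := algebraMap (𝓞 (R ℚ)) (R ℚ) s with hS
  set B := algebraMap (𝓞 (R ℚ)) (R ℚ) b with hB
  have hS0 : S ≠ 0 := by
    intro h0
    exact hs0 ((FaithfulSMul.algebraMap_injective (𝓞 (R ℚ)) (R ℚ)) (by
      rw [← hS, h0, map_zero]))
  have e2 : z = ((u : 𝓞 (R ℚ)) : R ℚ) * (S / B) ^ 2 := by
    have h3 : z * B ^ 2 = ((u : 𝓞 (R ℚ)) : R ℚ) * S ^ 2 := by
      rw [← e1, hs, map_mul, map_pow]
    rw [div_pow]
    field_simp
    exact h3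
  have hq : S / B ≠ 0 := div_ne_zero hS0 hb1
  have hNu : 0 < Algebra.norm ℚ ((u : 𝓞 (R ℚ)) : R ℚ) := by
    rw [e2, map_mul, map_pow] at hN
    have hne : Algebra.norm ℚ (S / B) ≠ 0 := Algebra.norm_ne_zero_iff.2 hq
    have hpos : 0 < (Algebra.norm ℚ (S / B)) ^ 2 := by positivity
    exact (pos_iff_pos_of_mul_pos hN).2 hpos
  obtain ⟨j, t, hj, ht, htu⟩ := cub_units u hNu
  refine ⟨j, t * (S / B), hj, mul_ne_zero ht hq, ?_⟩
  rw [e2, htu]; ring

theorem r4c_norm_trip (a b c : ℚ) :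
    Algebra.norm ℚ (trip a b c : R ℚ) = a ^ 3 - 2 * a ^ 2 * b + 2 * a * b ^ 2 - 4 * b * c ^ 2 +
      4 * b ^ 2 * c - 2 * b ^ 3 + 4 * c ^ 3 + 2 * a * b * c - 4 * a * c ^ 2 := by
  have h := norm_trip (K := ℚ) a b c
  convert h
  · rfl
  · rfl
  · exact Subsingleton.elim _ _

theorem r4c_pr_int : IsIntegral ℤ (pr ℚ) := by
  refine ⟨X ^ 3 + C 2 * X ^ 2 + C 2 * X + C 2, by monicity!, ?_⟩
  simp only [eval₂_add, eval₂_mul, eval₂_pow, eval₂_X, eval₂_C]
  have h := pr_pow ℚ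
  rw [h]
  simp only [map_ofNat]
  ring

/-- `ϖ` as an algebraic integer. -/
noncomputable def vpO : 𝓞 (R ℚ) := ⟨vp ℚ, by
  have h1 := r4c_pr_int
  have h2 : vp ℚ = 3 + 2 * pr ℚ + pr ℚ ^ 2 := by
    simp only [vp, trip, map_ofNat, map_one, one_mul]
  rw [h2]
  have h3 : IsIntegral ℤ (3 : R ℚ) := by exact_mod_cast isIntegral_natCast (R := ℤ) 3
  have h4 : IsIntegral ℤ (2 : R ℚ) := by exact_mod_cast isIntegral_natCast (R := ℤ) 2
  exact (h3.add (h4.mul h1)).add (h1.pow 2)⟩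

theorem vpO_coe : algebraMap (𝓞 (R ℚ)) (R ℚ) vpO = vp ℚ := rfl

theorem norm_vp : Algebra.norm ℚ (vp ℚ) = 11 := by
  rw [vp, r4c_norm_trip]
  norm_num

theorem vpO_prime : (Ideal.span {vpO}).IsPrime := by
  apply Ideal.isPrime_of_irreducible_absNorm
  rw [Ideal.absNorm_span_singleton]
  have h1 : ((Algebra.norm ℤ vpO : ℤ) : ℚ) = 11 := by
    rw [Algebra.coe_norm_int]
    exact norm_vp
  have h2 : Algebra.norm ℤ vpO = 11 := by exact_mod_cast h1
  rw [h2]
  exact (by norm_num : Nat.Prime 11)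

theorem vpO_ne : vpO ≠ 0 := by
  intro h
  have h1 := norm_vp
  rw [← vpO_coe, h, map_zero, Algebra.norm_zero] at h1
  norm_num at h1

/-- the prime above `11` which is ramified over `ℚ` -/
noncomputable def v11 : HeightOneSpectrum (𝓞 (R ℚ)) :=
  ⟨Ideal.span {vpO}, vpO_prime, by rw [Ne, Ideal.span_singleton_eq_bot]; exact vpO_ne⟩

theorem v11_vp : v11.valuation (R ℚ) (vp ℚ) = WithZero.exp (-1 : ℤ) := by
  rw [← vpO_coe, HeightOneSpectrum.valuation_of_algebraMap]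
  exact v11.intValuation_singleton vpO_ne rfl

theorem val_vp (v : HeightOneSpectrum (𝓞 (R ℚ))) (hv : v ≠ v11) :
    v.valuation (R ℚ) (vp ℚ) = 1 := by
  rw [← vpO_coe, HeightOneSpectrum.valuation_of_algebraMap, v.intValuation_eq_one_iff]
  intro h
  apply hv
  have h1 : v11.asIdeal ≤ v.asIdeal := by
    change Ideal.span {vpO} ≤ _
    rw [Ideal.span_singleton_le_iff_mem]
    exact h
  have h2 := v11.isMaximal.eq_of_le v.isPrime.ne_top h1
  exact (HeightOneSpectrum.ext h2).symm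

theorem cub_even' (z : R ℚ) (hz : z ≠ 0)
    (h : ∀ v : HeightOneSpectrum (𝓞 (R ℚ)), v.valuation (R ℚ) (vp ℚ) = 1 →
      IsSquare (v.valuation (R ℚ) z))
    (n : ℚ) (hN : Algebra.norm ℚ z = n ^ 2) :
    ∃ (j : ℕ) (s : R ℚ), j < 2 ∧ s ≠ 0 ∧ z = (-1 - pr ℚ) ^ j * s ^ 2 := by
  have hn0 : n ≠ 0 := by
    rintro rfl
    have h1 : Algebra.norm ℚ z ≠ 0 := Algebra.norm_ne_zero_iff.2 hz
    rw [hN] at h1
    norm_num at h1
  have hpos : 0 < n ^ 2 := by positivity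
  by_cases hsq : IsSquare (v11.valuation (R ℚ) z)
  · refine cub_even z hz (fun v => ?_) (by rw [hN]; exact hpos)
    by_cases hv : v = v11
    · rw [hv]; exact hsq
    · exact h v (val_vp v hv)
  · exfalso
    have hvp0 : vp ℚ ≠ 0 := by
      intro h0
      have h1 := v11_vp
      rw [h0, map_zero] at h1
      exact WithZero.exp_ne_zero h1.symm
    have hzv0 : v11.valuation (R ℚ) z ≠ 0 := (Valuation.ne_zero_iff _).2 hz
    obtain ⟨k, hk⟩ : ∃ k : ℤ, v11.valuation (R ℚ) z = WithZero.exp k :=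
      ⟨_, (WithZero.exp_log hzv0).symm⟩
    have hodd : Odd k := by
      rw [← Int.not_even_iff_odd]
      rintro ⟨l, hl⟩
      exact hsq ⟨WithZero.exp l, by rw [hk, hl, WithZero.exp_add]⟩
    obtain ⟨l, hl⟩ := hodd
    obtain ⟨j, s, -, hs, hzs⟩ := cub_even (z * vp ℚ) (mul_ne_zero hz hvp0) (fun v => by
      rw [map_mul]
      by_cases hv : v = v11
      · rw [hv, v11_vp, hk, ← WithZero.exp_add]
        refine ⟨WithZero.exp l, ?_⟩
        rw [← WithZero.exp_add]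
        congr 1
        omega
      · rw [val_vp v hv, mul_one]
        exact h v (val_vp v hv)) (by
      rw [map_mul, hN, norm_vp]
      positivity)
    have hN2 : Algebra.norm ℚ (z * vp ℚ) = Algebra.norm ℚ ((-1 - pr ℚ) ^ j * s ^ 2) := by
      rw [hzs]
    have heps : Algebra.norm ℚ (-1 - pr ℚ : R ℚ) = 1 := by
      have e : (-1 - pr ℚ : R ℚ) = trip (-1) (-1) 0 := by
        simp only [trip, map_neg, map_one, map_zero]
        ring
      rw [e, r4c_norm_trip]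
      norm_num
    rw [map_mul, map_mul, map_pow, map_pow, heps, one_pow, one_mul, hN, norm_vp] at hN2
    set q := Algebra.norm ℚ s with hq
    have h11 : (q / n) ^ 2 = 11 := by
      rw [div_pow, ← hN2]
      field_simp
    have h12 : IsSquare (11 : ℚ) := ⟨q / n, by rw [← h11, pow_two]⟩
    have h13 : IsSquare (11 : ℕ) := by
      have := Rat.isSquare_natCast_iff (n := 11)
      exact this.1 (by exact_mod_cast h12)
    exact (Nat.Prime.prime (by norm_num : Nat.Prime 11)).irreducible.not_isSquare h13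

end X11
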