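import Pool.Agent.MP_9ab903_nt.NC.R1

set_option autoImplicit false

open Polynomial NumberField IsDedekindDomain
open scoped Classical

namespace X11

/-! ## [NC-R4e] valuations at `2` and at the good primes (port of MP_ae0bd0_nt/CM/R4e.lean) -/

/-- The norm form. -/
private def r4e_N {A : Type*} [CommRing A] (a b c : A) : A :=
  a ^ 3 - 2 * a ^ 2 * b + 2 * a * b ^ 2 - 4 * b * c ^ 2 +
      4 * b ^ 2 * c - 2 * b ^ 3 + 4 * c ^ 3 + 2 * a * b * c - 4 * a * c ^ 2

private theorem r4e_N_int (a b c : ℤ) {A : Type*} [CommRing A] :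
    ((r4e_N a b c : ℤ) : A) = r4e_N (a : A) b c := by
  simp only [r4e_N]; push_cast; ring

section gen
variable {K : Type} [Field K]

private theorem r4e_conj (a b c : ℤ) :
    trip (a : K) b c * trip ((a ^ 2 - 2 * a * b - 2 * b * c + 2 * b ^ 2 : ℤ) : K)
      ((-(a * b) - 4 * b * c + 2 * b ^ 2 + 2 * c ^ 2 : ℤ) : K)
      ((-(a * c) - 2 * b * c + b ^ 2 + 2 * c ^ 2 : ℤ) : K) = ((r4e_N a b c : ℤ) : R K) := by
  have h := pr_pow K
  simp only [trip, r4e_N, map_intCast]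
  push_cast
  linear_combination ((-2 * (a : R K) * b * c + 2 * (a : R K) * c ^ 2 + 2 * (b : R K) * c ^ 2
    - 2 * (b : R K) ^ 2 * c + (b : R K) ^ 3 - 2 * (c : R K) ^ 3) +
    (-((a : R K) * c ^ 2) - 2 * (b : R K) * c ^ 2 + (b : R K) ^ 2 * c + 2 * (c : R K) ^ 3) * pr K) * h

private theorem r4e_smul (k : ℤ) (x y z : K) :
    trip ((k : K) * x) (k * y) (k * z) = (k : R K) * trip x y z := by
  simp only [trip, map_mul, map_intCast]
  ring

private theorem r4e_two (a b c : ℤ) :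
    trip ((2 * a : ℤ) : K) (b : K) (c : K) =
      pr K * trip ((b - 2 * a : ℤ) : K) ((c - 2 * a : ℤ) : K) ((-a : ℤ) : K) := by
  have h := pr_pow K
  simp only [trip, map_intCast]
  push_cast
  linear_combination (a : R K) * h

private theorem r4e_pr3 : pr K ^ 3 =
    ((-2 : ℤ) : R K) * trip ((1 : ℤ) : K) ((1 : ℤ) : K) ((1 : ℤ) : K) := by
  have h := pr_pow K
  simp only [trip, map_intCast]
  push_cast
  linear_combination h

private theorem r4e_rho2 : trip ((1 : ℤ) : K) ((1 : ℤ) : K) ((1 : ℤ) : K) *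
    trip ((-1 : ℤ) : K) ((-1 : ℤ) : K) ((0 : ℤ) : K) = 1 := by
  have h := pr_pow K
  simp only [trip, map_intCast]
  push_cast
  linear_combination -h

private theorem r4e_trip_int (a b c : ℤ) :
    trip (a : K) (b : K) (c : K) = (a : R K) + (b : R K) * pr K + (c : R K) * pr K ^ 2 := by
  simp only [trip, map_intCast]

end gen

private theorem r4e_norm (a b c : ℚ) : Algebra.norm ℚ (trip a b c) = r4e_N a b c := by
  have h1 := norm_trip a b c
  have h2 : (DivisionRing.toRatAlgebra : Algebra ℚ (R ℚ)) =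
    (inferInstanceAs (Algebra ℚ (AdjoinRoot (cubPoly ℚ)))) := Subsingleton.elim _ _
  unfold r4e_N
  rw [← h1]
  congr!

private theorem r4e_ne {z : R ℚ} (hz : z ≠ 0) : Algebra.norm ℚ z ≠ 0 := by
  rw [Ne, Algebra.norm_eq_zero_iff]
  exact hz

/-- modulo a good prime the cubic has no root -/
private theorem r4e_no_root {p : ℕ} (hp : GoodPrime p) (x : ZMod p) :
    x ^ 3 + 2 * x ^ 2 + 2 * x + 2 ≠ 0 := by
  intro hx
  -- `1 + x` is a root of `X³ - X² + X + 1`
  apply hp.2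
  refine ⟨1 + x, ?_⟩
  linear_combination hx

/-- modulo a good prime the norm form is anisotropic -/
private theorem r4e_aniso {p : ℕ} (hp : GoodPrime p) {a b c : ℤ}
    (h : (p : ℤ) ∣ r4e_N a b c) : (p : ℤ) ∣ a ∧ (p : ℤ) ∣ b ∧ (p : ℤ) ∣ c := by
  haveI : Fact p.Prime := ⟨hp.1⟩
  haveI : Fact (Irreducible (cubPoly (ZMod p))) :=
    ⟨irreducible_of_no_root fun x hx => r4e_no_root hp x hx⟩
  have h1 : ((r4e_N a b c : ℤ) : ZMod p) = 0 := (ZMod.intCast_zmod_eq_zero_iff_dvd _ _).2 h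
  rw [r4e_N_int] at h1
  have h2 : Algebra.norm (ZMod p) (trip (a : ZMod p) (b : ZMod p) (c : ZMod p)) = 0 := by
    rw [norm_trip]
    exact h1
  have h3 : trip (a : ZMod p) (b : ZMod p) (c : ZMod p) = trip 0 0 0 := by
    rw [Algebra.norm_eq_zero_iff] at h2
    rw [h2]
    simp [trip]
  obtain ⟨ha, hb, hc⟩ := trip_inj h3
  exact ⟨(ZMod.intCast_zmod_eq_zero_iff_dvd _ _).1 ha, (ZMod.intCast_zmod_eq_zero_iff_dvd _ _).1 hb,
    (ZMod.intCast_zmod_eq_zero_iff_dvd _ _).1 hc⟩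

section
variable (v : HeightOneSpectrum (𝓞 (R ℚ)))

private theorem r4e_int_le (n : ℤ) : v.valuation (R ℚ) (n : R ℚ) ≤ 1 := by
  have h := v.valuation_le_one (K := R ℚ) (n : 𝓞 (R ℚ))
  simpa using h

private theorem r4e_pr_le : v.valuation (R ℚ) (pr ℚ) ≤ 1 := by
  have hint : IsIntegral ℤ (pr ℚ) := by
    refine ⟨X ^ 3 + C 2 * X ^ 2 + C 2 * X + C 2, by monicity!, ?_⟩
    simp only [eval₂_add, eval₂_mul, eval₂_pow, eval₂_X, eval₂_C]
    rw [pr_pow]
    simp only [map_ofNat]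
    ring
  have h := v.valuation_le_one (K := R ℚ) (⟨pr ℚ, hint⟩ : 𝓞 (R ℚ))
  exact h

private theorem r4e_trip_le (a b c : ℤ) :
    v.valuation (R ℚ) (trip (a : ℚ) (b : ℚ) (c : ℚ)) ≤ 1 := by
  have h1 := r4e_pr_le v
  rw [r4e_trip_int]
  refine (Valuation.map_add _ _ _).trans (max_le ((Valuation.map_add _ _ _).trans
    (max_le (r4e_int_le v a) ?_)) ?_)
  · rw [map_mul]
    exact mul_le_one' (r4e_int_le v b) h1
  · rw [map_mul, map_pow]
    exact mul_le_one' (r4e_int_le v c) (pow_le_one' h1 2)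

private theorem r4e_eq_one {x y : R ℚ} (hx : v.valuation (R ℚ) x ≤ 1)
    (hy : v.valuation (R ℚ) y ≤ 1) (h : v.valuation (R ℚ) (x * y) = 1) :
    v.valuation (R ℚ) x = 1 := by
  refine le_antisymm hx ?_
  by_contra hc
  have hc' := lt_of_not_ge hc
  rw [map_mul] at h
  have h3 : v.valuation (R ℚ) x * v.valuation (R ℚ) y ≤ v.valuation (R ℚ) x * 1 :=
    mul_le_mul_right hy _
  rw [mul_one, h] at h3
  exact absurd h3 (not_le_of_gt hc')

private theorem r4e_coprime {p : ℕ} (hp : p.Prime) (hv : v.valuation (R ℚ) ((p : ℤ) : R ℚ) < 1)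
    {n : ℤ} (hn : ¬ (p : ℤ) ∣ n) : v.valuation (R ℚ) (n : R ℚ) = 1 := by
  have h1 : IsCoprime (p : ℤ) n := by
    rw [Prime.coprime_iff_not_dvd (Nat.prime_iff_prime_int.1 hp)]
    exact hn
  obtain ⟨x, y, hxy⟩ := h1
  have h2 : v.valuation (R ℚ) ((y * n : ℤ) : R ℚ) = 1 := by
    refine le_antisymm (r4e_int_le v _) ?_
    by_contra hc
    have hc' := lt_of_not_ge hc
    have h3 : v.valuation (R ℚ) (((x * p + y * n : ℤ)) : R ℚ) < 1 := by
      push_cast
      refine (Valuation.map_add _ _ _).trans_lt (max_lt ?_ ?_)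
      · rw [map_mul]
        have h4 := r4e_int_le v x
        calc v.valuation (R ℚ) (x : R ℚ) * v.valuation (R ℚ) (p : R ℚ)
            ≤ 1 * v.valuation (R ℚ) (p : R ℚ) := mul_le_mul_left h4 _
          _ < 1 := by rw [one_mul]; simpa using hv
      · simpa using hc'
    rw [hxy] at h3
    simp at h3
  push_cast at h2
  rw [mul_comm] at h2
  exact r4e_eq_one v (r4e_int_le v n) (r4e_int_le v y) h2

private theorem r4e_pr_cube : v.valuation (R ℚ) (pr ℚ) ^ 3 =
    v.valuation (R ℚ) ((-2 : ℤ) : R ℚ) := by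
  have e3 : v.valuation (R ℚ) (trip ((1 : ℤ) : ℚ) ((1 : ℤ) : ℚ) ((1 : ℤ) : ℚ)) = 1 :=
    r4e_eq_one v (r4e_trip_le v 1 1 1) (r4e_trip_le v (-1) (-1) 0) (by rw [r4e_rho2, map_one])
  rw [← map_pow, r4e_pr3, map_mul, e3, mul_one]

private theorem r4e_key {p : ℕ} (hp : p = 2 ∨ GoodPrime p)
    (hv : v.valuation (R ℚ) ((p : ℤ) : R ℚ) < 1) :
    ∀ (n : ℕ) (a b c : ℤ), (r4e_N a b c).natAbs = n → r4e_N a b c ≠ 0 →
      v.valuation (R ℚ) (trip (a : ℚ) (b : ℚ) (c : ℚ)) ^ 3 =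
        v.valuation (R ℚ) ((r4e_N a b c : ℤ) : R ℚ) := by
  have hpp : p.Prime := by
    rcases hp with rfl | h
    · exact Nat.prime_two
    · exact h.1
  intro n
  induction n using Nat.strong_induction_on with
  | _ n ih =>
  intro a b c hn hN
  by_cases hdiv : (p : ℤ) ∣ r4e_N a b c
  · rcases hp with rfl | hg
    · -- p = 2
      have ha : (2 : ℤ) ∣ a := by
        have h1 : (2 : ℤ) ∣ a ^ 3 := by
          obtain ⟨t, ht⟩ := hdiv
          refine ⟨t - (-(a ^ 2 * b) + a * b ^ 2 - 2 * b * c ^ 2 +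
            2 * b ^ 2 * c - b ^ 3 + 2 * c ^ 3 + a * b * c - 2 * a * c ^ 2), ?_⟩
          simp only [r4e_N] at ht
          push_cast at ht
          linarith
        exact Int.prime_two.dvd_of_dvd_pow h1
      obtain ⟨a', rfl⟩ := ha
      have hNN : r4e_N (2 * a') b c = (-2) * r4e_N (b - 2 * a') (c - 2 * a') (-a') := by
        simp only [r4e_N]; ring
      have hN' : r4e_N (b - 2 * a') (c - 2 * a') (-a') ≠ 0 := by
        intro h0
        rw [hNN, h0] at hN
        exact hN (by ring)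
      have hlt : (r4e_N (b - 2 * a') (c - 2 * a') (-a')).natAbs < n := by
        have h1 := Int.natAbs_pos.2 hN'
        have h2 : ((-2) * r4e_N (b - 2 * a') (c - 2 * a') (-a')).natAbs =
            2 * (r4e_N (b - 2 * a') (c - 2 * a') (-a')).natAbs := by
          rw [Int.natAbs_mul]; rfl
        rw [← hn, hNN, h2]
        omega
      have hI := ih _ hlt (b - 2 * a') (c - 2 * a') (-a') rfl hN'
      rw [r4e_two, map_mul, mul_pow, hI, r4e_pr_cube, hNN, Int.cast_mul, map_mul]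
    · -- good prime
      obtain ⟨⟨a', rfl⟩, ⟨b', rfl⟩, ⟨c', rfl⟩⟩ := r4e_aniso hg hdiv
      have hNN : r4e_N ((p : ℤ) * a') (p * b') (p * c') = (p : ℤ) ^ 3 * r4e_N a' b' c' := by
        simp only [r4e_N]; ring
      have hN' : r4e_N a' b' c' ≠ 0 := by
        intro h0
        rw [hNN, h0] at hN
        exact hN (by ring)
      have hlt : (r4e_N a' b' c').natAbs < n := by
        have h1 := Int.natAbs_pos.2 hN'
        rw [← hn, hNN, Int.natAbs_mul, Int.natAbs_pow, Int.natAbs_natCast]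
        have h2 : 2 ≤ p := hpp.two_le
        have h3 : 2 ^ 3 ≤ p ^ 3 := Nat.pow_le_pow_left h2 3
        nlinarith
      have hI := ih _ hlt a' b' c' rfl hN'
      have e : trip (((p : ℤ) * a' : ℤ) : ℚ) (((p : ℤ) * b' : ℤ) : ℚ) (((p : ℤ) * c' : ℤ) : ℚ) =
          ((p : ℤ) : R ℚ) * trip (a' : ℚ) (b' : ℚ) (c' : ℚ) := by
        rw [← r4e_smul]
        push_cast
        rfl
      rw [e, map_mul, mul_pow, hI, hNN, Int.cast_mul, map_mul, Int.cast_pow, map_pow]
  · have h1 := r4e_coprime v hpp hv hdiv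
    have h4 : v.valuation (R ℚ) (trip (a : ℚ) (b : ℚ) (c : ℚ)) = 1 := by
      refine r4e_eq_one v (r4e_trip_le v a b c) (r4e_trip_le v
        (a ^ 2 - 2 * a * b - 2 * b * c + 2 * b ^ 2) (-(a * b) - 4 * b * c + 2 * b ^ 2 + 2 * c ^ 2)
        (-(a * c) - 2 * b * c + b ^ 2 + 2 * c ^ 2)) ?_
      rw [r4e_conj, h1]
    rw [h4, h1, one_pow]

end

/-- Let `z` be an element whose norm is a square. At the prime above `2` (totally ramified, `π` is a
uniformiser: `trip (2 a') b c = π * trip (b - 2 a') (c - 2 a') (-a')`) and above the good primes (inert,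
the norm form is anisotropic modulo `p`) the valuation of `z` is even. -/
theorem even_ram (z : R ℚ) (hz : z ≠ 0) (n : ℚ) (hN : Algebra.norm ℚ z = n ^ 2) (p : ℕ)
    (hp : p = 2 ∨ GoodPrime p) (v : HeightOneSpectrum (𝓞 (R ℚ)))
    (hv : (p : 𝓞 (R ℚ)) ∈ v.asIdeal) : IsSquare (v.valuation (R ℚ) z) := by
  have hv' : v.valuation (R ℚ) ((p : ℤ) : R ℚ) < 1 := by
    have h := (v.valuation_lt_one_iff_mem (K := R ℚ) (p : 𝓞 (R ℚ))).2 hv
    simpa using h
  obtain ⟨a, b, c, rfl⟩ := trip_surj z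
  -- clear denominators
  obtain ⟨D, hD, a', b', c', ha, hb, hc⟩ : ∃ (D : ℤ), D ≠ 0 ∧ ∃ a' b' c' : ℤ,
      (D : ℚ) * a = a' ∧ (D : ℚ) * b = b' ∧ (D : ℚ) * c = c' := by
    have ea : (a.den : ℚ) * a = a.num := Rat.den_mul_eq_num a
    have eb : (b.den : ℚ) * b = b.num := Rat.den_mul_eq_num b
    have ec : (c.den : ℚ) * c = c.num := Rat.den_mul_eq_num c
    refine ⟨(a.den : ℤ) * b.den * c.den, ?_, a.num * b.den * c.den, a.den * b.num * c.den,
      a.den * b.den * c.num, ?_, ?_, ?_⟩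
    · have h1 : (a.den : ℤ) ≠ 0 := by exact_mod_cast a.den_nz
      have h2 : (b.den : ℤ) ≠ 0 := by exact_mod_cast b.den_nz
      have h3 : (c.den : ℤ) ≠ 0 := by exact_mod_cast c.den_nz
      exact mul_ne_zero (mul_ne_zero h1 h2) h3
    · push_cast
      linear_combination (b.den : ℚ) * c.den * ea
    · push_cast
      linear_combination (a.den : ℚ) * c.den * eb
    · push_cast
      linear_combination (a.den : ℚ) * b.den * ec
  have e : trip (a' : ℚ) (b' : ℚ) (c' : ℚ) = (D : R ℚ) * trip a b c := by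
    rw [← ha, ← hb, ← hc, r4e_smul]
  have hn0 : Algebra.norm ℚ (trip a b c) ≠ 0 := r4e_ne hz
  have hNint : ((r4e_N a' b' c' : ℤ) : ℚ) = (D : ℚ) ^ 3 * n ^ 2 := by
    rw [← hN, r4e_norm, r4e_N_int, ← ha, ← hb, ← hc]
    simp only [r4e_N]; ring
  have hD' : (D : ℚ) ≠ 0 := by exact_mod_cast hD
  have hn2 : n ^ 2 ≠ 0 := by rw [← hN]; exact hn0
  have hN0 : r4e_N a' b' c' ≠ 0 := by
    intro h0
    rw [h0, Int.cast_zero] at hNint
    exact (mul_ne_zero (pow_ne_zero 3 hD') hn2) hNint.symm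
  have key := r4e_key v hp hv' _ a' b' c' rfl hN0
  have e2 : ((r4e_N a' b' c' : ℤ) : R ℚ) = (D : R ℚ) ^ 3 * algebraMap ℚ (R ℚ) n ^ 2 := by
    have h1 : algebraMap ℚ (R ℚ) ((r4e_N a' b' c' : ℤ) : ℚ) = ((r4e_N a' b' c' : ℤ) : R ℚ) :=
      map_intCast _ _
    rw [← h1, hNint, map_mul, map_pow, map_pow, map_intCast]
  rw [e, e2, map_mul, mul_pow, map_mul, map_pow, map_pow] at key
  have hDR : v.valuation (R ℚ) (D : R ℚ) ≠ 0 := by
    rw [Ne, map_eq_zero]
    exact_mod_cast hD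
  have hzv : v.valuation (R ℚ) (trip a b c) ≠ 0 := by
    rw [Ne, map_eq_zero]
    exact hz
  have key2 := mul_left_cancel₀ (pow_ne_zero 3 hDR) key
  refine ⟨v.valuation (R ℚ) (algebraMap ℚ (R ℚ) n) / v.valuation (R ℚ) (trip a b c), ?_⟩
  rw [div_mul_div_comm, ← pow_two, ← key2, eq_div_iff (mul_ne_zero hzv hzv), pow_succ', pow_two]

end X11
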