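import Pool.Agent.MP_9ab903_nt.NC.RDefs

set_option autoImplicit false

open Polynomial NumberField IsDedekindDomain
open scoped Classical

namespace X11

/-! ## [NC-R8] fields of degree a power of two (port of MP_ae0bd0_nt/CM/R8.lean) -/

theorem irreducible_of_two_pow {F : Type} [Field F] [NumberField F] (n : ℕ)
    (h : Module.finrank ℚ F = 2 ^ n) : Irreducible (cubPoly F) := by
  apply irreducible_of_no_root
  intro x hx
  have hirr : Irreducible (cubPoly ℚ) := factQ.out
  have hroot : Polynomial.aeval x (cubPoly ℚ) = 0 := by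
    rw [Polynomial.aeval_def, eval₂_cubPoly, hx]
  have hmin : minpoly ℚ x = cubPoly ℚ :=
    (minpoly.eq_of_irreducible_of_monic hirr hroot (cubPoly_monic ℚ)).symm
  have hint : IsIntegral ℚ x := Algebra.IsIntegral.isIntegral x
  have hdeg : Module.finrank ℚ (IntermediateField.adjoin ℚ {x}) = 3 := by
    rw [IntermediateField.adjoin.finrank hint, hmin, cubPoly_natDegree]
  have hdvd : (3 : ℕ) ∣ 2 ^ n := by
    rw [← h, ← hdeg]
    exact ⟨_, (Module.finrank_mul_finrank ℚ (IntermediateField.adjoin ℚ {x}) F).symm⟩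
  have h3 : (3 : ℕ) ∣ 2 := Nat.Prime.dvd_of_dvd_pow (by norm_num) hdvd
  omega

theorem good_prime_odd {p : ℕ} (h : GoodPrime p) : p ≠ 2 := by
  rintro rfl
  exact h.2 ⟨1, by decide⟩

theorem good_prime_ne_eleven {p : ℕ} (h : GoodPrime p) : p ≠ 11 := by
  rintro rfl
  exact h.2 ⟨3, by decide⟩

theorem goodLevel_odd {m : ℕ} (hm : GoodLevel m) : Odd m := by
  rw [← Nat.not_even_iff_odd]
  intro h
  exact good_prime_odd (hm.2 2 Nat.prime_two h.two_dvd) rfl

end X11
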