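import Mathlib

/-!
# [NC11] algebraic half: definitions

`E : y² + y = x³ - x² - 10 x - 20` (`X₀(11)`), `R K = K[π]/(π³ + 2 π² + 2 π + 2)` (for `K = ℚ` the cubic
field of discriminant `-44`). A point `(x, y)` of `E` is mapped to
`-7 - 4 π + (x - 4) π² = (x - T) π²`, where `T = (3 π² - π)/2` is the `x`-coordinate of a point of
order `2`: `4 T³ - 4 T² - 40 T - 79 = 0`.
-/

set_option autoImplicit false

open Polynomial NumberField IsDedekindDomain
open scoped Classical

namespace X11

/-- The Weierstrass curve `y² + y = x³ - x² - 10 x - 20`. -/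
def E (K : Type*) [CommRing K] : WeierstrassCurve K := ⟨0, -1, 1, -10, -20⟩

/-- Good primes: the cubic `X³ - X² + X + 1` has no root modulo `p`. -/
def GoodPrime (p : ℕ) : Prop := p.Prime ∧ ¬ ∃ x : ZMod p, x ^ 3 - x ^ 2 + x + 1 = 0

/-- Good levels: squarefree products of good primes (including the empty product). -/
def GoodLevel (m : ℕ) : Prop := Squarefree m ∧ ∀ p, p.Prime → p ∣ m → GoodPrime p

/-- The polynomial `X³ + 2 X² + 2 X + 2`. -/
noncomputable def cubPoly (K : Type) [Field K] : K[X] := X ^ 3 + C 2 * X ^ 2 + C 2 * X + C 2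

theorem eval₂_cubPoly {K : Type} [Field K] {S : Type*} [CommRing S] (f : K →+* S) (x : S) :
    (cubPoly K).eval₂ f x = x ^ 3 + 2 * x ^ 2 + 2 * x + 2 := by
  have h : f 2 = 2 := map_ofNat f 2
  simp only [cubPoly, eval₂_add, eval₂_mul, eval₂_pow, eval₂_X, eval₂_C, h]

/-- `K[π]/(π³ + 2 π² + 2 π + 2)` -/
abbrev R (K : Type) [Field K] := AdjoinRoot (cubPoly K)

section
variable (K : Type) [Field K]

/-- The root `π` in `R K`. -/
noncomputable def pr : R K := AdjoinRoot.root (cubPoly K)

/-- The element `a + b π + c π²`. -/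
noncomputable def trip {K : Type} [Field K] (a b c : K) : R K :=
  algebraMap K (R K) a + algebraMap K (R K) b * pr K + algebraMap K (R K) c * pr K ^ 2

theorem pr_pow : pr K ^ 3 = -2 * pr K ^ 2 - 2 * pr K - 2 := by
  have h : (cubPoly K).eval₂ (AdjoinRoot.of (cubPoly K)) (pr K) = 0 :=
    AdjoinRoot.eval₂_root (cubPoly K)
  rw [eval₂_cubPoly] at h
  linear_combination h

end

/-- The descent map: `-7 - 4 π + (x - 4) π²` for the point `(x, y)`, and `1` for the point at
infinity. -/
noncomputable def zOf {K : Type} [Field K] : (E K).toAffine.Point → R K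
  | .zero => 1
  | .some x _ _ => trip (-7) (-4) (x - 4)

/-- The map `R K → R L` induced by a homomorphism `K → L`. -/
noncomputable def mapR {K L : Type} [Field K] [Field L] (f : K →+* L) : R K →+* R L :=
  AdjoinRoot.lift ((algebraMap L (R L)).comp f) (pr L) (by
    rw [eval₂_cubPoly, pr_pow]; ring)

theorem mapR_pr {K L : Type} [Field K] [Field L] (f : K →+* L) : mapR f (pr K) = pr L :=
  AdjoinRoot.lift_root _

theorem mapR_algebraMap {K L : Type} [Field K] [Field L] (f : K →+* L) (a : K) :
    mapR f (algebraMap K (R K) a) = algebraMap L (R L) (f a) :=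
  AdjoinRoot.lift_of _

theorem mapR_trip {K L : Type} [Field K] [Field L] (f : K →+* L) (a b c : K) :
    mapR f (trip a b c) = trip (f a) (f b) (f c) := by
  simp only [trip, map_add, map_mul, map_pow, mapR_pr, mapR_algebraMap]

theorem E_map {K L : Type*} [CommRing K] [CommRing L] (f : K →+* L) : (E K).map f = E L := by
  have h1 : f 10 = 10 := map_ofNat f 10
  have h2 : f 20 = 20 := map_ofNat f 20
  simp [E, WeierstrassCurve.map, h1, h2]

/-- The map on points induced by a homomorphism of fields. -/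
noncomputable def ptMap {K L : Type} [Field K] [Field L] (f : K →+* L) :
    (E K).toAffine.Point → (E L).toAffine.Point
  | .zero => .zero
  | .some x y h => .some (f x) (f y) (by
      have h1 := (WeierstrassCurve.Affine.map_nonsingular (E K).toAffine f.injective x y).2 h
      have h2 : ((E K).toAffine.map f) = (E L).toAffine := E_map f
      rwa [h2] at h1)

theorem cubPoly_monic (K : Type) [Field K] : (cubPoly K).Monic := by
  rw [cubPoly]; monicity!

theorem cubPoly_natDegree (K : Type) [Field K] : (cubPoly K).natDegree = 3 := by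
  rw [cubPoly]; compute_degree!

theorem irreducible_of_no_root {K : Type} [Field K]
    (h : ∀ x : K, x ^ 3 + 2 * x ^ 2 + 2 * x + 2 ≠ 0) : Irreducible (cubPoly K) := by
  rw [Polynomial.irreducible_iff_roots_eq_zero_of_degree_le_three]
  · rw [Multiset.eq_zero_iff_forall_notMem]
    intro x hx
    have h1 := (Polynomial.mem_roots'.1 hx).2
    rw [Polynomial.IsRoot.def, ← Polynomial.eval₂_id, eval₂_cubPoly] at h1
    exact h x h1
  · rw [cubPoly_natDegree]; norm_num
  · rw [cubPoly_natDegree]

instance factQ : Fact (Irreducible (cubPoly ℚ)) := ⟨by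
  apply irreducible_of_no_root
  intro x hx
  -- `x = n / d`, `n³ + 2 n² d + 2 n d² + 2 d³ = 0`
  have hd : (x.den : ℚ) ≠ 0 := by exact_mod_cast x.den_nz
  have hx' : x * x.den = x.num := Rat.mul_den_eq_num x
  have h1 : ((x.num : ℚ)) ^ 3 + 2 * x.num ^ 2 * x.den + 2 * x.num * x.den ^ 2 + 2 * x.den ^ 3 = 0 := by
    rw [← hx']
    linear_combination (x.den : ℚ) ^ 3 * hx
  have h2 : (x.num) ^ 3 + 2 * x.num ^ 2 * x.den + 2 * x.num * x.den ^ 2 + 2 * (x.den : ℤ) ^ 3 = 0 := by
    exact_mod_cast h1
  have h3 : (2 : ℤ) ∣ x.num := by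
    have h4 : (2 : ℤ) ∣ x.num ^ 3 :=
      ⟨-(x.num ^ 2 * x.den + x.num * x.den ^ 2 + (x.den : ℤ) ^ 3), by linear_combination h2⟩
    exact Int.prime_two.dvd_of_dvd_pow h4
  obtain ⟨k, hk⟩ := h3
  have h5 : (2 : ℤ) ∣ (x.den : ℤ) := by
    have h6 : (2 : ℤ) ∣ (x.den : ℤ) ^ 3 := by
      refine ⟨-(2 * k ^ 3 + 2 * k ^ 2 * x.den + k * x.den ^ 2), ?_⟩
      rw [hk] at h2
      linarith
    exact Int.prime_two.dvd_of_dvd_pow h6
  have h7 := x.reduced
  have h8 : 2 ∣ x.num.natAbs := Int.natCast_dvd.1 (by exact_mod_cast (⟨k, hk⟩ : (2 : ℤ) ∣ x.num))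
  have h9 : 2 ∣ x.den := by exact_mod_cast h5
  exact Nat.not_coprime_of_dvd_of_dvd (by norm_num) h8 h9 h7⟩

instance charZeroR {K : Type} [Field K] [CharZero K] [Fact (Irreducible (cubPoly K))] :
    CharZero (R K) := charZero_of_injective_algebraMap (algebraMap K (R K)).injective

instance finiteR {K : Type} [Field K] : FiniteDimensional K (R K) :=
  (AdjoinRoot.powerBasis' (cubPoly_monic K)).finite

instance numberFieldR : NumberField (R ℚ) where
  to_charZero := charZeroR
  to_finiteDimensional := finiteR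

/-- The function `r : E(K) → R K` with `r(B)² = zOf (2 B)` and `r(B + T) = r(B) r(T)` for `2 T = 0`. -/
noncomputable def rOf {K : Type} [Field K] : (E K).toAffine.Point → R K
  | .zero => 1
  | .some x y _ =>
    if 2 * y + 1 = 0 then
      trip ((14 - x ^ 2) / (3 * x ^ 2 - 2 * x - 10)) ((16 - x) / (3 * x ^ 2 - 2 * x - 10))
        ((25 + 6 * x) / (2 * (3 * x ^ 2 - 2 * x - 10)))
    else trip ((-25 - 6 * x) / (2 * y + 1)) ((-x ^ 2 - 6 * x - 11) / (2 * y + 1))
      ((-9 - 7 * x) / (2 * y + 1))

/-- `K` contains three roots of `X³ + 2 X² + 2 X + 2`. -/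
structure Roots (K : Type) [Field K] where
  (a b c : K)
  ha : a ^ 3 + 2 * a ^ 2 + 2 * a + 2 = 0
  hb : b ^ 3 + 2 * b ^ 2 + 2 * b + 2 = 0
  hc : c ^ 3 + 2 * c ^ 2 + 2 * c + 2 = 0
  hab : a ≠ b
  hac : a ≠ c
  hbc : b ≠ c

/-- The evaluation of `R K` at a root of `X³ + 2 X² + 2 X + 2` in an extension. -/
noncomputable def evR {K L : Type} [Field K] [Field L] (f : K →+* L) (ρ : L)
    (h : ρ ^ 3 + 2 * ρ ^ 2 + 2 * ρ + 2 = 0) : R K →+* L :=
  AdjoinRoot.lift f ρ (by rw [eval₂_cubPoly, h])

theorem evR_trip {K L : Type} [Field K] [Field L] (f : K →+* L) (ρ : L)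
    (h : ρ ^ 3 + 2 * ρ ^ 2 + 2 * ρ + 2 = 0) (a b c : K) :
    evR f ρ h (trip a b c) = f a + f b * ρ + f c * ρ ^ 2 := by
  have h1 : evR f ρ h (pr K) = ρ := AdjoinRoot.lift_root _
  have h2 : ∀ x : K, evR f ρ h (algebraMap K (R K) x) = f x := fun x => AdjoinRoot.lift_of _
  simp only [trip, map_add, map_mul, map_pow, h1, h2]

/-- The local condition at an extension `L` of `F`: the class of `z` is the class of a point. -/
def LocCond {F : Type} [Field F] (z : R F) (L : Type) [Field L] [Algebra F L] : Prop :=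
  ∃ (P : (E L).toAffine.Point) (u : R L), IsUnit u ∧ mapR (algebraMap F L) z = zOf P * u ^ 2

/-- `z` lies in the group generated by the squares and the `a + b π + c π²` with
`a ≡ 1, b ≡ 0 mod 𝔪` and `c` integral, with respect to the valuation `w`. -/
def InU2 {F : Type} [Field F] (w : Valuation F (WithZero (Multiplicative ℤ))) (z : R F) : Prop :=
  ∃ (u : R F) (a b c : F), z * u ^ 2 = trip a b c ∧ w (a - 1) < 1 ∧ w b < 1 ∧ w c ≤ 1

instance numberFieldRF {F : Type} [Field F] [NumberField F] [Fact (Irreducible (cubPoly F))] :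
    NumberField (R F) where
  to_charZero := charZeroR
  to_finiteDimensional := Module.Finite.trans F (R F)

/-- The element `ϖ = 3 + 2 π + π²` of norm `11`; it generates the square root of the
different up to primes above `2`. -/
noncomputable def vp (K : Type) [Field K] : R K := trip 3 2 1

/-- The elements of `R F` which satisfy the conditions of a Selmer element outside the ramified prime
above `11` and the places with bad ramification. -/
structure Good {F : Type} [Field F] [NumberField F] [Fact (Irreducible (cubPoly F))]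
    (z : R F) : Prop where
  ne : z ≠ 0
  norm : ∃ n : F, Algebra.norm F z = n ^ 2
  even : ∀ P : HeightOneSpectrum (𝓞 (R F)), (2 : 𝓞 (R F)) ∉ P.asIdeal →
    P.valuation (R F) (vp F) = 1 → IsSquare (P.valuation (R F) z)
  two : ∀ v : HeightOneSpectrum (𝓞 F), (2 : 𝓞 F) ∈ v.asIdeal → (2 : 𝓞 F) ∉ v.asIdeal ^ 2 →
    InU2 (v.valuation F) z

/-- locally constant crossed homomorphisms (for the points of `E` with the maps `ptMap`) -/
structure Coc (F L : Type) [Field F] [Field L] [Algebra F L]
    (c : (L ≃ₐ[F] L) → (E L).toAffine.Point) : Prop where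
  loc : IsLocallyConstant c
  crossed : ∀ σ τ : L ≃ₐ[F] L, c (σ * τ) = c σ + ptMap (σ : L →+* L) (c τ)

end X11
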