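import Pool.Agent.MP_9ab903_nt.NC.R1

set_option autoImplicit false

open Polynomial NumberField IsDedekindDomain
open scoped Classical

namespace X11

/-! ## [NC-U] the local condition at `2` (port of SB/U.lean) -/

theorem u_mul_sq {K : Type} [Field K] (z1 z2 z3 x1 x2 x3 : K) :
    trip z1 z2 z3 * trip x1 x2 x3 ^ 2 =
      trip (z1 * (x1 ^ 2 - 4 * x2 * x3 + 4 * x3 ^ 2)
          - 2 * (z2 * (2 * x1 * x3 + x2 ^ 2 - 4 * x2 * x3 + 2 * x3 ^ 2)
            + z3 * (2 * x1 * x2 - 4 * x2 * x3 + 2 * x3 ^ 2))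
          + 4 * (z3 * (2 * x1 * x3 + x2 ^ 2 - 4 * x2 * x3 + 2 * x3 ^ 2)))
        (z1 * (2 * x1 * x2 - 4 * x2 * x3 + 2 * x3 ^ 2)
          + z2 * (x1 ^ 2 - 4 * x2 * x3 + 4 * x3 ^ 2)
          - 2 * (z2 * (2 * x1 * x3 + x2 ^ 2 - 4 * x2 * x3 + 2 * x3 ^ 2)
            + z3 * (2 * x1 * x2 - 4 * x2 * x3 + 2 * x3 ^ 2))
          + 2 * (z3 * (2 * x1 * x3 + x2 ^ 2 - 4 * x2 * x3 + 2 * x3 ^ 2)))
        (z1 * (2 * x1 * x3 + x2 ^ 2 - 4 * x2 * x3 + 2 * x3 ^ 2)
          + z2 * (2 * x1 * x2 - 4 * x2 * x3 + 2 * x3 ^ 2)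
          + z3 * (x1 ^ 2 - 4 * x2 * x3 + 4 * x3 ^ 2)
          - 2 * (z2 * (2 * x1 * x3 + x2 ^ 2 - 4 * x2 * x3 + 2 * x3 ^ 2)
            + z3 * (2 * x1 * x2 - 4 * x2 * x3 + 2 * x3 ^ 2))
          + 2 * (z3 * (2 * x1 * x3 + x2 ^ 2 - 4 * x2 * x3 + 2 * x3 ^ 2))) := by
  rw [pow_two, r1_trip_mul, r1_trip_mul]
  congr 1 <;> ring

theorem u_exists_exp {g : WithZero (Multiplicative ℤ)} (h : g ≠ 0) :
    ∃ k : ℤ, g = WithZero.exp k := ⟨WithZero.log g, (WithZero.exp_log h).symm⟩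

theorem u_nat {C : Type} [Field C] (w : Valuation C (WithZero (Multiplicative ℤ))) (n : ℕ) :
    w (n : C) ≤ 1 := by
  induction n with
  | zero => simp
  | succ n ih =>
    rw [Nat.cast_succ]
    exact w.map_add_le ih (by simp)

/-- the identity at a point -/
theorem u_point {C : Type} [Field C] (h2 : (2 : C) ≠ 0) {x y : C} (hy : y ≠ 0)
    (h : y ^ 2 + y = x ^ 3 - x ^ 2 - 10 * x - 20) :
    trip (-7 : C) (-4) (x - 4) * trip (-x / y) (-x / y) (-x / (2 * y)) ^ 2 =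
      trip (1 + 1 / y + (x ^ 2 + 10 * x + 20) / y ^ 2) (x ^ 2 / (2 * y ^ 2))
        (-3 * x ^ 2 / (2 * y ^ 2)) := by
  rw [u_mul_sq]
  congr 1
  · field_simp
    linear_combination (-4 : C) * h
  · field_simp
    ring
  · field_simp
    ring

/-- images of points. If `w x ≤ 1`: `u = 1`, `(a, b, c) = (-7, -4, x - 4)`. If `1 < w x`:
`zOf P * (trip (-x/y) (-x/y) (-x/(2 y)))² =
  trip (1 + 1/y + (x² + 10 x + 20)/y²) (x²/(2 y²)) (-3 x²/(2 y²))`
(`π⁻¹ = -(π² + 2 π + 2)/2`, `zOf P = (x - (3 π² - π)/2) π²`), `w x = exp (2 k)`, `w y = exp (3 k)`. -/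
theorem inU2_zOf {C : Type} [Field C] (w : Valuation C (WithZero (Multiplicative ℤ)))
    (h2 : w 2 = WithZero.exp (-1)) (P : (E C).toAffine.Point) :
    ∃ (u : R C) (a b c : C), IsUnit u ∧ zOf P * u ^ 2 = trip a b c ∧ w (a - 1) < 1 ∧ w b < 1 ∧
      w c ≤ 1 := by
  have h20 : (2 : C) ≠ 0 := by
    intro h
    rw [h, map_zero] at h2
    exact WithZero.exp_ne_zero h2.symm
  have h2lt : w 2 < 1 := by
    rw [h2, ← WithZero.exp_zero, WithZero.exp_lt_exp]
    norm_num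
  have hnat : ∀ n : ℕ, w (n : C) ≤ 1 := u_nat w
  rcases P with _ | ⟨x, y, hxy⟩
  · refine ⟨1, 1, 0, 0, isUnit_one, ?_, ?_, ?_, ?_⟩
    · change (1 : R C) * 1 ^ 2 = _
      simp [trip]
    · rw [sub_self, map_zero]
      exact zero_lt_one
    · rw [map_zero]
      exact zero_lt_one
    · rw [map_zero]
      exact zero_le_one
  · have he := r1_equation hxy
    rcases le_or_gt (w x) 1 with hx | hx
    · refine ⟨1, -7, -4, x - 4, isUnit_one, ?_, ?_, ?_, ?_⟩
      · change trip (-7) (-4) (x - 4) * 1 ^ 2 = _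
        rw [one_pow, mul_one]
      · have e : (-7 : C) - 1 = -(2 * (4 : ℕ)) := by push_cast; norm_num
        rw [e, Valuation.map_neg, map_mul]
        exact mul_lt_one_of_lt_of_le h2lt (hnat 4)
      · have e : (-4 : C) = -(2 * (2 : ℕ)) := by push_cast; norm_num
        rw [e, Valuation.map_neg, map_mul]
        exact mul_lt_one_of_lt_of_le h2lt (hnat 2)
      · exact w.map_sub_le hx (by exact_mod_cast hnat 4)
    · -- the valuation of `y`
      have hx1 : 1 ≤ w x := hx.le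
      have hx2 : w x ≤ w x ^ 2 := by
        rw [pow_two]
        exact le_mul_of_one_le_left' hx1
      have hx3 : w x ^ 2 < w x ^ 3 := by
        rw [pow_succ _ 2]
        exact lt_mul_of_one_lt_right (pow_pos (zero_lt_one.trans hx) 2) hx
      have hq : w (x ^ 2 + 10 * x + 20) ≤ w x ^ 2 := by
        refine w.map_add_le (w.map_add_le (by rw [map_pow]) ?_) ?_
        · rw [map_mul]
          have h10 : w (10 : C) ≤ 1 := by exact_mod_cast hnat 10
          exact (mul_le_of_le_one_left' h10).trans hx2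
        · have h10 : w (20 : C) ≤ 1 := by exact_mod_cast hnat 20
          exact h10.trans (hx1.trans hx2)
      have hrhs : w (x ^ 3 - x ^ 2 - 10 * x - 20) = w x ^ 3 := by
        have e : x ^ 3 - x ^ 2 - 10 * x - 20 = x ^ 3 - (x ^ 2 + 10 * x + 20) := by ring
        rw [e, Valuation.map_sub_eq_of_lt_left _ (by rw [map_pow]; exact hq.trans_lt hx3), map_pow]
      have hy : 1 < w y := by
        by_contra hy
        rw [not_lt] at hy
        have h3 : w (y ^ 2 + y) ≤ 1 := by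
          refine w.map_add_le ?_ hy
          rw [map_pow]
          exact pow_le_one' hy 2
        rw [he, hrhs] at h3
        exact absurd (one_lt_pow₀ hx (by norm_num : (3 : ℕ) ≠ 0)) (not_lt.2 h3)
      have hy2 : w (y ^ 2 + y) = w (y ^ 2) := by
        apply Valuation.map_add_eq_of_lt_left
        rw [map_pow, sq]
        exact lt_mul_of_one_lt_left (zero_lt_one.trans hy) hy
      have hx0 : x ≠ 0 := by
        rintro rfl
        rw [map_zero] at hx
        exact absurd hx (not_lt.2 zero_le_one)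
      have hy0 : y ≠ 0 := by
        rintro rfl
        rw [map_zero] at hy
        exact absurd hy (not_lt.2 zero_le_one)
      obtain ⟨m, hm⟩ := u_exists_exp (show w x ≠ 0 from (w.ne_zero_iff).2 hx0)
      obtain ⟨l, hl⟩ := u_exists_exp (show w y ≠ 0 from (w.ne_zero_iff).2 hy0)
      rw [he, hrhs, map_pow, hm, hl, ← WithZero.exp_nsmul, ← WithZero.exp_nsmul,
        WithZero.exp_inj] at hy2
      simp only [nsmul_eq_mul, Nat.cast_ofNat] at hy2
      rw [hm, ← WithZero.exp_zero, WithZero.exp_lt_exp] at hx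
      rw [hl, ← WithZero.exp_zero, WithZero.exp_lt_exp] at hy
      have hwb : w (x ^ 2 / (2 * y ^ 2)) ≤ WithZero.exp (-1) := by
        rw [map_div₀, map_mul, map_pow, map_pow, hm, hl, h2, ← WithZero.exp_nsmul,
          ← WithZero.exp_nsmul, ← WithZero.exp_add, ← WithZero.exp_sub, WithZero.exp_le_exp]
        simp only [nsmul_eq_mul, Nat.cast_ofNat]
        omega
      have hexp : (WithZero.exp (-1) : WithZero (Multiplicative ℤ)) < 1 := by
        rw [← WithZero.exp_zero, WithZero.exp_lt_exp]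
        norm_num
      refine ⟨trip (-x / y) (-x / y) (-x / (2 * y)), _, _, _, ?_, u_point h20 hy0 he, ?_, ?_, ?_⟩
      · refine IsUnit.of_mul_eq_one (trip 0 (y / x) 0) ?_
        rw [r1_trip_mul]
        have e1 : (1 : R C) = trip 1 0 0 := by simp [trip]
        rw [e1]
        congr 1
        · field_simp
          ring
        · field_simp
          ring
        · field_simp
          ring
      · have e : 1 + 1 / y + (x ^ 2 + 10 * x + 20) / y ^ 2 - 1 =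
            1 / y + (x ^ 2 + 10 * x + 20) / y ^ 2 := by ring
        rw [e]
        refine w.map_add_lt ?_ ?_
        · rw [map_div₀, map_one, hl, ← WithZero.exp_zero, ← WithZero.exp_sub,
            WithZero.exp_lt_exp]
          omega
        · rw [map_div₀, map_pow]
          have h5 : w y ^ 2 ≠ 0 := pow_ne_zero 2 ((w.ne_zero_iff).2 hy0)
          rw [div_lt_one₀ (zero_lt_iff.2 h5)]
          refine hq.trans_lt ?_
          rw [hm, hl, ← WithZero.exp_nsmul, ← WithZero.exp_nsmul, WithZero.exp_lt_exp]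
          simp only [nsmul_eq_mul, Nat.cast_ofNat]
          omega
      · exact hwb.trans_lt hexp
      · have e : -3 * x ^ 2 / (2 * y ^ 2) = -(((3 : ℕ) : C) * (x ^ 2 / (2 * y ^ 2))) := by
          push_cast
          ring
        rw [e, Valuation.map_neg, map_mul]
        exact mul_le_one' (hnat 3) (hwb.trans hexp.le)

/-- approximation -/
theorem inU2_of_locCond (F : Type) [Field F] [NumberField F] (z : R F)
    (v : HeightOneSpectrum (𝓞 F)) (h2 : (2 : 𝓞 F) ∈ v.asIdeal) (h4 : (2 : 𝓞 F) ∉ v.asIdeal ^ 2)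
    (h : LocCond z (v.adicCompletion F)) : InU2 (v.valuation F) z := by
  obtain ⟨P, u, ⟨u, rfl⟩, hz⟩ := h
  have hval : ∀ k : F, Valued.v (algebraMap F (v.adicCompletion F) k) = v.valuation F k :=
    fun k => HeightOneSpectrum.valuedAdicCompletion_eq_valuation' v k
  have hv2 : v.valuation F 2 = WithZero.exp (-1) := by
    have h5 : v.valuation F (algebraMap (𝓞 F) F 2) = v.intValuation 2 :=
      HeightOneSpectrum.valuation_of_algebraMap v 2
    rw [map_ofNat] at h5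
    rw [h5]
    have h6 : (2 : 𝓞 F) ≠ 0 := two_ne_zero
    obtain ⟨k, hk⟩ := u_exists_exp (v.intValuation_ne_zero 2 h6)
    have h7 := (v.intValuation_le_pow_iff_mem 2 1).2 (by simpa using h2)
    have h8 := mt (v.intValuation_le_pow_iff_mem 2 2).1 h4
    rw [hk, WithZero.exp_le_exp] at h7 h8
    rw [hk]
    congr 1
    push_cast at h7 h8
    omega
  have hw2 : Valued.v (2 : v.adicCompletion F) = WithZero.exp (-1) := by
    rw [← hv2, ← hval, map_ofNat (algebraMap F (v.adicCompletion F)) 2]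
  obtain ⟨u', a, b, c, -, h1, ha, hb, hc⟩ := inU2_zOf
    (Valued.v : Valuation (v.adicCompletion F) (WithZero (Multiplicative ℤ))) hw2 P
  obtain ⟨t1, t2, t3, ht⟩ := trip_surj ((↑u⁻¹ : R (v.adicCompletion F)) * u')
  obtain ⟨z1, z2, z3, rfl⟩ := trip_surj z
  have h3 : mapR (algebraMap F (v.adicCompletion F)) (trip z1 z2 z3) * trip t1 t2 t3 ^ 2 =
      trip a b c := by
    rw [← h1, hz, ← ht, mul_pow]
    have h5 : (↑u : R (v.adicCompletion F)) * ↑u⁻¹ = 1 := u.mul_inv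
    linear_combination (zOf P * u' ^ 2 * (↑u * ↑u⁻¹ + 1)) * h5
  rw [mapR_trip, u_mul_sq] at h3
  obtain ⟨e1, e2, e3⟩ := trip_inj h3
  rw [← e1] at ha
  rw [← e2] at hb
  rw [← e3] at hc
  -- the open set
  have hlt : IsOpen {x : v.adicCompletion F | Valued.v x < 1} := by
    have := Valued.isOpen_ball (v.adicCompletion F) 1
    simpa only [Valuation.restrict_lt_one_iff] using this
  have hle : IsOpen {x : v.adicCompletion F | Valued.v x ≤ 1} :=
    Valued.isOpen_integer (v.adicCompletion F)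
  set i := algebraMap F (v.adicCompletion F) with hi
  have hopen : IsOpen {x : v.adicCompletion F × v.adicCompletion F × v.adicCompletion F |
      Valued.v ((i z1 * (x.1 ^ 2 - 4 * x.2.1 * x.2.2 + 4 * x.2.2 ^ 2)
          - 2 * (i z2 * (2 * x.1 * x.2.2 + x.2.1 ^ 2 - 4 * x.2.1 * x.2.2 + 2 * x.2.2 ^ 2)
            + i z3 * (2 * x.1 * x.2.1 - 4 * x.2.1 * x.2.2 + 2 * x.2.2 ^ 2))
          + 4 * (i z3 * (2 * x.1 * x.2.2 + x.2.1 ^ 2 - 4 * x.2.1 * x.2.2 + 2 * x.2.2 ^ 2)))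
          - 1) < 1 ∧
      Valued.v (i z1 * (2 * x.1 * x.2.1 - 4 * x.2.1 * x.2.2 + 2 * x.2.2 ^ 2)
          + i z2 * (x.1 ^ 2 - 4 * x.2.1 * x.2.2 + 4 * x.2.2 ^ 2)
          - 2 * (i z2 * (2 * x.1 * x.2.2 + x.2.1 ^ 2 - 4 * x.2.1 * x.2.2 + 2 * x.2.2 ^ 2)
            + i z3 * (2 * x.1 * x.2.1 - 4 * x.2.1 * x.2.2 + 2 * x.2.2 ^ 2))
          + 2 * (i z3 * (2 * x.1 * x.2.2 + x.2.1 ^ 2 - 4 * x.2.1 * x.2.2 + 2 * x.2.2 ^ 2))) < 1 ∧
      Valued.v (i z1 * (2 * x.1 * x.2.2 + x.2.1 ^ 2 - 4 * x.2.1 * x.2.2 + 2 * x.2.2 ^ 2)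
          + i z2 * (2 * x.1 * x.2.1 - 4 * x.2.1 * x.2.2 + 2 * x.2.2 ^ 2)
          + i z3 * (x.1 ^ 2 - 4 * x.2.1 * x.2.2 + 4 * x.2.2 ^ 2)
          - 2 * (i z2 * (2 * x.1 * x.2.2 + x.2.1 ^ 2 - 4 * x.2.1 * x.2.2 + 2 * x.2.2 ^ 2)
            + i z3 * (2 * x.1 * x.2.1 - 4 * x.2.1 * x.2.2 + 2 * x.2.2 ^ 2))
          + 2 * (i z3 * (2 * x.1 * x.2.2 + x.2.1 ^ 2 - 4 * x.2.1 * x.2.2 + 2 * x.2.2 ^ 2))) ≤ 1} := by
    refine IsOpen.inter ?_ (IsOpen.inter ?_ ?_)
    · exact hlt.preimage (f := fun x : v.adicCompletion F × v.adicCompletion F × v.adicCompletion F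
        => (i z1 * (x.1 ^ 2 - 4 * x.2.1 * x.2.2 + 4 * x.2.2 ^ 2)
          - 2 * (i z2 * (2 * x.1 * x.2.2 + x.2.1 ^ 2 - 4 * x.2.1 * x.2.2 + 2 * x.2.2 ^ 2)
            + i z3 * (2 * x.1 * x.2.1 - 4 * x.2.1 * x.2.2 + 2 * x.2.2 ^ 2))
          + 4 * (i z3 * (2 * x.1 * x.2.2 + x.2.1 ^ 2 - 4 * x.2.1 * x.2.2 + 2 * x.2.2 ^ 2)))
          - 1) (by fun_prop)
    · exact hlt.preimage (f := fun x : v.adicCompletion F × v.adicCompletion F × v.adicCompletion F
        => i z1 * (2 * x.1 * x.2.1 - 4 * x.2.1 * x.2.2 + 2 * x.2.2 ^ 2)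
          + i z2 * (x.1 ^ 2 - 4 * x.2.1 * x.2.2 + 4 * x.2.2 ^ 2)
          - 2 * (i z2 * (2 * x.1 * x.2.2 + x.2.1 ^ 2 - 4 * x.2.1 * x.2.2 + 2 * x.2.2 ^ 2)
            + i z3 * (2 * x.1 * x.2.1 - 4 * x.2.1 * x.2.2 + 2 * x.2.2 ^ 2))
          + 2 * (i z3 * (2 * x.1 * x.2.2 + x.2.1 ^ 2 - 4 * x.2.1 * x.2.2 + 2 * x.2.2 ^ 2)))
        (by fun_prop)
    · exact hle.preimage (f := fun x : v.adicCompletion F × v.adicCompletion F × v.adicCompletion F
        => i z1 * (2 * x.1 * x.2.2 + x.2.1 ^ 2 - 4 * x.2.1 * x.2.2 + 2 * x.2.2 ^ 2)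
          + i z2 * (2 * x.1 * x.2.1 - 4 * x.2.1 * x.2.2 + 2 * x.2.2 ^ 2)
          + i z3 * (x.1 ^ 2 - 4 * x.2.1 * x.2.2 + 4 * x.2.2 ^ 2)
          - 2 * (i z2 * (2 * x.1 * x.2.2 + x.2.1 ^ 2 - 4 * x.2.1 * x.2.2 + 2 * x.2.2 ^ 2)
            + i z3 * (2 * x.1 * x.2.1 - 4 * x.2.1 * x.2.2 + 2 * x.2.2 ^ 2))
          + 2 * (i z3 * (2 * x.1 * x.2.2 + x.2.1 ^ 2 - 4 * x.2.1 * x.2.2 + 2 * x.2.2 ^ 2)))
        (by fun_prop)
  have hd : DenseRange (i : F → v.adicCompletion F) := HeightOneSpectrum.denseRange_algebraMap F v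
  have hd3 := hd.prodMap (hd.prodMap hd)
  obtain ⟨⟨x1, x2, x3⟩, hx⟩ := hd3.exists_mem_open hopen ⟨(t1, t2, t3), ha, hb, hc⟩
  obtain ⟨hx1, hx2, hx3⟩ := hx
  refine ⟨trip x1 x2 x3, _, _, _, u_mul_sq z1 z2 z3 x1 x2 x3, ?_, ?_, ?_⟩
  · rw [← hval]
    simpa only [map_add, map_mul, map_pow, map_sub, map_one, map_ofNat, Prod.map_apply] using hx1
  · rw [← hval]
    simpa only [map_add, map_mul, map_pow, map_sub, map_one, map_ofNat, Prod.map_apply] using hx2
  · rw [← hval]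
    simpa only [map_add, map_mul, map_pow, map_sub, map_one, map_ofNat, Prod.map_apply] using hx3

end X11
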