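import Pool.Agent.MP_9ab903_nt.NC.RDefs
import Pool.Agent.MP_9ab903_nt.SB.UR

set_option autoImplicit false

open Polynomial NumberField IsDedekindDomain
open scoped Classical

namespace X11

/-! ## [NC-UR] `R F / R ℚ` is unramified outside `m` (port of SB/UR.lean) -/

theorem exists_embedding (m : ℕ) [NeZero m] (M : Type) [Field M] [NumberField M]
    [IsCyclotomicExtension {m} ℚ M] (F : IntermediateField ℚ M) [Fact (Irreducible (cubPoly F))]
    (L : Type) [Field L] [CharZero L] [Algebra (R ℚ) L] [IsCyclotomicExtension {m} (R ℚ) L] :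
    ∃ φ : R F →+* L, ∀ z : R ℚ, φ (mapR (algebraMap ℚ F) z) = algebraMap (R ℚ) L z := by
  have hζM : IsPrimitiveRoot (IsCyclotomicExtension.zeta m ℚ M) m :=
    IsCyclotomicExtension.zeta_spec m ℚ M
  have hζL : IsPrimitiveRoot (IsCyclotomicExtension.zeta m (R ℚ) L) m :=
    IsCyclotomicExtension.zeta_spec m (R ℚ) L
  have hm : 0 < m := Nat.pos_of_ne_zero (NeZero.ne m)
  let f : M →ₐ[ℚ] L := (hζM.powerBasis ℚ).lift (IsCyclotomicExtension.zeta m (R ℚ) L) (by
    rw [IsPrimitiveRoot.powerBasis_gen, ← cyclotomic_eq_minpoly_rat hζM hm,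
      cyclotomic_eq_minpoly_rat hζL hm, minpoly.aeval])
  let ψ : F →+* L := f.toRingHom.comp (algebraMap F M)
  let φ : R F →+* L := AdjoinRoot.lift ψ (algebraMap (R ℚ) L (pr ℚ)) (by
    rw [eval₂_cubPoly, ← map_pow, pr_pow]
    simp only [map_sub, map_mul, map_neg, map_pow, map_ofNat]
    ring)
  refine ⟨φ, fun z => ?_⟩
  have : φ.comp (mapR (algebraMap ℚ F)) = algebraMap (R ℚ) L := by
    apply AdjoinRoot.ringHom_ext
    · exact Subsingleton.elim _ _
    · change φ (mapR (algebraMap ℚ F) (pr ℚ)) = algebraMap (R ℚ) L (pr ℚ)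
      rw [mapR_pr]
      exact AdjoinRoot.lift_root _
  exact congrArg (fun g : R ℚ →+* L => g z) this

theorem unram_R (m : ℕ) [NeZero m] (M : Type) [Field M] [NumberField M]
    [IsCyclotomicExtension {m} ℚ M] (F : IntermediateField ℚ M) [Fact (Irreducible (cubPoly F))]
    (v : HeightOneSpectrum (𝓞 (R ℚ))) (hv : (m : 𝓞 (R ℚ)) ∉ v.asIdeal) :
    ∃ P : HeightOneSpectrum (𝓞 (R F)),
      ∀ z : R ℚ, P.valuation (R F) (mapR (algebraMap ℚ F) z) = v.valuation (R ℚ) z := by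
  let L := CyclotomicField m (R ℚ)
  obtain ⟨φ, hφ⟩ := exists_embedding m M F L
  have := v.isMaximal
  obtain ⟨Q, hQm, hQ⟩ := Ideal.exists_maximal_ideal_liesOver_of_isIntegral
    (S := 𝓞 L) v.asIdeal
  have hQ0 : Q ≠ ⊥ := Ideal.ne_bot_of_liesOver_of_ne_bot v.ne_bot Q
  let w : HeightOneSpectrum (𝓞 L) := ⟨Q, hQm.isPrime, hQ0⟩
  have hw : w.asIdeal.LiesOver v.asIdeal := hQ
  have hram := CM27.cyc_ram_one m L v hv w
  letI : Algebra (R ℚ) (R F) := (mapR (algebraMap ℚ F)).toAlgebra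
  letI : Algebra (R F) L := φ.toAlgebra
  haveI : IsScalarTower (R ℚ) (R F) L := IsScalarTower.of_algebraMap_eq fun z => (hφ z).symm
  obtain ⟨P, hP, hval⟩ := CM27.ur_core (B := R F) v w hram
  exact ⟨P, hval⟩

end X11
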